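import Pool.Agent.ETG.Stmts

/-!
Module QEX of the squad ETG: existence of the quaternionic structure of `(V, Z)`.
-/

set_option autoImplicit false

namespace Pool.Agent.ETG

open scoped BigOperators
open Pool.Agent.EWG

namespace QEX_

section
variable {V : Type} [AddCommGroup V] [Module (ZMod 2) V]

theorem add_self (v : V) : v + v = 0 := by
  have h : ((1 : ZMod 2) + 1) • v = 0 := by
    have : (1 : ZMod 2) + 1 = 0 := by decide
    rw [this, zero_smul]
  rwa [add_smul, one_smul] at h

theorem zl {Z : V → V → Prop} (h : LZ Z) (a : V) : Z 0 a := h.symm _ _ (h.zero a)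

theorem e_same {Z : V → V → Prop} (h : LZ Z) {a b c : V} (hz : Z a (b + c)) :
    EqQ Z a b a c := by
  refine ⟨b, ?_, ?_, ?_⟩
  · rw [add_self]; exact h.zero a
  · rw [add_comm]; exact hz
  · rw [add_self]; exact zl h b

theorem e_same_iff {Z : V → V → Prop} (h : LZ Z) (a b c : V) :
    EqQ Z a b a c ↔ Z a (b + c) := by
  refine ⟨?_, e_same h⟩
  rintro ⟨x, h1, h2, -⟩
  have h3 := h.add _ _ _ h1 h2
  have h4 : b + x + (c + x) = b + c := by
    have h5 : b + x + (c + x) = b + c + (x + x) := by abel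
    rw [h5, add_self, add_zero]
  rwa [h4] at h3

theorem e_zero_iff {Z : V → V → Prop} (h : LZ Z) (a b : V) :
    EqQ Z a b 0 0 ↔ Z a b := by
  constructor
  · rintro ⟨x, h1, -, h2⟩
    rw [add_zero] at h2
    have h3 := h.add _ _ _ h1 h2
    rwa [add_assoc, add_self, add_zero] at h3
  · intro hz
    refine ⟨0, ?_, ?_, ?_⟩
    · rw [add_zero]; exact hz
    · exact zl h _
    · exact h.zero _

theorem e_refl {Z : V → V → Prop} (h : LZ Z) (a b : V) : EqQ Z a b a b :=
  e_same h (by rw [add_self]; exact h.zero a)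

theorem e_symm {Z : V → V → Prop} {a b c d : V} (he : EqQ Z a b c d) : EqQ Z c d a b := by
  obtain ⟨x, h1, h2, h3⟩ := he
  exact ⟨x, h2, h1, by rw [add_comm]; exact h3⟩

theorem e_swap {Z : V → V → Prop} (h : LZ Z) (a b : V) : EqQ Z a b b a := by
  refine ⟨a + b, ?_, ?_, h.alt _⟩
  · have h1 : b + (a + b) = a + (b + b) := by abel
    rw [h1, add_self, add_zero]; exact h.alt a
  · have h1 : a + (a + b) = (a + a) + b := by abel
    rw [h1, add_self, zero_add]; exact h.alt b

/-- the setoid of equality of symbols -/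
def std (Z : V → V → Prop) (h : LZ Z) : Setoid (V × V) where
  r p p' := EqQ Z p.1 p.2 p'.1 p'.2
  iseqv := ⟨fun p => e_refl h p.1 p.2, fun he => e_symm he,
    fun h1 h2 => h.trans _ _ _ _ _ _ h1 h2⟩

theorem mk_eq {Z : V → V → Prop} (h : LZ Z) (a b c d : V) :
    (Quotient.mk (std Z h) (a, b) = Quotient.mk (std Z h) (c, d)) ↔ EqQ Z a b c d := by
  rw [Quotient.eq]
  exact Iff.rfl

/-- the quaternionic structure of `(V, Z)` -/
def str (Z : V → V → Prop) (h : LZ Z) : QS.QStruct where
  G := Multiplicative V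
  Q := Quotient (std Z h)
  neg := 1
  zero := Quotient.mk (std Z h) (0, 0)
  q := fun a b => Quotient.mk (std Z h) (Multiplicative.toAdd a, Multiplicative.toAdd b)
  exp_two := fun a => by
    apply Multiplicative.toAdd.injective
    rw [toAdd_mul, toAdd_one]
    exact add_self _
  surj := by
    intro β
    induction β using Quotient.inductionOn with
    | h p => exact ⟨Multiplicative.ofAdd p.1, Multiplicative.ofAdd p.2, rfl⟩
  qs1 := by
    intro a
    rw [one_mul, mk_eq, e_zero_iff h]
    exact h.alt _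
  qs2 := by
    intro a b
    rw [mk_eq]
    exact e_swap h _ _
  qs3 := by
    intro a b c
    rw [mk_eq, mk_eq, e_same_iff h, e_zero_iff h, toAdd_mul]
  qs4 := by
    intro a b c d he
    rw [mk_eq] at he
    obtain ⟨x, h1, h2, -⟩ := he
    refine ⟨Multiplicative.ofAdd x, ?_, ?_⟩
    · rw [mk_eq]
      exact e_same h h1
    · rw [mk_eq]
      exact e_same h h2

end

end QEX_

theorem qex_proof : Stmt_QEX := by
  intro V _ _ Z h
  refine ⟨QEX_.str Z h, rfl, MulEquiv.refl _, ?_⟩
  intro a b
  exact (QEX_.mk_eq h a b 0 0).trans (QEX_.e_zero_iff h a b)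

end Pool.Agent.ETG
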