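import Pool.Agent.ETG.Stmts

/-!
Module QIS: the quaternionic structure of `(V, Z)` is unique up to isomorphism.
-/

set_option autoImplicit false

namespace Pool.Agent.ETG

open scoped BigOperators
open Pool.Agent.EWG

namespace QIS_

theorem q_eq_iff (S : QS.QStruct) (a b c d : S.G) : S.q a b = S.q c d ↔
    ∃ x, S.q a (b * x) = S.zero ∧ S.q c (d * x) = S.zero ∧ S.q (a * c) x = S.zero := by
  constructor
  · intro h
    obtain ⟨x, h1, h2⟩ := S.qs4 a b c d h
    refine ⟨x, (S.qs3 _ _ _).1 h1, (S.qs3 _ _ _).1 h2, ?_⟩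
    rw [S.qs2, ← S.qs3, S.qs2 x a, S.qs2 x c, ← h1, h, h2]
  · rintro ⟨x, h1, h2, h3⟩
    have e1 := (S.qs3 _ _ _).2 h1
    have e2 := (S.qs3 _ _ _).2 h2
    rw [S.qs2, ← S.qs3] at h3
    rw [e1, e2, S.qs2 a x, S.qs2 c x, h3]

end QIS_

open QIS_

theorem qis_proof : Stmt_QIS := by
  rintro V V' _ _ _ _ Z Z' e hZ S T ⟨hSn, φ, hφ⟩ ⟨hTn, ψ, hψ⟩
  refine ⟨(φ.symm.trans (AddEquiv.toMultiplicative e)).trans ψ, ?_, ?_⟩
  · rw [hSn, hTn, map_one]
  · have key : ∀ a b : S.G, S.q a b = S.zero ↔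
        T.q ((φ.symm.trans (AddEquiv.toMultiplicative e)).trans ψ a)
          ((φ.symm.trans (AddEquiv.toMultiplicative e)).trans ψ b) = T.zero := by
      intro a b
      obtain ⟨u, rfl⟩ := φ.surjective a
      obtain ⟨v, rfl⟩ := φ.surjective b
      have h1 := hφ u.toAdd v.toAdd
      have h2 := hψ (e u.toAdd) (e v.toAdd)
      rw [ofAdd_toAdd, ofAdd_toAdd] at h1
      rw [h1, hZ, ← h2]
      simp only [MulEquiv.trans_apply, MulEquiv.symm_apply_apply]
      rfl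
    intro a b c d
    rw [q_eq_iff, q_eq_iff]
    constructor
    · rintro ⟨x, h1, h2, h3⟩
      refine ⟨(φ.symm.trans (AddEquiv.toMultiplicative e)).trans ψ x, ?_, ?_, ?_⟩
      · rw [← map_mul, ← key, h1]
      · rw [← map_mul, ← key, h2]
      · rw [← map_mul, ← key, h3]
    · rintro ⟨y, h1, h2, h3⟩
      obtain ⟨x, rfl⟩ := ((φ.symm.trans (AddEquiv.toMultiplicative e)).trans ψ).surjective y
      refine ⟨x, ?_, ?_, ?_⟩
      · rw [key, map_mul, h1]
      · rw [key, map_mul, h2]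
      · rw [key, map_mul, h3]

end Pool.Agent.ETG
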