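import Pool.Agent.ETG.Stmts

/-!
ETG QPR: product of two quaternionic structures given by relations.
-/

set_option autoImplicit false

namespace Pool.Agent.ETG

theorem qpr_proof (hQEX : Stmt_QEX) (hQIS : Stmt_QIS) : Stmt_QPR := by
  intro V U U' _ _ _ _ _ _ Z ZU ZU' e hZU hZU' hZ hE hE' S hS
  obtain ⟨S1, hS1⟩ := hQEX U ZU hZU
  obtain ⟨S2, hS2⟩ := hQEX U' ZU' hZU'
  have h1 := hE S1 hS1
  have h2 := hE' S2 hS2
  let ZP : U × U' → U × U' → Prop := fun a b => ZU a.1 b.1 ∧ ZU' a.2 b.2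
  have hP : QOf ZP (QS.prod S1 S2) := by
    obtain ⟨hn1, φ1, hφ1⟩ := hS1
    obtain ⟨hn2, φ2, hφ2⟩ := hS2
    refine ⟨Prod.ext hn1 hn2, (MulEquiv.prodMultiplicative U U').trans (φ1.prodCongr φ2), ?_⟩
    intro a b
    have e1 := hφ1 a.1 b.1
    have e2 := hφ2 a.2 b.2
    constructor
    · intro h
      have h' := Prod.ext_iff.1 h
      exact ⟨e1.1 h'.1, e2.1 h'.2⟩
    · intro h
      exact Prod.ext (e1.2 h.1) (e2.2 h.2)
  have hiso : QS.Iso (QS.prod S1 S2) S := hQIS (U × U') V ZP Z e.symm (by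
    intro a b
    rw [hZ, e.apply_symm_apply, e.apply_symm_apply]) _ _ hP hS
  exact QS.ElemType.iso _ _ hiso (QS.ElemType.prod _ _ h1 h2)

end Pool.Agent.ETG
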