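import Pool.Agent.ETG.Stmts

set_option autoImplicit false

namespace Pool.Agent.ETG

open scoped BigOperators
open Pool.Agent.EWG

namespace QRD_

theorem lzT (V : Type) [AddCommGroup V] [Module (ZMod 2) V] :
    LZ (fun _ _ : V => True) where
  symm := fun _ _ _ => trivial
  zero := fun _ => trivial
  add := fun _ _ _ _ _ => trivial
  alt := fun _ => trivial
  trans := fun _ _ _ _ _ _ _ _ => ⟨0, trivial, trivial, trivial⟩

/-- the group of a totally degenerate structure -/
theorem all_zero {V : Type} [AddCommGroup V] [Module (ZMod 2) V] {Z : V → V → Prop}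
    (hZ : ∀ a b, Z a b) {S : QS.QStruct} (hS : QOf Z S) (a b : S.G) : S.q a b = S.zero := by
  obtain ⟨-, φ, hφ⟩ := hS
  obtain ⟨a, rfl⟩ := φ.surjective a
  obtain ⟨b, rfl⟩ := φ.surjective b
  exact (hφ (Multiplicative.toAdd a) (Multiplicative.toAdd b)).2 (hZ _ _)

theorem card_eq {V : Type} [AddCommGroup V] [Module (ZMod 2) V] {Z : V → V → Prop}
    {S : QS.QStruct} (hS : QOf Z S) : Nat.card S.G = Nat.card V := by
  obtain ⟨-, φ, -⟩ := hS
  rw [← Nat.card_congr φ.toEquiv]
  exact Nat.card_congr Multiplicative.toAdd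

theorem one : ETZ (fun _ _ : ZMod 2 => True) := by
  intro S hS
  refine QS.ElemType.L10 S ?_ hS.1 (all_zero (fun _ _ => trivial) hS)
  rw [card_eq hS, Nat.card_eq_fintype_card, ZMod.card]

theorem main (hQPR : Stmt_QPR) : ∀ (n : ℕ) (V : Type) [AddCommGroup V] [Module (ZMod 2) V]
    (Z : V → V → Prop), (V ≃+ (Fin n → ZMod 2)) → (∀ a b, Z a b) → ETZ Z := by
  intro n
  induction n with
  | zero =>
    intro V _ _ Z e hZ S hS
    refine QS.ElemType.L0 S ?_
    rw [card_eq hS, Nat.card_congr e.toEquiv, Nat.card_eq_fintype_card, Fintype.card_fun,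
      Fintype.card_fin, pow_zero]
  | succ n ih =>
    intro V _ _ Z e hZ
    let e1 : (Fin (n + 1) → ZMod 2) ≃+ ZMod 2 × (Fin n → ZMod 2) :=
      { toFun := fun f => (f 0, fun i => f i.succ)
        invFun := fun p => Fin.cons p.1 p.2
        left_inv := by
          intro f
          funext i
          refine Fin.cases ?_ (fun i => ?_) i
          · rfl
          · rfl
        right_inv := by
          rintro ⟨a, f⟩
          rfl
        map_add' := fun f g => rfl }
    exact hQPR V (ZMod 2) (Fin n → ZMod 2) Z (fun _ _ => True) (fun _ _ => True) (e.trans e1)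
      (lzT _) (lzT _) (fun a b => ⟨fun _ => ⟨trivial, trivial⟩, fun _ => hZ a b⟩) one
      (ih _ _ (AddEquiv.refl _) (fun _ _ => trivial))

end QRD_

theorem qrd_proof (hQPR : Stmt_QPR) : Stmt_QRD := by
  intro V _ _ _ Z hZ
  have hf : Module.Finite (ZMod 2) V := Module.Finite.of_finite
  have e := LinearEquiv.ofFinrankEq V (Fin (Module.finrank (ZMod 2) V) → ZMod 2)
    (R := ZMod 2) (by rw [Module.finrank_fin_fun])
  exact QRD_.main hQPR _ V Z e.toAddEquiv hZ

end Pool.Agent.ETG
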