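import Pool.Agent.ETG.Stmts

/-! Squad ETG: module RIG (a rigid element splits off as a group extension). -/

set_option autoImplicit false

namespace Pool.Agent.ETG

open scoped BigOperators
open Pool.Agent.EWG

namespace RIG_

variable {V : Type} [AddCommGroup V] [Module (ZMod 2) V] {Z : V → V → Prop}

theorem dd (x : V) : x + x = 0 := ZModModule.add_self x

theorem cast {a b c : V} (h : Z a b) (e : b = c) : Z a c := e ▸ h

theorem castl {a b c : V} (h : Z a b) (e : a = c) : Z c b := e ▸ h

theorem e4 (h : LZ Z) {a b b' : V} (h1 : Z a (b + b')) : EqQ Z a b a b' :=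
  ⟨b', h1, cast (h.zero a) (dd b').symm, castl (h.symm _ _ (h.zero b')) (dd a).symm⟩

theorem e2 {a b c d : V} (h1 : EqQ Z a b c d) : EqQ Z c d a b := by
  obtain ⟨x, h2, h3, h4⟩ := h1
  exact ⟨x, h3, h2, castl h4 (add_comm a c)⟩

theorem e5 (h : LZ Z) (a b : V) : EqQ Z a b b a := by
  refine ⟨a + b, cast (h.alt a) ?_, cast (h.alt b) ?_, h.alt _⟩
  · linear_combination (norm := module) -dd b
  · linear_combination (norm := module) -dd a

theorem addl (h : LZ Z) {a b c : V} (h1 : Z a c) (h2 : Z b c) : Z (a + b) c :=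
  h.symm _ _ (h.add _ _ _ (h.symm _ _ h1) (h.symm _ _ h2))

/-- closure of `D(v)` under addition -/
theorem stepa (h : LZ Z) {t v y z y' z' w w' : V} (h1 : EqQ Z t v y z) (h2 : Z y w)
    (h1' : EqQ Z t v y' z') (h2' : Z y' w') : ∃ u u', EqQ Z t v u u' ∧ Z u (w + w') := by
  obtain ⟨s, a1, a2, -⟩ := h.trans _ _ _ _ _ _ (e2 h1) h1'
  -- `q(y, s + w) = c = q(y', s + w')`
  have b1 : EqQ Z y z y (s + w) := e4 h (cast (h.add _ _ _ a1 h2) (by module))
  have b2 : EqQ Z y' z' y' (s + w') := e4 h (cast (h.add _ _ _ a2 h2') (by module))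
  have c1 := h.trans _ _ _ _ _ _ (h.trans _ _ _ _ _ _ h1 b1) (e5 h y (s + w))
  have c2 := h.trans _ _ _ _ _ _ (h.trans _ _ _ _ _ _ h1' b2) (e5 h y' (s + w'))
  obtain ⟨u, d1, d2, d3⟩ := h.trans _ _ _ _ _ _ (e2 c1) c2
  refine ⟨u, s + w, ?_, ?_⟩
  · exact h.trans _ _ _ _ _ _ (h.trans _ _ _ _ _ _ c1 (e4 h d1)) (e5 h (s + w) u)
  · refine h.symm _ _ (castl d3 ?_)
    linear_combination (norm := module) dd s

/-- the elements of `D(v)` -/
theorem stepb (h : LZ Z) {t : V} (ht : Rig Z t) {v y z w : V} (h1 : EqQ Z t v y z) (h2 : Z y w) :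
    ∃ a g, (a = 0 ∨ a = t) ∧ (g = 0 ∨ g = t) ∧ Z (w + a) (v + g) := by
  obtain ⟨s, a1, a2, a3⟩ := h1
  have hvs := ht.2 _ a1
  have b1 : EqQ Z y z y (s + w) := e4 h (cast (h.add _ _ _ a2 h2) (by module))
  have c1 : EqQ Z t v (s + w) y :=
    h.trans _ _ _ _ _ _ (h.trans _ _ _ _ _ _ ⟨s, a1, a2, a3⟩ b1) (e5 h y (s + w))
  obtain ⟨z', d1, d2, d3⟩ := c1
  have hvz := ht.2 _ d1
  -- `z' = s + a'`
  obtain ⟨a', ha', hz'⟩ : ∃ a', (a' = 0 ∨ a' = t) ∧ z' = s + a' := by
    refine ⟨(v + s) + (v + z'), ?_, ?_⟩
    · rcases hvs with h3 | h3 <;> rcases hvz with h4 | h4 <;> rw [h3, h4]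
      · left; simp
      · right; simp
      · right; simp
      · left; exact dd t
    · linear_combination (norm := module) -dd v - dd s
  -- `Z (s + w + t) (s + a')`
  have e1 : Z (t + (s + w)) (s + a') := hz' ▸ d3
  have e2' : Z (t + (s + w)) (w + t + a') := by
    refine cast (h.add _ _ _ e1 (h.alt _)) ?_
    linear_combination (norm := module) dd s
  have e3 : Z (w + (t + a')) (s + a') := by
    refine castl (c := w + (t + a')) ?_ rfl
    have e4' := h.symm _ _ e2'
    refine cast (h.add _ _ _ (castl e4' (c := w + (t + a')) (by module)) (h.alt _)) ?_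
    linear_combination (norm := module) dd w + dd t
  refine ⟨t + a', v + z', ?_, ?_, cast e3 ?_⟩
  · rcases ha' with h3 | h3
    · right; rw [h3, add_zero]
    · left; rw [h3]; exact dd t
  · exact hvz
  · rw [hz']
    linear_combination (norm := module) -dd v

/-- half of the elements are rigid -/
theorem stepc (h : LZ Z) {t : V} (ht : Rig Z t) {v : V} (hv0 : v ≠ 0) (hvt : v ≠ t) :
    Rig Z v ∨ Rig Z (v + t) := by
  have hnt : ¬ Z t v := by
    intro h1
    rcases ht.2 _ h1 with h2 | h2
    · exact hv0 h2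
    · exact hvt h2
  have hvt0 : v + t ≠ 0 := by
    intro h1
    apply hvt
    linear_combination (norm := module) h1 - dd t
  -- the intersection of `V_v` and `V_{v+t}`
  have hint : ∀ w, Z v w → Z (v + t) w → w = 0 := by
    intro w h1 h2
    have h3 : Z t w := castl (addl h h1 h2) (by linear_combination (norm := module) dd v)
    rcases ht.2 _ h3 with h4 | h4
    · exact h4
    · exfalso
      rw [h4] at h1
      exact hnt (h.symm _ _ h1)
  have hcases : (∀ w, Z (v + t) w → Z v w ∨ Z v (w + t)) ∨
      (∀ w, Z v w → Z (v + t) w ∨ Z (v + t) (w + t)) := by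
    by_contra hcon
    push Not at hcon
    obtain ⟨⟨y, hy, hy1, hy2⟩, x, hx, hx1, hx2⟩ := hcon
    have b1 : EqQ Z t v v t := e5 h t v
    have b2 : EqQ Z t v (v + t) t := by
      refine h.trans _ _ _ _ _ _ (e4 h (b' := v + t) (cast (h.alt t) ?_)) (e5 h t (v + t))
      linear_combination (norm := module) -dd v
    obtain ⟨u, u', c1, c2⟩ := stepa h b1 hx b2 hy
    obtain ⟨a, g, ha, hg, hz⟩ := stepb h ht c1 c2
    have hz' := h.symm _ _ hz
    rcases hg with hg | hg
    · rw [hg, add_zero] at hz'
      have d1 : Z v (y + a) := cast (h.add _ _ _ hx hz')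
        (by linear_combination (norm := module) dd x)
      rcases ha with ha | ha
      · rw [ha, add_zero] at d1; exact hy1 d1
      · rw [ha] at d1; exact hy2 d1
    · rw [hg] at hz'
      have d1 : Z (v + t) (x + a) := cast (h.add _ _ _ hy hz')
        (by linear_combination (norm := module) dd y)
      rcases ha with ha | ha
      · rw [ha, add_zero] at d1; exact hx1 d1
      · rw [ha] at d1; exact hx2 d1
  rcases hcases with hc | hc
  · right
    refine ⟨hvt0, fun w hw => ?_⟩
    rcases hc w hw with h1 | h1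
    · left; exact hint w h1 hw
    · right
      have h2 := hint (w + (v + t)) (cast (h.add _ _ _ h1 (h.alt v)) (by module))
        (h.add _ _ _ hw (h.alt _))
      linear_combination (norm := module) h2 - dd (v + t)
  · left
    refine ⟨hv0, fun w hw => ?_⟩
    rcases hc w hw with h1 | h1
    · left; exact hint w hw h1
    · right
      have h2 := hint (w + v) (h.add _ _ _ hw (h.alt v)) (cast (h.add _ _ _ h1 (h.alt (v + t)))
        (by linear_combination (norm := module) dd t))
      linear_combination (norm := module) h2 - dd v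

end RIG_

open RIG_ in
theorem rig_proof : Stmt_RIG := by
  intro V _ _ Z h _ t ht
  classical
  -- the nonrigid elements
  let NR : Submodule (ZMod 2) V :=
    { carrier := {v | ¬ Rig Z v}
      add_mem' := by
        intro v v' hv hv' hr
        have hv0 : v ≠ 0 := by
          intro h0
          apply hv'
          rwa [h0, zero_add] at hr
        have hvr : v ≠ v + v' := by
          intro h0
          have h1 : v' = 0 := by
            have := h0
            rwa [left_eq_add] at this
          apply hv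
          rwa [h1, add_zero] at hr
        rcases stepc h hr hv0 hvr with h1 | h1
        · exact hv h1
        · apply hv'
          have h2 : v + (v + v') = v' := by linear_combination (norm := module) dd v
          rwa [h2] at h1
      zero_mem' := fun h0 => h0.1 rfl
      smul_mem' := by
        intro c v hv
        fin_cases c
        · intro h0
          apply h0.1
          exact zero_smul (ZMod 2) v
        · intro h0
          apply hv
          have h1 : (1 : ZMod 2) • v = v := one_smul _ v
          exact h1 ▸ h0 }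
  have htN : t ∉ NR := fun h0 => h0 ht
  obtain ⟨τ, hτt, hτ⟩ := Submodule.exists_le_ker_of_notMem htN
  have hτ1 : τ t = 1 := by
    have h1 : ∀ c : ZMod 2, c ≠ 0 → c = 1 := by decide
    exact h1 _ hτt
  have hrig : ∀ v, τ v = 1 → Rig Z v := by
    intro v hv
    by_contra h0
    have h1 : τ v = 0 := hτ h0
    rw [h1] at hv
    exact zero_ne_one hv
  refine ⟨τ, hτ1, fun v w hv hw hq => ?_⟩
  obtain ⟨a, s, h1, h2, h3⟩ := hq
  by_contra hcon
  have hs0 : s ≠ 0 := by
    intro h0
    rw [h0, add_zero] at h1
    exact hcon h1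
  have h4 := (hrig (v + t) (by rw [map_add, hv, hτ1, zero_add])).2 s h3
  have h5 : s = v + t := h4.resolve_left hs0
  rw [h5] at h1
  have h6 : Z v (w + t) := cast (h.add _ _ _ h1 (h.alt v))
    (by linear_combination (norm := module) dd v)
  have h7 := (hrig (w + t) (by rw [map_add, hw, hτ1, zero_add])).2 v (h.symm _ _ h6)
  rcases h7 with h8 | h8
  · apply hcon
    rw [h8]
    exact h.symm _ _ (h.zero w)
  · rw [h8, map_add, hw, hτ1, zero_add] at hv
    exact one_ne_zero hv

end Pool.Agent.ETG
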