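import Pool.Agent.EWG.Defs
import Pool.Agent.Lib_MP_d26ff6_al.Main

/-!
THE ELEMENTARY TYPE CONJECTURE FOR FIELDS IN WHICH `-1` IS A SQUARE, GENERAL CASE (no hypothesis
on `Iⁿ`), problem MP_d26ff6_al: top level interface.

Everything is stated with the relation `Z v w` (`the quaternion algebra (v, w) is split`) on the
`F_2`-space `V` of square classes.  Parts: TOWER (`Stmt_TOW`), DESCENT (`Stmt_DSF`), REALISATION
and INDUCTION (directory ETG), final theorem `Stmt_GEN`.
-/

set_option autoImplicit false

namespace Pool.Agent.ETG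

open scoped BigOperators
open Pool.Agent.EWG

/-! ### Abstract part -/

section
variable {V W : Type} [AddCommGroup V] [Module (ZMod 2) V] [AddCommGroup W] [Module (ZMod 2) W]

/-- the relation `q(a, b) = q(c, d)` expressed by the relation `Z a b` (`q(a, b) = 0`) -/
def EqQ (Z : V → V → Prop) (a b c d : V) : Prop := ∃ x, Z a (b + x) ∧ Z c (d + x) ∧ Z (a + c) x

/-- a linked symbol structure with `-1 = 1`, by its relation `Z` -/
structure LZ (Z : V → V → Prop) : Prop where
  symm : ∀ a b, Z a b → Z b a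
  zero : ∀ a, Z a 0
  add : ∀ a b c, Z a b → Z a c → Z a (b + c)
  alt : ∀ a, Z a a
  /-- `q(a, b) = q(c, d)` is transitive -/
  trans : ∀ a b c d a' b', EqQ Z a b c d → EqQ Z c d a' b' → EqQ Z a b a' b'

/-- Decomposition (modulo the radical) into nondegenerate components, by projections. -/
structure ZDec (Z : V → V → Prop) (k : ℕ) where
  p : Fin k → (V →ₗ[ZMod 2] V)
  idem : ∀ j v, p j (p j v) = p j v
  orth : ∀ i j, i ≠ j → ∀ v, p i (p j v) = 0
  /-- different components commute -/
  perp : ∀ j v w, Z (p j v) (w + p j w)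
  /-- the rest is in the radical -/
  rad : ∀ v w, Z (v + ∑ j, p j v) w
  /-- independence -/
  ind : ∀ v w, Z v w → ∀ j, Z (p j v) (p j w)
  /-- nondegenerate components -/
  nd : ∀ j v, (∀ w, Z (p j v) (p j w)) → p j v = 0
  ne : ∀ j, ∃ v, p j v ≠ 0

/-- component of local type: all `q(p v, -)` have at most two values -/
def ZLoc (Z : V → V → Prop) (p : V →ₗ[ZMod 2] V) : Prop :=
  ∀ v w w', Z (p v) w ∨ Z (p v) w' ∨ Z (p v) (w + w')

/-- component with a rigid element `t` (a group extension `D[t]`) -/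
def ZFan (Z : V → V → Prop) (p : V →ₗ[ZMod 2] V) : Prop :=
  ∃ t, p t = t ∧ t ≠ 0 ∧ ∀ v, Z t (p v) → p v = 0 ∨ p v = t

/-- every component is local or has a rigid element -/
def ZDec.OS {Z : V → V → Prop} {k : ℕ} (C : ZDec Z k) : Prop :=
  ∀ j, ZLoc Z (C.p j) ∨ ZFan Z (C.p j)

/-- the component `j` of `V` is one of the two copies of a free orbit: it is isomorphic to the
component `j'` of `V'` by `v ↦ p' j' (res v)` -/
def ZFree {V' : Type} [AddCommGroup V'] [Module (ZMod 2) V'] (Z : V → V → Prop)
    (Z' : V' → V' → Prop) (res : V →ₗ[ZMod 2] V') (p : V →ₗ[ZMod 2] V)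
    (p' : V' →ₗ[ZMod 2] V') : Prop :=
  (∀ v, p' (res v) = p' (res (p v))) ∧ (∀ w, ∃ v, p v = v ∧ p' (res v) = p' w) ∧
    (∀ v, p v = v → p' (res v) = 0 → v = 0) ∧
    ∀ v w, p v = v → p w = w → (Z' (p' (res v)) (p' (res w)) ↔ Z v w)

/-- `π : V → W` is the projection onto a direct factor `(W, Z_W)` of `(V, Z)` -/
def Fac (Z : V → V → Prop) (ZW : W → W → Prop) (π : V →ₗ[ZMod 2] W) : Prop :=
  ∃ s : W →ₗ[ZMod 2] V, (∀ w, π (s w) = w) ∧ (∀ w u, π u = 0 → Z (s w) u) ∧
    (∀ v v', Z v v' → ZW (π v) (π v')) ∧ ∀ w w', ZW w w' → Z (s w) (s w')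

/-- nondegenerate -/
def ND (ZW : W → W → Prop) : Prop := ∀ w, (∀ w', ZW w w') → w = 0

/-- indecomposable -/
def Indec (ZW : W → W → Prop) : Prop := ∀ f : W →ₗ[ZMod 2] W, (∀ w, f (f w) = f w) →
  (∀ v w, ZW (f v) (w + f w)) → (∀ v w, ZW v w → ZW (f v) (f w)) →
  (∀ w, f w = 0) ∨ ∀ w, f w = w

end

/-! ### Fields -/

/-- the relation `(v, w) = 0` on the square classes of `K` -/
def Zf (K : Type) [Field K] (v w : VV K) : Prop :=
  ∀ a b : Kˣ, vm a = v → vm b = w → pf a b = 0

/-- the map on square classes of a homomorphism of fields -/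
def vmap {F K : Type} [Field F] [Field K] (f : F →+* K) : VV F →ₗ[ZMod 2] VV K where
  toFun := fun v => Quotient.liftOn' (Additive.toMul v : Fˣ ⧸ (powMonoidHom 2 : Fˣ →* Fˣ).range)
    (fun a => (vm (Units.map f.toMonoidHom a) : VV K)) (by
      intro a b h
      rw [QuotientGroup.leftRel_apply] at h
      obtain ⟨c, hc⟩ := h
      rw [vm_eq_iff]
      have hc' : c ^ 2 = a⁻¹ * b := hc
      refine ⟨Units.map f.toMonoidHom (a * c), ?_⟩
      have h2 : b = a * (c * c) := by rw [← pow_two, hc']; group
      have h3 : a * b = a * c * (a * c) := by rw [h2, mul_mul_mul_comm, mul_assoc]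
      rw [← map_mul, ← map_mul, h3])
  map_add' := by
    intro v w
    obtain ⟨a, rfl⟩ := vm_surj v
    obtain ⟨b, rfl⟩ := vm_surj w
    rw [← vm_mul]
    show (vm (Units.map f.toMonoidHom (a * b)) : VV K) = vm (Units.map f.toMonoidHom a) +
      vm (Units.map f.toMonoidHom b)
    rw [← vm_mul, map_mul]
  map_smul' := by
    intro r v
    fin_cases r
    · show _ = (0 : ZMod 2) • _
      rw [zero_smul]
      show (Quotient.liftOn' (Additive.toMul ((0 : ZMod 2) • v)) _ _ : VV K) = 0
      rw [zero_smul]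
      show (vm (Units.map f.toMonoidHom (1 : Fˣ)) : VV K) = 0
      rw [map_one, vm_one]
    · show _ = (1 : ZMod 2) • _
      rw [one_smul]
      show (Quotient.liftOn' (Additive.toMul ((1 : ZMod 2) • v)) _ _ : VV K) = _
      rw [one_smul]

@[simp] theorem vmap_vm {F K : Type} [Field F] [Field K] (f : F →+* K) (a : Fˣ) :
    vmap f (vm a) = vm (Units.map f.toMonoidHom a) := rfl

theorem vmap_id (K : Type) [Field K] (v : VV K) : vmap (RingHom.id K) v = v := by
  obtain ⟨a, rfl⟩ := vm_surj v
  rfl

theorem vmap_comp {F K L : Type} [Field F] [Field K] [Field L] (f : F →+* K) (g : K →+* L)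
    (v : VV F) : vmap g (vmap f v) = vmap (g.comp f) v := by
  obtain ⟨a, rfl⟩ := vm_surj v
  rfl

/-- scalar extension on square classes -/
def rv (F K : Type) [Field F] [Field K] [Algebra F K] : VV F →ₗ[ZMod 2] VV K :=
  vmap (algebraMap F K)

@[simp] theorem rv_vm (F K : Type) [Field F] [Field K] [Algebra F K] (a : Fˣ) :
    rv F K (vm a) = vm (iu F a) := rfl

/-- DESCENT ALONG `K = F(√x)` (no induction, no recursion): a decomposition of the structure of
`K` into local components and components with a rigid element gives one for `F`; every component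
of `F` either meets `x` or is isomorphic to a component of `K`. -/
def Stmt_DSF : Prop := ∀ (F K : Type) [Field F] [Field K] [Algebra F K], Good F →
  Finite (VV F) → ∀ (E : QD F K) (k' : ℕ) (C' : ZDec (Zf K) k'), C'.OS →
  ∃ (k : ℕ) (C : ZDec (Zf F) k), C.OS ∧ ∀ j, C.p j (vm E.x) ≠ 0 ∨
    ∃ j', ZFree (Zf F) (Zf K) (rv F K) (C.p j) (C'.p j')

/-- TOWER: every field of the class is connected by finitely many quadratic extensions with a
field whose structure decomposes into local components and components with a rigid element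
(stated as a principle of induction for a property `P` which descends). -/
def Stmt_TOW : Prop := ∀ P : (K : Type) → [Field K] → Prop,
  (∀ (F K : Type) [Field F] [Field K] [Algebra F K], Good F → Finite (VV F) → QD F K →
    P K → P F) →
  (∀ (K : Type) [Field K], Good K → Finite (VV K) →
    (∃ (k : ℕ) (C : ZDec (Zf K) k), C.OS) → P K) →
  ∀ (F : Type) [Field F], Good F → Finite (VV F) → P F

/-- `S` is the quaternionic structure of the field `F` (in the form of the Witt ring) -/
def IsS (F : Type) [Field F] (S : QS.QStruct) : Prop :=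
  ∃ φ : Fˣ →* S.G, Function.Surjective φ ∧ (∀ a, φ a = 1 ↔ IsSquare a) ∧ S.neg = φ (-1) ∧
    ∀ a b c d, S.q (φ a) (φ b) = S.q (φ c) (φ d) ↔ pf a b = pf c d

/-- THE GENERAL THEOREM: every field in which `-1` is a square and which has finitely many square
classes has a quaternionic structure of elementary type. -/
def Stmt_GEN : Prop := ∀ (F : Type) [Field F], Good F → Finite (VV F) →
  ∀ S, IsS F S → QS.ElemType S

end Pool.Agent.ETG
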