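import Pool.Agent.ETG.Stmts
import Pool.Agent.EWH.Stmts

/-!
THE ELEMENTARY TYPE CONJECTURE FOR ALL FIELDS (problem MP_d26ff6_al): interface of the last step
V3 = descent from `K = F(√-1)` to a field `F` in which `-1` is not a square.
-/

set_option autoImplicit false

namespace Pool.Agent.ETG

open Pool.Agent.EWG (VV vm iu QD vm_surj vm_mul vm_eq_zero vm_eq_iff)

section
variable {V : Type} [AddCommGroup V] [Module (ZMod 2) V]

/-- a linked symbol structure with distinguished element `e = -1`, by its relation `Z` -/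
structure LZe (Z : V → V → Prop) (e : V) : Prop where
  symm : ∀ a b, Z a b → Z b a
  zero : ∀ a, Z a 0
  add : ∀ a b c, Z a b → Z a c → Z a (b + c)
  alt : ∀ a, Z a (a + e)
  /-- `q(a, b) = q(c, d)` is transitive -/
  trans : ∀ a b c d a' b', EqQ Z a b c d → EqQ Z c d a' b' → EqQ Z a b a' b'

/-- `S` is the quaternionic structure with `-1 = e` given by `(V, Z)` -/
def QOfE (Z : V → V → Prop) (e : V) (S : QS.QStruct) : Prop :=
  ∃ φ : Multiplicative V ≃* S.G, S.neg = φ (Multiplicative.ofAdd e) ∧ ∀ a b : V,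
    S.q (φ (Multiplicative.ofAdd a)) (φ (Multiplicative.ofAdd b)) = S.zero ↔ Z a b

/-- `(V, Z, e)` is of elementary type -/
def ETE (Z : V → V → Prop) (e : V) : Prop := ∀ S, QOfE Z e S → QS.ElemType S

end

/-- hereditary form of elementary type for `-1 = 1`: `(V, Z)` is linked and decomposes into local
components and components with a rigid element `t` whose residue structure (on the quotient by
`{0, t}`) is again of this form (at most `n` times) -/
def HETn : ℕ → ∀ (V : Type) [AddCommGroup V] [Module (ZMod 2) V], (V → V → Prop) → Prop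
  | 0, _, _, _, _ => False
  | n + 1, V, _, _, Z => LZ Z ∧ ∃ (k : ℕ) (C : ZDec Z k), ∀ j, ZLoc Z (C.p j) ∨
      ∃ t : LinearMap.range (C.p j), Rig (ZR Z (LinearMap.range (C.p j))) t ∧
      ∃ (U : Type) (_ : AddCommGroup U) (_ : Module (ZMod 2) U) (ZU : U → U → Prop)
        (ρ : LinearMap.range (C.p j) →ₗ[ZMod 2] U), Function.Surjective ρ ∧
        (∀ v, ρ v = 0 ↔ v = 0 ∨ v = t) ∧
        (∀ v w, ZU (ρ v) (ρ w) ↔ InQ (ZR Z (LinearMap.range (C.p j))) t v w) ∧ HETn n U ZU

/-- hereditary form of elementary type for `-1 = 1` -/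
def HET {V : Type} [AddCommGroup V] [Module (ZMod 2) V] (Z : V → V → Prop) : Prop :=
  ∃ n, HETn n V Z

/-- fields in which `-1` is a square, hereditary form -/
def Stmt_HTF : Prop := ∀ (F : Type) [Field F], EWG.Good F → Finite (VV F) → HET (Zf F)

/-- the relation `(v, w) = 0` (the quaternion algebra is split) on the square classes of `K` -/
def Zh (K : Type) [Field K] (v w : VV K) : Prop :=
  ∀ a b : Kˣ, vm a = v → vm b = w → EWH.pf a b = 0

/-- V3: the last step.  Allowed hypotheses of a proof: `Stmt_DSF`, `Stmt_TOW`, `Stmt_ETF`,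
`Stmt_HTF` (fields in which `-1` is a square) and everything about Witt rings in EWH. -/
def Stmt_V3 : Prop := ∀ (F : Type) [Field F], EWH.Two F → ¬ IsSquare (-1 : F) →
  Finite (VV F) → ETE (Zh F) (vm (-1 : Fˣ))

/-- `S` is the quaternionic structure of the field `F` (in the form of the Witt ring) -/
def IsSh (F : Type) [Field F] (S : QS.QStruct) : Prop :=
  ∃ φ : Fˣ →* S.G, Function.Surjective φ ∧ (∀ a, φ a = 1 ↔ IsSquare a) ∧ S.neg = φ (-1) ∧
    ∀ a b c d, S.q (φ a) (φ b) = S.q (φ c) (φ d) ↔ EWH.pf a b = EWH.pf c d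

/-- THE ELEMENTARY TYPE CONJECTURE FOR FIELDS -/
def Stmt_ALL : Prop := ∀ (F : Type) [Field F], EWH.Two F → Finite (VV F) →
  ∀ S, IsSh F S → QS.ElemType S

/-- the structure of a field in the sense of the Witt ring is the one of `Zh` -/
def Stmt_QFH : Prop := ∀ (F : Type) [Field F], EWH.Two F → ∀ S, IsSh F S →
  QOfE (Zh F) (vm (-1 : Fˣ)) S

/-- `Zh` is linked -/
def Stmt_ZHL : Prop := ∀ (K : Type) [Field K], EWH.Two K → LZe (Zh K) (vm (-1 : Kˣ)) ∧
  (∀ a b : Kˣ, Zh K (vm a) (vm b) ↔ EWH.pf a b = 0) ∧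
  (∀ a b c d : Kˣ, EqQ (Zh K) (vm a) (vm b) (vm c) (vm d) ↔ EWH.pf a b = EWH.pf c d)

/-- the final assembly -/
theorem all_of (hETF : Stmt_ETF) (hV3 : Stmt_V3) (hQFH : Stmt_QFH) (hCMP : EWH.Stmt_CMP) :
    Stmt_ALL := by
  intro F _ h2 hf S hS
  have hQ := hQFH F h2 S hS
  by_cases hi : IsSquare (-1 : F)
  · -- `-1` is a square
    have hG : EWG.Good F := by
      refine ⟨h2, ?_⟩
      obtain ⟨i, hi⟩ := hi
      exact ⟨i, by rw [pow_two, ← hi]⟩
    have he : (vm (-1 : Fˣ) : VV F) = 0 := by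
      rw [vm_eq_zero]
      obtain ⟨i, hi⟩ := hi
      have hi0 : i ≠ 0 := by rintro rfl; simp at hi
      refine ⟨Units.mk0 i hi0, ?_⟩
      ext
      simpa using hi
    have hZ : ∀ v w, Zh F v w ↔ Zf F v w := by
      intro v w
      unfold Zh Zf
      constructor
      · intro h a b ha hb
        exact (hCMP F hG a b a b).2.2 (h a b ha hb)
      · intro h a b ha hb
        exact (hCMP F hG a b a b).2.1 (h a b ha hb)
    refine hETF F hG hf S ?_
    obtain ⟨φ, h1, h3⟩ := hQ
    refine ⟨?_, φ, ?_⟩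
    · rw [h1, he]
      exact map_one φ
    · intro a b
      rw [h3 a b, hZ]
  · exact hV3 F h2 hi hf S hQ

end Pool.Agent.ETG
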