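import Pool.Agent.ETG.Stmts

/-!
ETG: the induction and the final assembly.
-/

set_option autoImplicit false

namespace Pool.Agent.ETG

open Pool.Agent.EWG

namespace FIN_

section
variable {V W : Type} [AddCommGroup V] [Module (ZMod 2) V] [AddCommGroup W] [Module (ZMod 2) W]

theorem eqq_iff {Z : V → V → Prop} {ZW : W → W → Prop} (θ : V ≃ₗ[ZMod 2] W)
    (h : ∀ a b, ZW (θ a) (θ b) ↔ Z a b) (a b c d : V) :
    EqQ ZW (θ a) (θ b) (θ c) (θ d) ↔ EqQ Z a b c d := by
  constructor
  · rintro ⟨x, h1, h2, h3⟩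
    obtain ⟨y, rfl⟩ := θ.surjective x
    refine ⟨y, ?_, ?_, ?_⟩
    · rwa [← map_add, h] at h1
    · rwa [← map_add, h] at h2
    · rwa [← map_add, h] at h3
  · rintro ⟨y, h1, h2, h3⟩
    refine ⟨θ y, ?_, ?_, ?_⟩
    · rwa [← map_add, h]
    · rwa [← map_add, h]
    · rwa [← map_add, h]

theorem inq_iff {Z : V → V → Prop} {ZW : W → W → Prop} (θ : V ≃ₗ[ZMod 2] W)
    (h : ∀ a b, ZW (θ a) (θ b) ↔ Z a b) (t a b : V) :
    InQ ZW (θ t) (θ a) (θ b) ↔ InQ Z t a b := by
  constructor
  · rintro ⟨x, h1⟩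
    obtain ⟨y, rfl⟩ := θ.surjective x
    exact ⟨y, (eqq_iff θ h _ _ _ _).1 h1⟩
  · rintro ⟨y, h1⟩
    exact ⟨θ y, (eqq_iff θ h _ _ _ _).2 h1⟩

end

/-- square classes of isomorphic fields -/
noncomputable def veq {F K : Type} [Field F] [Field K] (e : F ≃+* K) : VV F ≃ₗ[ZMod 2] VV K where
  toFun := vmap (e : F →+* K)
  invFun := vmap (e.symm : K →+* F)
  map_add' := map_add _
  map_smul' := map_smul _
  left_inv := by
    intro v
    rw [vmap_comp]
    obtain ⟨a, rfl⟩ := vm_surj v
    rw [vmap_vm]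
    congr 1
    ext
    simp
  right_inv := by
    intro v
    rw [vmap_comp]
    obtain ⟨a, rfl⟩ := vm_surj v
    rw [vmap_vm]
    congr 1
    ext
    simp

theorem veq_apply {F K : Type} [Field F] [Field K] (e : F ≃+* K) (v : VV F) :
    veq e v = vmap (e : F →+* K) v := rfl

theorem veq_symm_apply {F K : Type} [Field F] [Field K] (e : F ≃+* K) (v : VV K) :
    (veq e).symm v = vmap (e.symm : K →+* F) v := rfl

/-- the field `F` inside its algebraic closure, marked with a factor -/
theorem mark_of (hZ : Stmt_ZMP) (F W : Type) [Field F] [AddCommGroup W] [Module (ZMod 2) W]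
    (hF : Good F) (hf : Finite (VV F)) (ZW : W → W → Prop) (π : VV F →ₗ[ZMod 2] W)
    (hπ : Fac (Zf F) ZW π) (Ω : Type) [Field Ω] [Algebra F Ω] :
    ∃ (K : Subfield Ω) (π' : VV K →ₗ[ZMod 2] W), Mark K ZW π' := by
  let K : Subfield Ω := (algebraMap F Ω).fieldRange
  have hb : Function.Bijective (algebraMap F Ω).rangeRestrictField :=
    ⟨fun a b h => (algebraMap F Ω).injective (by simpa using congrArg Subtype.val h),
      (algebraMap F Ω).rangeRestrictField_bijective.2⟩
  let e : F ≃+* K := RingEquiv.ofBijective (algebraMap F Ω).rangeRestrictField hb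
  have hK : Good K := hF.map (e : F →+* K)
  have hz : ∀ a b, Zf K (veq e a) (veq e b) ↔ Zf F a b := by
    intro a b
    constructor
    · intro h
      have h1 := hZ K F (e.symm : K →+* F) hK _ _ h
      rw [← veq_symm_apply, ← veq_symm_apply, LinearEquiv.symm_apply_apply,
        LinearEquiv.symm_apply_apply] at h1
      exact h1
    · intro h
      exact hZ F K (e : F →+* K) hF _ _ h
  refine ⟨K, π ∘ₗ (veq e).symm.toLinearMap, hK, ?_, ?_⟩
  · exact Finite.of_equiv _ (veq e).toEquiv
  · obtain ⟨s, h1, h2, h3, h4⟩ := hπ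
    refine ⟨(veq e).toLinearMap ∘ₗ s, ?_, ?_, ?_, ?_⟩
    · intro w
      simp [h1]
    · intro w u hu
      obtain ⟨v, rfl⟩ := (veq e).surjective u
      have hu' : π v = 0 := by simpa using hu
      show Zf K (veq e (s w)) (veq e v)
      rw [hz]
      exact h2 w v hu'
    · intro v v' h
      obtain ⟨a, rfl⟩ := (veq e).surjective v
      obtain ⟨b, rfl⟩ := (veq e).surjective v'
      rw [hz] at h
      simpa using h3 a b h
    · intro w w' h
      show Zf K (veq e (s w)) (veq e (s w'))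
      rw [hz]
      exact h4 w w' h

/-- the target of a marked field as the square classes of a field -/
theorem equiv_of {Ω W : Type} [Field Ω] [AddCommGroup W] [Module (ZMod 2) W]
    (ZW : W → W → Prop) (K E : Subfield Ω) (hE : K ≤ E) (π : VV K →ₗ[ZMod 2] W)
    (hπ : Fac (Zf K) ZW π) (h1 : ∀ w : VV E, ∃ v, vmap (Subfield.inclusion hE) v = w)
    (h2 : ∀ v, vmap (Subfield.inclusion hE) v = 0 ↔ π v = 0)
    (h3 : ∀ v v', Zf E (vmap (Subfield.inclusion hE) v) (vmap (Subfield.inclusion hE) v') ↔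
      ZW (π v) (π v')) :
    ∃ θ : W ≃ₗ[ZMod 2] VV E, ∀ a b, Zf E (θ a) (θ b) ↔ ZW a b := by
  obtain ⟨s, s1, -⟩ := hπ
  let g : W →ₗ[ZMod 2] VV E := vmap (Subfield.inclusion hE) ∘ₗ s
  have hg : ∀ v, g (π v) = vmap (Subfield.inclusion hE) v := by
    intro v
    have h : vmap (Subfield.inclusion hE) (s (π v) - v) = 0 := by
      rw [h2, map_sub, s1, sub_self]
    rw [map_sub, sub_eq_zero] at h
    exact h
  have hb : Function.Bijective g := by
    constructor
    · rw [← LinearMap.ker_eq_bot, LinearMap.ker_eq_bot']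
      intro w hw
      have : π (s w) = 0 := (h2 (s w)).1 hw
      rwa [s1] at this
    · intro u
      obtain ⟨v, rfl⟩ := h1 u
      exact ⟨π v, hg v⟩
  refine ⟨LinearEquiv.ofBijective g hb, ?_⟩
  intro a b
  show Zf E (vmap (Subfield.inclusion hE) (s a)) (vmap (Subfield.inclusion hE) (s b)) ↔ _
  rw [h3, s1, s1]

theorem os_of (hDSF : Stmt_DSF) (hTOW : Stmt_TOW) (F : Type) [Field F] (hF : Good F)
    (hf : Finite (VV F)) : ∃ (k : ℕ) (C : ZDec (Zf F) k), C.OS := by
  refine hTOW (fun K _ => ∃ (k : ℕ) (C : ZDec (Zf K) k), C.OS) ?_ ?_ F hF hf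
  · intro F K _ _ _ hF hf E hK
    obtain ⟨k', C', hC'⟩ := hK
    obtain ⟨k, C, hC, -⟩ := hDSF F K hF hf E k' C' hC'
    exact ⟨k, C, hC⟩
  · intro K _ _ _ h
    exact h

/-- the induction -/
theorem induct (hDSF : Stmt_DSF) (hTOW : Stmt_TOW) (hLZR : Stmt_LZR) (hQDC : Stmt_QDC)
    (hQLO : Stmt_QLO) (hQXT : Stmt_QXT) (hZFL : Stmt_ZFL) (hZMP : Stmt_ZMP) (hREA : Stmt_REA)
    (hRGE : Stmt_RGE) : ∀ (n : ℕ) (F : Type) [Field F], Good F → Finite (VV F) →
    Nat.card (VV F) ≤ n → ETZ (Zf F) := by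
  intro n
  induction n with
  | zero =>
    intro F _ hF hf h
    have : 0 < Nat.card (VV F) := Nat.card_pos
    omega
  | succ n ih =>
    intro F _ hF hf hn
    have hLF : LZ (Zf F) := (hZFL F hF).1
    obtain ⟨k, C, hC⟩ := os_of hDSF hTOW F hF hf
    refine hQDC (VV F) (Zf F) hLF k C hC ?_
    intro j
    obtain ⟨a1, a2, a3, a4, a5⟩ := hLZR (VV F) (Zf F) hLF k C hC j
    have hp : ∀ w : LinearMap.range (C.p j), C.p j (w : VV F) = w := by
      rintro ⟨_, v, rfl⟩
      exact C.idem j v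
    have hfW : Finite (LinearMap.range (C.p j)) := inferInstance
    rcases hC j with hl | hl
    · -- local component
      refine hQLO _ _ a1 a2 ?_
      intro v w w'
      have h := hl (v : VV F) (w : VV F) (w' : VV F)
      rw [hp v] at h
      exact h
    · -- a rigid element
      obtain ⟨t, t1, t2, t3⟩ := hl
      let tW : LinearMap.range (C.p j) := ⟨t, t, t1⟩
      have hR : Rig (ZR (Zf F) (LinearMap.range (C.p j))) tW := by
        refine ⟨fun h => t2 (congrArg Subtype.val h), ?_⟩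
        intro v hv
        have hv' : Zf F t (C.p j (v : VV F)) := by rw [hp v]; exact hv
        rcases t3 _ hv' with h | h
        · left; rw [hp v] at h; exact Subtype.ext h
        · right; rw [hp v] at h; exact Subtype.ext h
      obtain ⟨K, π, hM⟩ := mark_of hZMP F _ hF hf _ _ a5 (AlgebraicClosure F)
      obtain ⟨E, hE, e1, e2, e3, e4⟩ :=
        hREA (AlgebraicClosure F) _ _ a1 a2 a3 a4 K π hM
      obtain ⟨θ, hθ⟩ := equiv_of _ K E hE π hM.2.2 e2 e3 e4
      have hfE : Finite (VV E) := Finite.of_equiv _ θ.toEquiv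
      have hRE : Rig (Zf E) (θ tW) := by
        refine ⟨fun h => hR.1 (by simpa using h), ?_⟩
        intro v hv
        obtain ⟨w, rfl⟩ := θ.surjective v
        rw [hθ] at hv
        rcases hR.2 w hv with h | h
        · left; rw [h, map_zero]
        · right; rw [h]
      obtain ⟨E', hE', g1, g2, g3, g4⟩ := hRGE (AlgebraicClosure F) E e1 hfE (θ tW) hRE
      let ρ : LinearMap.range (C.p j) →ₗ[ZMod 2] VV E' :=
        vmap (Subfield.inclusion hE') ∘ₗ θ.toLinearMap
      have hρs : Function.Surjective ρ := by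
        intro u
        obtain ⟨v, rfl⟩ := g2 u
        obtain ⟨w, rfl⟩ := θ.surjective v
        exact ⟨w, rfl⟩
      have hρk : ∀ v, ρ v = 0 ↔ v = 0 ∨ v = tW := by
        intro v
        show vmap (Subfield.inclusion hE') (θ v) = 0 ↔ _
        rw [g3]
        constructor
        · rintro (h | h)
          · left; simpa using h
          · right; exact θ.injective h
        · rintro (h | h)
          · left; rw [h, map_zero]
          · right; rw [h]
      have hfE' : Finite (VV E') := Finite.of_surjective ρ hρs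
      have hcard : Nat.card (VV E') < Nat.card (VV F) := by
        have c1 : Nat.card (LinearMap.range (C.p j)) ≤ Nat.card (VV F) :=
          Nat.card_le_card_of_injective _ Subtype.val_injective
        have c2 : Nat.card (VV E') < Nat.card (LinearMap.range (C.p j)) := by
          refine lt_of_le_of_ne (Nat.card_le_card_of_surjective ρ hρs) ?_
          intro h
          have hb : Function.Bijective ρ :=
            (Nat.bijective_iff_surjective_and_card ρ).2 ⟨hρs, h.symm⟩
          have : tW = 0 := hb.1 (by rw [map_zero, hρk]; right; rfl)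
          exact hR.1 this
        omega
      refine hQXT _ (VV E') _ (Zf E') tW ρ a1 a2 hR (hZFL E' g1).1 hρs hρk ?_
        (ih E' g1 hfE' (by omega))
      intro v w
      show Zf E' (vmap (Subfield.inclusion hE') (θ v)) (vmap (Subfield.inclusion hE') (θ w)) ↔ _
      rw [g4]
      exact inq_iff θ hθ tW v w

end FIN_

/-- THE INDUCTION -/
theorem etf_of (hDSF : Stmt_DSF) (hTOW : Stmt_TOW) (hLZR : Stmt_LZR) (hQDC : Stmt_QDC)
    (hQLO : Stmt_QLO) (hQXT : Stmt_QXT) (hZFL : Stmt_ZFL) (hZMP : Stmt_ZMP) (hREA : Stmt_REA)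
    (hRGE : Stmt_RGE) : Stmt_ETF := by
  intro F _ hF hf
  exact FIN_.induct hDSF hTOW hLZR hQDC hQLO hQXT hZFL hZMP hREA hRGE _ F hF hf le_rfl

/-- THE GENERAL THEOREM -/
theorem gen_of (hETF : Stmt_ETF) (hQFI : Stmt_QFI) : Stmt_GEN := by
  intro F _ hF hf S hS
  exact hETF F hF hf S (hQFI F hF S hS)

end Pool.Agent.ETG
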