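import Pool.Agent.ETG.IfaceV
import Pool.Agent.ETG.FIN

/-!
ETG: fields in which `-1` is a square have hereditary elementary type.
-/

set_option autoImplicit false

namespace Pool.Agent.ETG

open Pool.Agent.EWG (Good)
open Pool.Agent.EWG (VV vm iu QD vm_surj vm_mul vm_eq_zero vm_eq_iff)

namespace FINH_

theorem induct (hDSF : Stmt_DSF) (hTOW : Stmt_TOW) (hLZR : Stmt_LZR) (hZFL : Stmt_ZFL)
    (hZMP : Stmt_ZMP) (hREA : Stmt_REA) (hRGE : Stmt_RGE) :
    ∀ (n : ℕ) (F : Type) [Field F], Good F → Finite (VV F) →
    Nat.card (VV F) ≤ n → HETn n (VV F) (Zf F) := by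
  intro n
  induction n with
  | zero =>
    intro F _ hF hf h
    have : 0 < Nat.card (VV F) := Nat.card_pos
    omega
  | succ n ih =>
    intro F _ hF hf hn
    have hLF : LZ (Zf F) := (hZFL F hF).1
    obtain ⟨k, C, hC⟩ := FIN_.os_of hDSF hTOW F hF hf
    refine ⟨hLF, k, C, ?_⟩
    intro j
    obtain ⟨a1, a2, a3, a4, a5⟩ := hLZR (VV F) (Zf F) hLF k C hC j
    have hp : ∀ w : LinearMap.range (C.p j), C.p j (w : VV F) = w := by
      rintro ⟨_, v, rfl⟩
      exact C.idem j v
    have hfW : Finite (LinearMap.range (C.p j)) := inferInstance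
    rcases hC j with hl | hl
    · exact Or.inl hl
    · -- a rigid element
      right
      obtain ⟨t, t1, t2, t3⟩ := hl
      let tW : LinearMap.range (C.p j) := ⟨t, t, t1⟩
      have hR : Rig (ZR (Zf F) (LinearMap.range (C.p j))) tW := by
        refine ⟨fun h => t2 (congrArg Subtype.val h), ?_⟩
        intro v hv
        have hv' : Zf F t (C.p j (v : VV F)) := by rw [hp v]; exact hv
        rcases t3 _ hv' with h | h
        · left; rw [hp v] at h; exact Subtype.ext h
        · right; rw [hp v] at h; exact Subtype.ext h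
      obtain ⟨K, π, hM⟩ := FIN_.mark_of hZMP F _ hF hf _ _ a5 (AlgebraicClosure F)
      obtain ⟨E, hE, e1, e2, e3, e4⟩ :=
        hREA (AlgebraicClosure F) _ _ a1 a2 a3 a4 K π hM
      obtain ⟨θ, hθ⟩ := FIN_.equiv_of _ K E hE π hM.2.2 e2 e3 e4
      have hfE : Finite (VV E) := Finite.of_equiv _ θ.toEquiv
      have hRE : Rig (Zf E) (θ tW) := by
        refine ⟨fun h => hR.1 (by simpa using h), ?_⟩
        intro v hv
        obtain ⟨w, rfl⟩ := θ.surjective v
        rw [hθ] at hv
        rcases hR.2 w hv with h | h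
        · left; rw [h, map_zero]
        · right; rw [h]
      obtain ⟨E', hE', g1, g2, g3, g4⟩ := hRGE (AlgebraicClosure F) E e1 hfE (θ tW) hRE
      let ρ : LinearMap.range (C.p j) →ₗ[ZMod 2] VV E' :=
        vmap (Subfield.inclusion hE') ∘ₗ θ.toLinearMap
      have hρs : Function.Surjective ρ := by
        intro u
        obtain ⟨v, rfl⟩ := g2 u
        obtain ⟨w, rfl⟩ := θ.surjective v
        exact ⟨w, rfl⟩
      have hρk : ∀ v, ρ v = 0 ↔ v = 0 ∨ v = tW := by
        intro v
        show vmap (Subfield.inclusion hE') (θ v) = 0 ↔ _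
        rw [g3]
        constructor
        · rintro (h | h)
          · left; simpa using h
          · right; exact θ.injective h
        · rintro (h | h)
          · left; rw [h, map_zero]
          · right; rw [h]
      have hfE' : Finite (VV E') := Finite.of_surjective ρ hρs
      have hcard : Nat.card (VV E') < Nat.card (VV F) := by
        have c1 : Nat.card (LinearMap.range (C.p j)) ≤ Nat.card (VV F) :=
          Nat.card_le_card_of_injective _ Subtype.val_injective
        have c2 : Nat.card (VV E') < Nat.card (LinearMap.range (C.p j)) := by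
          refine lt_of_le_of_ne (Nat.card_le_card_of_surjective ρ hρs) ?_
          intro h
          have hb : Function.Bijective ρ :=
            (Nat.bijective_iff_surjective_and_card ρ).2 ⟨hρs, h.symm⟩
          have : tW = 0 := hb.1 (by rw [map_zero, hρk]; right; rfl)
          exact hR.1 this
        omega
      refine ⟨tW, hR, VV E', inferInstance, inferInstance, Zf E', ρ, hρs, hρk, ?_,
        ih E' g1 hfE' (by omega)⟩
      intro v w
      show Zf E' (vmap (Subfield.inclusion hE') (θ v)) (vmap (Subfield.inclusion hE') (θ w)) ↔ _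
      rw [g4]
      exact FIN_.inq_iff θ hθ tW v w

end FINH_

/-- hereditary elementary type of the fields in which `-1` is a square -/
theorem htf_of (hDSF : Stmt_DSF) (hTOW : Stmt_TOW) (hLZR : Stmt_LZR) (hZFL : Stmt_ZFL)
    (hZMP : Stmt_ZMP) (hREA : Stmt_REA) (hRGE : Stmt_RGE) : Stmt_HTF := by
  intro F _ hF hf
  exact ⟨_, FINH_.induct hDSF hTOW hLZR hZFL hZMP hREA hRGE _ F hF hf le_rfl⟩

end Pool.Agent.ETG
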