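import Pool.Agent.ETG.Stmts

set_option autoImplicit false

namespace Pool.Agent.ETG

namespace IDC_

variable {V : Type} [AddCommGroup V] [Module (ZMod 2) V]

theorem aa (v : V) : v + v = 0 := ZModModule.add_self v

theorem eq_of_add (v w : V) (h : v + w = 0) : w = v := by
  have h1 : v + (v + w) = v + 0 := by rw [h]
  rw [← add_assoc, aa, zero_add, add_zero] at h1
  exact h1

theorem canc (v w : V) : v + w + w = v := by rw [add_assoc, aa, add_zero]

theorem addL {Z : V → V → Prop} (hZ : LZ Z) {a b c : V} (h1 : Z a c) (h2 : Z b c) :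
    Z (a + b) c := hZ.symm _ _ (hZ.add _ _ _ (hZ.symm _ _ h1) (hZ.symm _ _ h2))

theorem loc {Z : V → V → Prop} (hZ : LZ Z) (p f : V →ₗ[ZMod 2] V) (hpp : ∀ v, p (p v) = p v)
    (nd : ∀ v, (∀ w, Z (p v) (p w)) → p v = 0) (hl : ZLoc Z p)
    (hfp : ∀ v, f (p v) = f v) (hpf : ∀ v, p (f v) = f v) (hff : ∀ v, f (f v) = f v)
    (hperp : ∀ v w, Z (f v) (w + f w)) (hind : ∀ v w, Z v w → Z (f v) (f w)) :
    (∀ v, f v = 0) ∨ ∀ v, f v = p v := by
  by_contra hcon
  rw [not_or] at hcon
  obtain ⟨h1, h2⟩ := hcon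
  push Not at h1 h2
  obtain ⟨a0, ha0⟩ := h1
  obtain ⟨b0, hb0⟩ := h2
  have hfb : ∀ v, f (p v + f v) = 0 := fun v => by rw [map_add, hfp, hff, aa]
  have hpb : ∀ v, p (p v + f v) = p v + f v := fun v => by rw [map_add, hpp, hpf]
  have hb : p b0 + f b0 ≠ 0 := fun h => hb0 (eq_of_add _ _ h)
  have hna : ∃ a1, ¬ Z (f a0) (p a1) := by
    by_contra hc
    push Not at hc
    apply ha0
    rw [← hpf]
    apply nd
    intro w
    rw [hpf]
    exact hc w
  have hnb : ∃ b1, ¬ Z (p b0 + f b0) (p b1) := by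
    by_contra hc
    push Not at hc
    apply hb
    rw [← hpb]
    apply nd
    intro w
    rw [hpb]
    exact hc w
  obtain ⟨a1, ha1⟩ := hna
  obtain ⟨b1, hb1⟩ := hnb
  have haa : ¬ Z (f a0) (f a1) := by
    intro h
    apply ha1
    have h3 := hperp (f a0) (p a1)
    rw [hff, hfp] at h3
    have h4 := hZ.add _ _ _ h3 h
    rwa [canc] at h4
  have hba : Z (p b0 + f b0) (f a1) := by
    have h3 := hperp a1 (p b0 + f b0)
    rw [hfb, add_zero] at h3
    exact hZ.symm _ _ h3
  have hab : Z (f a0) (p b1 + f b1) := by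
    have h3 := hperp a0 (p b1 + f b1)
    rwa [hfb, add_zero] at h3
  have hbb : ¬ Z (p b0 + f b0) (p b1 + f b1) := by
    intro h
    apply hb1
    have h3 := hperp b1 (p b0 + f b0)
    rw [hfb, add_zero] at h3
    have h4 := hZ.add _ _ _ h (hZ.symm _ _ h3)
    rwa [canc] at h4
  have hpv : p (f a0 + (p b0 + f b0)) = f a0 + (p b0 + f b0) := by rw [map_add, hpf, hpb]
  have h5 := hl (f a0 + (p b0 + f b0)) (f a1) (p b1 + f b1)
  rw [hpv] at h5
  rcases h5 with h5 | h5 | h5
  · apply haa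
    have h6 := addL hZ h5 hba
    rwa [canc] at h6
  · apply hbb
    have h6 := addL hZ h5 hab
    rw [add_comm (f a0), canc] at h6
    exact h6
  · apply haa
    have h6 := hind _ _ h5
    have e1 : f (f a0 + (p b0 + f b0)) = f a0 := by rw [map_add, hfb, hff, add_zero]
    have e2 : f (f a1 + (p b1 + f b1)) = f a1 := by rw [map_add, hfb, hff, add_zero]
    rw [e1, e2] at h6
    exact h6

theorem fan {Z : V → V → Prop} (hZ : LZ Z) (p f : V →ₗ[ZMod 2] V) (hpp : ∀ v, p (p v) = p v)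
    (hl : ZFan Z p) (hfp : ∀ v, f (p v) = f v) (hpf : ∀ v, p (f v) = f v)
    (hff : ∀ v, f (f v) = f v) (hperp : ∀ v w, Z (f v) (w + f w)) :
    (∀ v, f v = 0) ∨ ∀ v, f v = p v := by
  obtain ⟨t, hpt, ht, hr⟩ := hl
  have hfb : ∀ v, f (p v + f v) = 0 := fun v => by rw [map_add, hfp, hff, aa]
  have hpb : ∀ v, p (p v + f v) = p v + f v := fun v => by rw [map_add, hpp, hpf]
  have h1 : Z t (f t) := by
    have h2 := hZ.add _ _ _ (hperp t t) (hZ.alt (f t))
    rw [canc] at h2
    exact hZ.symm _ _ h2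
  have h2 := hr (f t)
  rw [hpf] at h2
  rcases h2 h1 with h3 | h3
  · left
    intro v
    have h4 := hperp v t
    rw [h3, add_zero] at h4
    have h5 := hr (f v)
    rw [hpf] at h5
    rcases h5 (hZ.symm _ _ h4) with h6 | h6
    · exact h6
    · have h7 := hff v
      rw [h6, h3] at h7
      exact absurd h7.symm ht
  · right
    intro v
    have h4 := hperp t (p v + f v)
    rw [h3, hfb, add_zero] at h4
    have h5 := hr (p v + f v)
    rw [hpb] at h5
    rcases h5 h4 with h6 | h6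
    · exact eq_of_add _ _ h6
    · have h7 := hfb v
      rw [h6, h3] at h7
      exact absurd h7 ht

end IDC_

theorem idc_proof : Stmt_IDC := by
  intro V _ _ Z hZ k C hOS j f hfp hpf hff hperp hind
  rcases hOS j with h | h
  · exact IDC_.loc hZ (C.p j) f (C.idem j) (C.nd j) h hfp hpf hff hperp hind
  · exact IDC_.fan hZ (C.p j) f (C.idem j) h hfp hpf hff hperp

end Pool.Agent.ETG
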