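import Pool.Agent.ETG.Stmts

/-!
Module KRS: a quaternion algebra split by `F(√x)` has the slot `x`.
-/

set_option autoImplicit false

namespace Pool.Agent.ETG

open scoped BigOperators
open Pool.Agent.EWG

namespace KRS_

variable {K : Type} [Field K]

theorem two_zero : (1 : W K) + 1 = 0 := add_self' 1

theorem pf_one (a : Kˣ) : pf a (1 : Kˣ) = 0 := by
  unfold pf pf1
  rw [br_one, two_zero, mul_zero]

theorem add_right_eq (a b c : W K) (h : a + b = c) : a = c + b := by
  rw [← h, add_assoc, add_self', add_zero]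

end KRS_

open KRS_

theorem krs_proof (_hRKR : EWG.Stmt_RKR) (hPFZ : EWG.Stmt_PFZ) (hPF3 : EWG.Stmt_PF3)
    (hSP2 : EWG.Stmt_SP2) (hWZ : EWG.Stmt_WZ) (hSDD : EWG.Stmt_SDD) (hREL : EWG.Stmt_REL) :
    Stmt_KRS := by
  intro F K _ _ _ hF E a b h
  by_cases h0 : pf a b = 0
  · exact ⟨1, by rw [h0, pf_one]⟩
  have hK : Good K := hF.map (algebraMap F K)
  obtain ⟨s, t, hst⟩ := (hPFZ K hK (iu F a) (iu F b)).1 h
  obtain ⟨i, hi⟩ := hF.neg
  obtain ⟨hr1, hr2, hr3, hr4⟩ := hREL F hF
  -- coordinates
  set s0 := E.t s with hs0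
  set s1 := E.s s with hs1
  set t0 := E.t t with ht0
  set t1 := E.s t with ht1
  have hs : s = algebraMap F K s0 + algebraMap F K s1 * E.θ := E.dec s
  have ht : t = algebraMap F K t0 + algebraMap F K t1 * E.θ := E.dec t
  have hθ : (E.θ : K) ^ 2 = algebraMap F K E.x := E.sq
  have key : algebraMap F K (b : F) = algebraMap F K (s0 ^ 2 + E.x * s1 ^ 2 + a * (t0 ^ 2 + E.x * t1 ^ 2))
      + algebraMap F K (2 * (s0 * s1 + a * (t0 * t1))) * E.θ := by
    have h1 : algebraMap F K (b : F) = s ^ 2 + algebraMap F K (a : F) * t ^ 2 := by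
      simpa using hst
    rw [h1, hs, ht]
    simp only [map_add, map_mul, map_pow, map_ofNat]
    linear_combination (algebraMap F K s1 ^ 2 + algebraMap F K (a : F) * algebraMap F K t1 ^ 2) * hθ
  have e1 : (b : F) = s0 ^ 2 + E.x * s1 ^ 2 + a * (t0 ^ 2 + E.x * t1 ^ 2) := by
    have := congrArg E.t key
    rw [map_add, E.t1, E.t1, E.tθ, add_zero] at this
    exact this
  have e2 : s0 * s1 + a * (t0 * t1) = 0 := by
    have := congrArg E.s key
    rw [map_add, E.s1, E.s1, E.sθ, zero_add] at this
    rcases mul_eq_zero.1 this.symm with h2 | h2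
    · exact absurd h2 hF.two
    · exact h2
  -- the value `f`
  have hf0 : s1 ^ 2 + a * t1 ^ 2 ≠ 0 := by
    intro hf
    apply h0
    rw [hPFZ F hF]
    refine ⟨s0, t0, ?_⟩
    rw [e1]
    linear_combination (E.x : F) * hf
  set f : Fˣ := Units.mk0 _ hf0 with hf
  have hfv : (f : F) = s1 ^ 2 + a * t1 ^ 2 := rfl
  -- splitting off
  have hsp := hSP2 F hF 1 ![1, a, b] ![s1, t1, 0] ![s0, t0, i] f (-(E.x * f))
    (by simp [Fin.sum_univ_three, hfv]; ring)
    (by
      rw [ud_apply]
      have h7 := Fin.sum_univ_three (fun j : Fin 3 => ((![1, a, b] : Fin 3 → Fˣ) j : F) *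
        (![s0, t0, i] : Fin 3 → F) j * (![s0, t0, i] : Fin 3 → F) j)
      refine h7.trans ?_
      simp only [Matrix.cons_val_zero, Matrix.cons_val_one,
        Matrix.cons_val, Units.val_one, Units.val_neg, Units.val_mul, hfv]
      linear_combination (b : F) * hi - e1)
    (by simp [Fin.sum_univ_three]; linear_combination e2)
  obtain ⟨a', ha'⟩ := hsp
  set g : Fˣ := a' 0 with hg
  have h6 : (1 : W F) + br a + br b = br f + br (E.x * f) + br g := by
    have h7 : ∑ j, br ((![1, a, b] : Fin 3 → Fˣ) j) = (1 : W F) + br a + br b := by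
      simp [Fin.sum_univ_three]
    rw [← h7, ha', hr2]
    simp [hg]
  -- discriminant
  have hsq : IsSquare (a * b * E.x * g) := by
    have h8 : ∑ j, br ((![1, a, b, f, E.x * f, g] : Fin 6 → Fˣ) j) = (0 : W F) := by
      rw [Fin.sum_univ_six]
      simp only [Matrix.cons_val_zero, Matrix.cons_val_one, Matrix.cons_val, br_one]
      calc (1 : W F) + br a + br b + br f + br (E.x * f) + br g
          = (1 + br a + br b) + (br f + br (E.x * f) + br g) := by ring
        _ = 0 := by rw [h6, add_self']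
    have h9 := (hSDD F hF 6 _ ((hWZ F hF (Fin 6) _).1 h8)).2
    rw [Fin.prod_univ_six] at h9
    simp only [Matrix.cons_val_zero, Matrix.cons_val_one, Matrix.cons_val] at h9
    obtain ⟨z, hz⟩ := h9
    refine ⟨z * f⁻¹, ?_⟩
    calc a * b * E.x * g = (1 * a * b * f * (E.x * f) * g) * (f⁻¹ * f⁻¹) := by
          rw [one_mul]
          have h20 : a * b * f * (E.x * f) * g * (f⁻¹ * f⁻¹) =
              a * b * E.x * g * (f * f⁻¹) * (f * f⁻¹) := by
            simp only [mul_comm, mul_left_comm, mul_assoc]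
          rw [h20, mul_inv_cancel, mul_one, mul_one]
      _ = z * f⁻¹ * (z * f⁻¹) := by rw [hz, mul_mul_mul_comm]
  have hg' : br g = br (a * b * E.x) := by
    rw [hr1]
    rwa [mul_comm]
  have h10 : pf a b = br f * pf E.x (f * (a * b)) := by
    have h11 : pf a b = (1 + br a + br b) + br (a * b) := by
      unfold pf pf1; rw [br_mul]; ring
    have h12 : br f * br f = (1 : W F) := by
      rw [← br_mul]
      have := hr4 1 f
      rw [one_mul, br_one, pow_two] at this
      exact this
    rw [h11, h6, hg']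
    unfold pf pf1
    simp only [br_mul]
    linear_combination (br E.x * br a * br b + br a * br b) * (1 - h12)
  have h13 : br f * pf a b = pf a b := by
    have h14 : pf3 a b f = 0 := (hPF3 F hF a b f).2 ⟨s1, t1, 0, 0, by rw [hfv]; ring⟩
    have h15 : pf3 a b f = pf a b + br f * pf a b := by unfold pf3 pf pf1; ring
    rw [h15] at h14
    exact (add_right_eq _ _ _ ((add_comm _ _).trans h14)).trans (zero_add _)
  refine ⟨f * (a * b), ?_⟩
  have h12 : br f * br f = (1 : W F) := by
    rw [← br_mul]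
    have := hr4 1 f
    rw [one_mul, br_one, pow_two] at this
    exact this
  calc pf a b = br f * pf a b := h13.symm
    _ = br f * (br f * pf E.x (f * (a * b))) := by rw [← h10]
    _ = (br f * br f) * pf E.x (f * (a * b)) := by rw [mul_assoc]
    _ = pf E.x (f * (a * b)) := by rw [h12, one_mul]

end Pool.Agent.ETG
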