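import Pool.Agent.ETG.Stmts

set_option autoImplicit false

namespace Pool.Agent.ETG

open scoped BigOperators
open Pool.Agent.EWG

namespace QDC_

variable {V : Type} [AddCommGroup V] [Module (ZMod 2) V]

theorem dbl (v : V) : v + v = 0 := by
  have h : ((2 : ZMod 2)) • v = 0 := by
    have : (2 : ZMod 2) = 0 := rfl
    rw [this, zero_smul]
  rw [two_smul] at h
  exact h

theorem lz_restrict {Z : V → V → Prop} (hZ : LZ Z) (U : Submodule (ZMod 2) V) (P : V → V)
    (hP : ∀ x, P x ∈ U) (h : ∀ a ∈ U, ∀ x, Z a (x + P x)) : LZ (ZR Z U) where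
  symm := fun a b hab => hZ.symm _ _ hab
  zero := fun a => hZ.zero _
  add := fun a b c h1 h2 => hZ.add _ _ _ h1 h2
  alt := fun a => hZ.alt _
  trans := by
    rintro a b c d a' b' ⟨x, hx1, hx2, hx3⟩ ⟨y, hy1, hy2, hy3⟩
    have hx : EqQ Z (a : V) b c d := ⟨x, hx1, hx2, hx3⟩
    have hy : EqQ Z (c : V) d a' b' := ⟨y, hy1, hy2, hy3⟩
    obtain ⟨z, hz1, hz2, hz3⟩ := hZ.trans _ _ _ _ _ _ hx hy
    have aux : ∀ (u : V), u ∈ U → ∀ w, Z u (w + z) → Z u (w + P z) := by
      intro u hu w h1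
      have h2 := hZ.add _ _ _ h1 (h u hu z)
      have h3 : w + z + (z + P z) = w + P z := by
        have := dbl z
        rw [add_assoc, ← add_assoc z z, this, zero_add]
      rwa [h3] at h2
    refine ⟨⟨P z, hP z⟩, aux _ a.2 _ hz1, aux _ a'.2 _ hz2, ?_⟩
    have h4 := aux ((a : V) + a') (U.add_mem a.2 a'.2) 0 (by rw [zero_add]; exact hz3)
    rw [zero_add] at h4
    exact h4

/-- elements without component outside `s` -/
def UU {Z : V → V → Prop} {k : ℕ} (C : ZDec Z k) (s : Finset (Fin k)) : Submodule (ZMod 2) V where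
  carrier := {v | ∀ j, j ∉ s → C.p j v = 0}
  add_mem' := by
    intro a b ha hb j hj
    rw [map_add, ha j hj, hb j hj, add_zero]
  zero_mem' := fun j _ => map_zero _
  smul_mem' := by
    intro c v hv j hj
    rw [map_smul, hv j hj, smul_zero]

theorem mem_UU {Z : V → V → Prop} {k : ℕ} (C : ZDec Z k) (s : Finset (Fin k)) (v : V) :
    v ∈ UU C s ↔ ∀ j, j ∉ s → C.p j v = 0 := Iff.rfl

theorem z_sum {Z : V → V → Prop} (hZ : LZ Z) {ι : Type} (s : Finset ι) (f : ι → V) (a : V)
    (h : ∀ i ∈ s, Z a (f i)) : Z a (∑ i ∈ s, f i) := by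
  classical
  induction s using Finset.induction_on with
  | empty => rw [Finset.sum_empty]; exact hZ.zero a
  | insert i s hi ih =>
    rw [Finset.sum_insert hi]
    exact hZ.add _ _ _ (h i (Finset.mem_insert_self _ _))
      (ih (fun j hj => h j (Finset.mem_insert_of_mem hj)))

theorem lz_UU {Z : V → V → Prop} (hZ : LZ Z) {k : ℕ} (C : ZDec Z k) (s : Finset (Fin k)) :
    LZ (ZR Z (UU C s)) := by
  classical
  refine lz_restrict hZ _ (fun x => x + ∑ j ∈ sᶜ, C.p j x) ?_ ?_
  · intro x i hi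
    show C.p i (x + ∑ j ∈ sᶜ, C.p j x) = 0
    rw [map_add, map_sum]
    have hi' : i ∈ sᶜ := Finset.mem_compl.mpr hi
    rw [Finset.sum_eq_single_of_mem i hi' (fun j _ hj => C.orth i j (Ne.symm hj) x), C.idem, dbl]
  · intro a ha x
    have h1 : x + (x + ∑ j ∈ sᶜ, C.p j x) = ∑ j ∈ sᶜ, C.p j x := by
      rw [← add_assoc, dbl, zero_add]
    show Z a (x + (x + ∑ j ∈ sᶜ, C.p j x))
    rw [h1]
    apply z_sum hZ
    intro j hj
    have h2 := C.perp j x a
    rw [ha j (Finset.mem_compl.mp hj), add_zero] at h2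
    exact hZ.symm _ _ h2

theorem split_iff {Z : V → V → Prop} (hZ : LZ Z) {k : ℕ} (C : ZDec Z k) (j : Fin k) (v w : V) :
    Z v w ↔ Z (C.p j v) (C.p j w) ∧ Z (v + C.p j v) (w + C.p j w) := by
  have e1 : ∀ a b : V, a + (b + a) = b := by
    intro a b
    rw [add_comm b a, ← add_assoc, dbl, zero_add]
  have hb : Z (v + C.p j v) (C.p j w) := hZ.symm _ _ (C.perp j w v)
  constructor
  · intro h
    have h1 := C.ind v w h j
    have h2 : Z (C.p j v) w := by
      have := hZ.add _ _ _ h1 (C.perp j v w)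
      rwa [e1] at this
    have h3 : Z (v + C.p j v) w :=
      hZ.symm _ _ (hZ.add _ _ _ (hZ.symm _ _ h) (hZ.symm _ _ h2))
    exact ⟨h1, hZ.add _ _ _ h3 hb⟩
  · rintro ⟨h1, h2⟩
    have h3 : Z (C.p j v) w := by
      have := hZ.add _ _ _ h1 (C.perp j v w)
      rwa [e1] at this
    have h4 : Z (v + C.p j v) w := by
      have := hZ.add _ _ _ hb h2
      rwa [e1] at this
    have h5 := hZ.add _ _ _ (hZ.symm _ _ h3) (hZ.symm _ _ h4)
    rw [e1] at h5
    exact hZ.symm _ _ h5

/-- the splitting of one component -/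
def eqv {Z : V → V → Prop} {k : ℕ} (C : ZDec Z k) (s : Finset (Fin k)) (j : Fin k) (hj : j ∉ s) :
    UU C (insert j s) ≃+ (LinearMap.range (C.p j)) × UU C s where
  toFun := fun v => (⟨C.p j v, ⟨v, rfl⟩⟩, ⟨(v : V) + C.p j v, by
    intro i hi
    rw [map_add]
    by_cases hij : i = j
    · subst hij
      rw [C.idem, dbl]
    · rw [C.orth i j hij, add_zero]
      exact v.2 i (by
        rw [Finset.mem_insert]
        push Not
        exact ⟨hij, hi⟩)⟩)
  invFun := fun x => ⟨(x.1 : V) + (x.2 : V), by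
    obtain ⟨⟨a, a0, ha⟩, ⟨b, hb⟩⟩ := x
    intro i hi
    rw [Finset.mem_insert] at hi
    push Not at hi
    show C.p i (a + b) = 0
    rw [map_add, ← ha, C.orth i j hi.1, hb i hi.2, add_zero]⟩
  left_inv := by
    rintro ⟨v, hv⟩
    apply Subtype.ext
    show C.p j v + (v + C.p j v) = v
    rw [add_comm v, ← add_assoc, dbl, zero_add]
  right_inv := by
    rintro ⟨⟨a, a0, ha⟩, ⟨b, hb⟩⟩
    have h1 : C.p j (a + b) = a := by
      rw [map_add, hb j hj, add_zero, ← ha, C.idem]
    apply Prod.ext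
    · apply Subtype.ext
      exact h1
    · apply Subtype.ext
      show a + b + C.p j (a + b) = b
      rw [h1, add_comm a b, add_assoc, dbl, add_zero]
  map_add' := by
    rintro ⟨v, hv⟩ ⟨w, hw⟩
    apply Prod.ext
    · apply Subtype.ext
      exact map_add (C.p j) v w
    · apply Subtype.ext
      show v + w + C.p j (v + w) = (v + C.p j v) + (w + C.p j w)
      rw [map_add]
      abel

end QDC_

open QDC_ in
theorem qdc_proof (hQPR : Stmt_QPR) (hQRD : Stmt_QRD) (_hLZR : Stmt_LZR) : Stmt_QDC := by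
  classical
  intro V _ _ _ Z hZ k C _hOS hET
  have main : ∀ s : Finset (Fin k), ETZ (ZR Z (UU C s)) := by
    intro s
    induction s using Finset.induction_on with
    | empty =>
      apply hQRD
      rintro ⟨a, ha⟩ ⟨b, hb⟩
      show Z a b
      have h1 := C.rad a b
      have h2 : ∑ j, C.p j a = 0 :=
        Finset.sum_eq_zero (fun j _ => ha j (Finset.notMem_empty j))
      rwa [h2, add_zero] at h1
    | insert j s hj ih =>
      refine hQPR (UU C (insert j s)) (LinearMap.range (C.p j)) (UU C s) _ _ _ (eqv C s j hj)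
        ?_ (lz_UU hZ C s) ?_ (hET j) ih
      · refine lz_restrict hZ _ (fun x => C.p j x) (fun x => ⟨x, rfl⟩) ?_
        rintro a ⟨a0, rfl⟩ x
        exact C.perp j a0 x
      · rintro ⟨v, hv⟩ ⟨w, hw⟩
        exact split_iff hZ C j v w
  intro S hS
  obtain ⟨hneg, φ, hφ⟩ := hS
  have htop : ∀ v : V, v ∈ UU C Finset.univ := fun v j hj => absurd (Finset.mem_univ j) hj
  let e : UU C Finset.univ ≃+ V :=
    { toFun := fun v => v
      invFun := fun v => ⟨v, htop v⟩
      left_inv := fun v => rfl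
      right_inv := fun v => rfl
      map_add' := fun v w => rfl }
  refine main Finset.univ S ⟨hneg, (AddEquiv.toMultiplicative e).trans φ, ?_⟩
  intro a b
  exact hφ a b

end Pool.Agent.ETG
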