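import Pool.Agent.ETG.Stmts

/-! Squad ETG: module QFI (the structure of a field is the one of the relation). -/

set_option autoImplicit false

namespace Pool.Agent.ETG

open scoped BigOperators
open Pool.Agent.EWG

theorem qfi_proof (hZFL : Stmt_ZFL) : Stmt_QFI := by
  intro F _ hF S hS
  obtain ⟨φ, hs, hk, hneg, hq⟩ := hS
  have h11 : pf1 (1 : Fˣ) = 0 := by unfold pf1; rw [br_one, add_self']
  have hneg1 : S.neg = 1 := by
    rw [hneg, hk]
    obtain ⟨i, hi⟩ := hF.neg
    have hi0 : i ≠ 0 := by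
      intro h0
      rw [h0] at hi
      have h1 : (1 : F) = 0 := by linear_combination hi
      exact one_ne_zero h1
    refine ⟨Units.mk0 i hi0, Units.ext ?_⟩
    show (-1 : F) = i * i
    rw [← hi]; ring
  let ψ : (Fˣ ⧸ (powMonoidHom 2 : Fˣ →* Fˣ).range) →* S.G :=
    QuotientGroup.lift _ φ (by
      rintro _ ⟨z, rfl⟩
      rw [MonoidHom.mem_ker, hk]
      exact ⟨z, by simp [pow_two]⟩)
  have hψ : ∀ a : Fˣ, ψ (QuotientGroup.mk a) = φ a := fun a => rfl
  let f : Multiplicative (VV F) →* S.G :=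
    { toFun := fun v => ψ (Additive.toMul (Multiplicative.toAdd v : VV F) :
        Fˣ ⧸ (powMonoidHom 2 : Fˣ →* Fˣ).range)
      map_one' := ψ.map_one
      map_mul' := fun v w => ψ.map_mul _ _ }
  have hf : ∀ a : Fˣ, f (Multiplicative.ofAdd (vm a)) = φ a := fun a => rfl
  have hbij : Function.Bijective f := by
    constructor
    · rw [injective_iff_map_eq_one]
      intro v hv
      obtain ⟨a, ha⟩ := vm_surj (Multiplicative.toAdd v : VV F)
      have hv' : v = Multiplicative.ofAdd (vm a) := by rw [ha]; rfl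
      rw [hv', hf, hk, ← vm_eq_zero] at hv
      rw [hv', hv]
      rfl
    · intro g
      obtain ⟨a, ha⟩ := hs g
      exact ⟨Multiplicative.ofAdd (vm a), by rw [hf, ha]⟩
  refine ⟨hneg1, MulEquiv.ofBijective f hbij, fun v w => ?_⟩
  obtain ⟨a, rfl⟩ := vm_surj v
  obtain ⟨b, rfl⟩ := vm_surj w
  show S.q (φ a) (φ b) = S.zero ↔ _
  rw [(hZFL F hF).2.1, ← S.q_one (φ a), ← φ.map_one, hq]
  have h1 : pf a 1 = 0 := by unfold pf; rw [h11, mul_zero]
  rw [h1]

end Pool.Agent.ETG
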