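import Pool.Agent.ETG.Stmts

/-!
Module QLO of the squad ETG: structures of local type.
-/

set_option autoImplicit false

namespace Pool.Agent.ETG

open Pool.Agent.EWG

namespace QLO_

variable {V : Type} [AddCommGroup V] [Module (ZMod 2) V]

theorem add_cancel (a b : V) : a + (a + b) = b := by
  rw [← add_assoc, ZModModule.add_self, zero_add]

theorem add_eq_zero' {a b : V} (h : a + b = 0) : b = a := by
  have h1 := add_cancel a b
  rw [h, add_zero] at h1
  exact h1.symm

theorem two_card [Finite V] (h : Nat.card V = 2) (t : V) (ht : t ≠ 0) (w : V) :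
    w = 0 ∨ w = t := by
  classical
  cases nonempty_fintype V
  rw [Nat.card_eq_fintype_card] at h
  have hs : ({0, t} : Finset V).card = 2 := Finset.card_pair ht.symm
  have hu := Finset.eq_univ_of_card _ (hs.trans h.symm)
  have hw := Finset.mem_univ w
  rw [← hu] at hw
  simpa using hw

theorem four_card [Finite V] (h : Nat.card V = 4) (t v : V) (ht : t ≠ 0) (hv : v ≠ 0)
    (htv : v ≠ t) (w : V) : w = 0 ∨ w = t ∨ w = v ∨ w = t + v := by
  classical
  cases nonempty_fintype V
  rw [Nat.card_eq_fintype_card] at h
  have h1 : t + v ≠ 0 := fun h => htv (add_eq_zero' h)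
  have h2 : t + v ≠ t := fun h => hv (by simpa using h)
  have h3 : t + v ≠ v := fun h => ht (by simpa using h)
  have hs : ({0, t, v, t + v} : Finset V).card = 4 := by
    rw [Finset.card_insert_of_notMem, Finset.card_insert_of_notMem, Finset.card_pair h3.symm]
    · simp only [Finset.mem_insert, Finset.mem_singleton, not_or]
      exact ⟨htv.symm, h2.symm⟩
    · simp only [Finset.mem_insert, Finset.mem_singleton, not_or]
      exact ⟨ht.symm, hv.symm, h1.symm⟩
  have hu := Finset.eq_univ_of_card _ (hs.trans h.symm)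
  have hw := Finset.mem_univ w
  rw [← hu] at hw
  simpa using hw

variable {Z : V → V → Prop}

/-- a common element outside of two proper subgroups -/
theorem common (hZ : LZ Z) {a b c d : V} (h1 : ¬ Z a b) (h2 : ¬ Z c d) :
    ∃ x, ¬ Z a x ∧ ¬ Z c x := by
  by_cases h3 : Z c b
  · by_cases h4 : Z a d
    · refine ⟨b + d, fun h => h1 ?_, fun h => h2 ?_⟩
      · have h5 := hZ.add a _ _ h4 h
        rwa [add_comm b d, add_cancel] at h5
      · have h5 := hZ.add c _ _ h3 h
        rwa [add_cancel] at h5
    · exact ⟨d, h4, h2⟩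
  · exact ⟨b, h1, h3⟩

end QLO_

open QLO_ in
theorem qlo_proof (hQXT : Stmt_QXT) (hQRD : Stmt_QRD) : Stmt_QLO := by
  intro V _ _ _ Z hZ hND hloc S hS
  have hloc' : ∀ v w w', Z v w ∨ Z v w' ∨ Z v (w + w') := hloc
  obtain ⟨n, hn⟩ : ∃ n : ℕ, Nat.card V = 2 ^ n := by
    refine ⟨Module.finrank (ZMod 2) V, ?_⟩
    have h := Module.natCard_eq_pow_finrank (K := ZMod 2) (V := V)
    rwa [Nat.card_zmod] at h
  have h0l : ∀ b, Z 0 b := fun b => hZ.symm _ _ (hZ.zero b)
  rcases Nat.lt_or_ge n 3 with hn3 | hn3
  · interval_cases n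
    · obtain ⟨-, φ, -⟩ := hS
      apply QS.ElemType.L0
      rw [← Nat.card_congr φ.toEquiv]
      exact hn
    · exfalso
      have h1 : Nontrivial V := by
        rw [← Finite.one_lt_card_iff_nontrivial, hn]
        norm_num
      obtain ⟨t, ht⟩ := exists_ne (0 : V)
      apply ht
      apply hND
      intro w
      rcases two_card hn t ht w with rfl | rfl
      · exact hZ.zero t
      · exact hZ.alt _
    · have h1 : Nontrivial V := by
        rw [← Finite.one_lt_card_iff_nontrivial, hn]
        norm_num
      obtain ⟨t, ht⟩ := exists_ne (0 : V)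
      have hrig : Rig Z t := by
        refine ⟨ht, fun v hv => ?_⟩
        by_contra hcon
        rw [not_or] at hcon
        apply ht
        apply hND
        intro w
        rcases four_card hn t v ht hcon.1 hcon.2 w with rfl | rfl | rfl | rfl
        · exact hZ.zero t
        · exact hZ.alt _
        · exact hv
        · exact hZ.add t _ _ (hZ.alt t) hv
      have hker : ∀ v, (Submodule.span (ZMod 2) {t}).mkQ v = 0 ↔ v = 0 ∨ v = t := by
        intro v
        rw [Submodule.mkQ_apply, Submodule.Quotient.mk_eq_zero, Submodule.mem_span_singleton]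
        constructor
        · rintro ⟨c, rfl⟩
          fin_cases c
          · left
            exact zero_smul _ t
          · right
            exact one_smul _ t
        · rintro (rfl | rfl)
          · exact ⟨0, zero_smul _ t⟩
          · exact ⟨1, one_smul _ _⟩
      have hall : ∀ v w, InQ Z t v w := by
        intro v w
        suffices h : ∃ x, Z v (w + x) ∧ Z (v + t) x by
          obtain ⟨x, h1, h2⟩ := h
          exact ⟨x, x, h1, by rw [ZModModule.add_self]; exact hZ.zero t, h2⟩
        by_cases hv : v = 0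
        · subst hv
          exact ⟨0, h0l _, hZ.zero _⟩
        by_cases hvt : v = t
        · subst hvt
          exact ⟨w, by rw [ZModModule.add_self]; exact hZ.zero v,
            by rw [ZModModule.add_self]; exact h0l _⟩
        rcases four_card hn v t hv ht (fun h => hvt h.symm) w with rfl | rfl | rfl | rfl
        · exact ⟨0, by rw [add_zero]; exact hZ.zero v, hZ.zero _⟩
        · exact ⟨0, by rw [add_zero]; exact hZ.alt w, hZ.zero _⟩
        · refine ⟨v + w, ?_, hZ.alt _⟩
          rw [add_comm v w, add_cancel]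
          exact hZ.alt v
        · refine ⟨v + t, ?_, hZ.alt _⟩
          rw [ZModModule.add_self]
          exact hZ.zero v
      have hLZ : LZ (fun _ _ : V ⧸ Submodule.span (ZMod 2) {t} => True) :=
        ⟨fun _ _ _ => trivial, fun _ => trivial, fun _ _ _ _ _ => trivial, fun _ => trivial,
          fun _ _ _ _ _ _ _ _ => ⟨0, trivial, trivial, trivial⟩⟩
      have hfin : Finite (V ⧸ Submodule.span (ZMod 2) {t}) :=
        Finite.of_surjective _ (Submodule.mkQ_surjective (Submodule.span (ZMod 2) {t}))
      exact hQXT V (V ⧸ Submodule.span (ZMod 2) {t}) Z (fun _ _ => True) t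
        (Submodule.span (ZMod 2) {t}).mkQ hZ hND hrig hLZ (Submodule.mkQ_surjective _) hker
        (fun v w => ⟨fun _ => hall v w, fun _ => trivial⟩) (hQRD _ _ (fun _ _ => trivial)) S hS
  · obtain ⟨hneg, φ, hφ⟩ := hS
    have hcard : 8 ≤ Nat.card S.G := by
      rw [← Nat.card_congr φ.toEquiv]
      show 8 ≤ Nat.card V
      rw [hn]
      calc 8 = 2 ^ 3 := by norm_num
        _ ≤ 2 ^ n := Nat.pow_le_pow_right (by norm_num) hn3
    have hsurj : ∀ g : S.G, ∃ v : V, φ (Multiplicative.ofAdd v) = g := by
      intro g
      obtain ⟨v, hv⟩ := φ.surjective g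
      exact ⟨Multiplicative.toAdd v, hv⟩
    have hfin : Finite S.G := Nat.finite_of_card_ne_zero (by omega)
    have hzero : ∀ a : V, (∀ b, S.q (φ (Multiplicative.ofAdd a)) b = S.zero) → a = 0 := by
      intro a ha
      apply hND
      intro w
      exact (hφ a w).1 (ha _)
    have hqa : ∀ a b d : V, ¬ Z a b → ¬ Z a d → S.q (φ (Multiplicative.ofAdd a))
        (φ (Multiplicative.ofAdd b)) = S.q (φ (Multiplicative.ofAdd a))
        (φ (Multiplicative.ofAdd d)) := by
      intro a b d h1 h2
      rw [S.qs3, ← map_mul, ← ofAdd_add, hφ]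
      exact ((hloc' a b d).resolve_left h1).resolve_left h2
    have hq : ∀ a b c d : V, ¬ Z a b → ¬ Z c d → S.q (φ (Multiplicative.ofAdd a))
        (φ (Multiplicative.ofAdd b)) = S.q (φ (Multiplicative.ofAdd c))
        (φ (Multiplicative.ofAdd d)) := by
      intro a b c d h1 h2
      obtain ⟨x, h3, h4⟩ := common hZ h1 h2
      rw [hqa a b x h1 h3, hqa c d x h2 h4, S.qs2 _ (φ (Multiplicative.ofAdd x)),
        S.qs2 _ (φ (Multiplicative.ofAdd x))]
      exact hqa x a c (fun h => h3 (hZ.symm _ _ h)) (fun h => h4 (hZ.symm _ _ h))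
    apply QS.ElemType.loc S hfin hcard
    · intro a ha
      obtain ⟨v, rfl⟩ := hsurj a
      rw [hzero v ha]
      exact map_one φ
    · have hnt : Nontrivial V := by
        rw [← Finite.one_lt_card_iff_nontrivial, hn]
        exact Nat.one_lt_pow (by omega) (by norm_num)
      obtain ⟨t, ht⟩ := exists_ne (0 : V)
      obtain ⟨u, hu⟩ : ∃ u, ¬ Z t u := by
        by_contra hcon
        push Not at hcon
        exact ht (hND t hcon)
      rw [Nat.card_eq_two_iff]
      refine ⟨S.zero, S.q (φ (Multiplicative.ofAdd t)) (φ (Multiplicative.ofAdd u)), ?_, ?_⟩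
      · intro h
        exact hu ((hφ t u).1 h.symm)
      · rw [Set.eq_univ_iff_forall]
        intro β
        obtain ⟨a, b, rfl⟩ := S.surj β
        obtain ⟨v, rfl⟩ := hsurj a
        obtain ⟨w, rfl⟩ := hsurj b
        by_cases h : Z v w
        · left
          exact (hφ v w).2 h
        · right
          exact hq v w t u h hu

end Pool.Agent.ETG
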