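import Pool.Agent.ETG.Stmts

set_option autoImplicit false

namespace Pool.Agent.ETG

open scoped BigOperators
open Pool.Agent.EWG

namespace QXT_

theorem dbl {V : Type} [AddCommGroup V] [Module (ZMod 2) V] (v : V) : v + v = 0 := by
  have h := add_smul (1 : ZMod 2) 1 v
  rw [one_smul] at h
  rw [← h, show (1 : ZMod 2) + 1 = 0 from by decide, zero_smul]

theorem zc (a : ZMod 2) : a = 0 ∨ a = 1 := by revert a; decide

section
variable {V : Type} [AddCommGroup V] [Module (ZMod 2) V] {Z : V → V → Prop}

theorem addl (hZ : LZ Z) {a b c : V} (h1 : Z a c) (h2 : Z b c) : Z (a + b) c :=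
  hZ.symm _ _ (hZ.add _ _ _ (hZ.symm _ _ h1) (hZ.symm _ _ h2))

theorem inq_of_Z (hZ : LZ Z) (t : V) {a b : V} (h : Z a b) : InQ Z t a b := by
  refine ⟨0, 0, ?_, ?_, hZ.zero _⟩
  · rw [add_zero]; exact h
  · rw [add_zero]; exact hZ.zero _

variable {t : V} {τ : V →ₗ[ZMod 2] ZMod 2}

theorem small (hR : Rig Z t) (ht : τ t = 1) {v : V} (hv : τ v = 0) (h : Z t v) : v = 0 := by
  rcases hR.2 v h with h1 | h1
  · exact h1
  · rw [h1, ht] at hv
    exact absurd hv (by decide)

/-- case `(1, 0)` -/
theorem c10 (hZ : LZ Z) (hR : Rig Z t) (ht : τ t = 1)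
    (hD : ∀ v w, τ v = 0 → τ w = 0 → InQ Z t v w → Z v w) {a b : V} (ha : τ a = 1)
    (hb : τ b = 0) (h : Z a b) : b = 0 := by
  have hd : τ (a + t) = 0 := by rw [map_add, ha, ht]; decide
  have hat : a + t + t = a := by rw [add_assoc, dbl, add_zero]
  have h1 : EqQ Z (a + t) b t b := by
    refine ⟨b, ?_, ?_, ?_⟩
    · rw [dbl]; exact hZ.zero _
    · rw [dbl]; exact hZ.zero _
    · rw [hat]; exact h
  have h2 : Z (a + t) b := hD _ _ hd hb ⟨b, h1⟩
  have h3 : Z t b := by
    have h4 := addl hZ h2 h
    rw [show a + t + a = t from by rw [add_comm a t, add_assoc, dbl, add_zero]] at h4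
    exact h4
  exact small hR ht hb h3

/-- case `(1, 1)` -/
theorem c11 (hZ : LZ Z) (hR : Rig Z t) (ht : τ t = 1)
    (hD : ∀ v w, τ v = 0 → τ w = 0 → InQ Z t v w → Z v w) {a b : V} (ha : τ a = 1)
    (hb : τ b = 1) (h : Z a b) : a = b := by
  have hd : τ (a + t) = 0 := by rw [map_add, ha, ht]; decide
  have hd' : τ (b + t) = 0 := by rw [map_add, hb, ht]; decide
  have hat : a + t + t = a := by rw [add_assoc, dbl, add_zero]
  have hs : a + t + (b + t) = a + b := by
    rw [add_add_add_comm, dbl, add_zero]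
  have h0 : Z a (a + b) := hZ.add _ _ _ (hZ.alt a) h
  have h1 : EqQ Z (a + t) (b + t) t (a + b) := by
    refine ⟨a + b, ?_, ?_, ?_⟩
    · have e : b + t + (a + b) = a + t := by
        have e1 : b + t + (a + b) = a + t + (b + b) := by abel
        rw [e1, dbl, add_zero]
      rw [e]; exact hZ.alt _
    · rw [dbl]; exact hZ.zero _
    · rw [hat]; exact h0
  have h2 : Z (a + t) (b + t) := hD _ _ hd hd' ⟨a + b, h1⟩
  have h3 : Z (a + t) (a + b) := by
    rw [← hs]; exact hZ.add _ _ _ (hZ.alt _) h2
  have h4 : Z t (a + b) := by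
    have h5 := addl hZ h3 h0
    rw [show a + t + a = t from by rw [add_comm a t, add_assoc, dbl, add_zero]] at h5
    exact h5
  have h6 : τ (a + b) = 0 := by rw [map_add, ha, hb]; decide
  have h7 := small hR ht h6 h4
  calc a = a + (b + b) := by rw [dbl, add_zero]
    _ = (a + b) + b := (add_assoc _ _ _).symm
    _ = b := by rw [h7, zero_add]

end

end QXT_

open QXT_ in
theorem qxt_proof (hRIG : Stmt_RIG) (hQEX : Stmt_QEX) (hQIS : Stmt_QIS) : Stmt_QXT := by
  intro V U _ _ _ _ _ Z ZU t ρ hZ hN hR hZU hρ hk hq hE S hS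
  obtain ⟨τ, ht, hD⟩ := hRIG V Z hZ hN t hR
  obtain ⟨T, hT⟩ := hQEX U ZU hZU
  have hET : QS.ElemType (QS.ext T) := QS.ElemType.ext T (hE T hT)
  obtain ⟨hneg, φ, hφ⟩ := hT
  have ht0 : ρ t = 0 := (hk t).2 (Or.inr rfl)
  -- kernel of `(ρ, τ)`
  have hinj : ∀ v, ρ v = 0 → τ v = 0 → v = 0 := by
    intro v h1 h2
    rcases (hk v).1 h1 with h | h
    · exact h
    · rw [h, ht] at h2; exact absurd h2 (by decide)
  have hinj2 : ∀ v w, ρ v = ρ w → τ v = τ w → v = w := by
    intro v w h1 h2
    have h3 : v + w = 0 := by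
      apply hinj
      · rw [map_add, h1, dbl]
      · rw [map_add, h2, dbl]
    calc v = v + (w + w) := by rw [dbl, add_zero]
      _ = (v + w) + w := (add_assoc _ _ _).symm
      _ = w := by rw [h3, zero_add]
  -- the isomorphism
  let f : Multiplicative V →* T.G × Multiplicative (ZMod 2) :=
    { toFun := fun v => (φ (Multiplicative.ofAdd (ρ (Multiplicative.toAdd v))),
        Multiplicative.ofAdd (τ (Multiplicative.toAdd v)))
      map_one' := by
        simp only [toAdd_one, map_zero, ofAdd_zero, map_one]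
        rfl
      map_mul' := by
        intro v w
        simp only [toAdd_mul, map_add, ofAdd_add, map_mul, Prod.mk_mul_mk] }
  have hf : ∀ v : V, f (Multiplicative.ofAdd v) =
    (φ (Multiplicative.ofAdd (ρ v)), Multiplicative.ofAdd (τ v)) := fun v => rfl
  have hbij : Function.Bijective f := by
    constructor
    · intro v w h
      obtain ⟨v, rfl⟩ := Multiplicative.ofAdd.surjective v
      obtain ⟨w, rfl⟩ := Multiplicative.ofAdd.surjective w
      rw [hf, hf, Prod.mk.injEq] at h
      have h1 : ρ v = ρ w := Multiplicative.ofAdd.injective (φ.injective h.1)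
      have h2 : τ v = τ w := Multiplicative.ofAdd.injective h.2
      rw [hinj2 v w h1 h2]
    · rintro ⟨u, ε⟩
      obtain ⟨u, rfl⟩ := φ.surjective u
      obtain ⟨u, rfl⟩ := Multiplicative.ofAdd.surjective u
      obtain ⟨ε, rfl⟩ := Multiplicative.ofAdd.surjective ε
      obtain ⟨v, rfl⟩ := hρ u
      by_cases hv : τ v = ε
      · refine ⟨Multiplicative.ofAdd v, ?_⟩
        rw [hf, hv]
      · refine ⟨Multiplicative.ofAdd (v + t), ?_⟩
        have h1 : ρ (v + t) = ρ v := by rw [LinearMap.map_add, ht0, add_zero]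
        have h2 : τ (v + t) = ε := by
          rw [LinearMap.map_add, ht]
          rcases zc (τ v) with h | h <;> rcases zc ε with h' | h' <;>
            rw [h, h'] at hv <;> rw [h, h'] <;> first | exact absurd rfl hv | decide
        rw [hf, h1, h2]
  let e : Multiplicative V ≃* T.G × Multiplicative (ZMod 2) := MulEquiv.ofBijective f hbij
  have he : ∀ v : V, e (Multiplicative.ofAdd v) =
    (φ (Multiplicative.ofAdd (ρ v)), Multiplicative.ofAdd (τ v)) := fun v => rfl
  have hφ1 : ∀ u : U, φ (Multiplicative.ofAdd u) = 1 ↔ u = 0 := by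
    intro u
    constructor
    · intro h
      rw [← map_one φ] at h
      exact Multiplicative.ofAdd.injective (φ.injective h)
    · rintro rfl
      rw [ofAdd_zero, map_one]
  have hQ : QOf Z (QS.ext T) := by
    refine ⟨?_, e, ?_⟩
    · show ((T.neg, 1) : T.G × Multiplicative (ZMod 2)) = 1
      rw [hneg]; rfl
    · intro a b
      have hz : (QS.ext T).q (e (Multiplicative.ofAdd a)) (e (Multiplicative.ofAdd b)) =
          (QS.ext T).zero ↔ QS.extMap T (e (Multiplicative.ofAdd a))
            (e (Multiplicative.ofAdd b)) = (T.zero, 1) := by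
        constructor
        · intro h; exact congrArg Subtype.val h
        · intro h; exact Subtype.ext h
      refine hz.trans ?_
      change QS.extMap T (φ (Multiplicative.ofAdd (ρ a)), Multiplicative.ofAdd (τ a))
        (φ (Multiplicative.ofAdd (ρ b)), Multiplicative.ofAdd (τ b)) = (T.zero, 1) ↔ Z a b
      have hab : T.q (φ (Multiplicative.ofAdd (ρ a))) (φ (Multiplicative.ofAdd (ρ b))) = T.zero ↔
        ZU (ρ a) (ρ b) := hφ _ _
      rcases zc (τ a) with h1 | h1 <;> rcases zc (τ b) with h2 | h2 <;> rw [h1, h2]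
      · rw [ofAdd_zero, QS.extMap_one_one, Prod.mk.injEq, hab, hq]
        constructor
        · rintro ⟨h, -⟩
          exact hD a b h1 h2 h
        · intro h
          exact ⟨inq_of_Z hZ t h, rfl⟩
      · rw [ofAdd_zero, QS.extMap_one_x, Prod.mk.injEq, hφ1]
        constructor
        · rintro ⟨-, h⟩
          rw [hinj a h h1]
          exact hZ.symm _ _ (hZ.zero _)
        · intro h
          have h3 : a = 0 := c10 hZ hR ht hD h2 h1 (hZ.symm _ _ h)
          refine ⟨?_, ?_⟩
          · rw [hab, h3, map_zero]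
            exact hZU.symm _ _ (hZU.zero _)
          · rw [h3, map_zero]
      · rw [ofAdd_zero, QS.extMap_x_one, Prod.mk.injEq, hφ1]
        constructor
        · rintro ⟨-, h⟩
          rw [hinj b h h2]
          exact hZ.zero _
        · intro h
          have h3 : b = 0 := c10 hZ hR ht hD h1 h2 h
          refine ⟨?_, ?_⟩
          · rw [hab, h3, map_zero]
            exact hZU.zero _
          · rw [h3, map_zero]
      · rw [QS.extMap_x_x, Prod.mk.injEq, hneg, one_mul, ← map_mul, ← ofAdd_add, hφ1]
        constructor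
        · rintro ⟨-, h⟩
          have h3 : a + b = 0 := by
            apply hinj
            · rw [map_add]; exact h
            · rw [map_add, h1, h2]; decide
          have h4 : a = b := by
            calc a = a + (b + b) := by rw [dbl, add_zero]
              _ = (a + b) + b := (add_assoc _ _ _).symm
              _ = b := by rw [h3, zero_add]
          rw [h4]
          exact hZ.alt _
        · intro h
          have h3 : a = b := c11 hZ hR ht hD h1 h2 h
          refine ⟨?_, ?_⟩
          · rw [hab, h3]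
            exact hZU.alt _
          · rw [h3, dbl]
  have hiso : QS.Iso (QS.ext T) S :=
    hQIS V V Z Z (AddEquiv.refl V) (fun a b => Iff.rfl) (QS.ext T) S hQ hS
  exact QS.ElemType.iso _ _ hiso hET

end Pool.Agent.ETG
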