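import Pool.Agent.ETG.Stmts

/-! Module REA: realisation of an indecomposable factor by an algebraic extension. -/

set_option autoImplicit false

noncomputable section

namespace Pool.Agent.ETG

open Pool.Agent.EWG

namespace REA_

/-- A marked subfield. -/
structure St (Ω W : Type) [Field Ω] [AddCommGroup W] [Module (ZMod 2) W]
    (ZW : W → W → Prop) where
  K : Subfield Ω
  π : VV K →ₗ[ZMod 2] W
  mark : Mark K ZW π

/-- The relation between consecutive marked subfields. -/
def Next {Ω W : Type} [Field Ω] [AddCommGroup W] [Module (ZMod 2) W]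
    {ZW : W → W → Prop} (s t : St Ω W ZW) : Prop :=
  ∃ h : s.K ≤ t.K, (∀ v, t.π (vmap (Subfield.inclusion h) v) = s.π v) ∧
    ∀ y, s.π y = 0 → vmap (Subfield.inclusion h) y = 0

end REA_

open REA_

theorem rea_proof (hSUP : Stmt_SUP) (hUNI : Stmt_UNI) (hZMP : Stmt_ZMP) : Stmt_REA := by
  intro Ω W _ _ _ _ ZW hLZ hND hIn hW K π hM
  have hnext : ∀ s : St Ω W ZW, ∃ t : St Ω W ZW, Next s t := by
    intro s
    obtain ⟨K', h, π', hM', h1, h2⟩ := hSUP Ω W ZW hLZ hND hIn hW s.K s.π s.mark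
    exact ⟨⟨K', π', hM'⟩, h, h1, h2⟩
  choose nx hnx using hnext
  let S : ℕ → St Ω W ZW := fun n => nx^[n] ⟨K, π, hM⟩
  have hS : ∀ n, Next (S n) (S (n + 1)) := by
    intro n
    have : S (n + 1) = nx (S n) := Function.iterate_succ_apply' nx n _
    rw [this]
    exact hnx (S n)
  have h : ∀ n, (S n).K ≤ (S (n + 1)).K := fun n => (hS n).1
  have hc : ∀ n v, (S (n + 1)).π (vmap (Subfield.inclusion (h n)) v) = (S n).π v := by
    intro n v
    obtain ⟨h', h1, h2⟩ := hS n
    exact h1 v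
  have hk : ∀ n v, (S n).π v = 0 → vmap (Subfield.inclusion (h n)) v = 0 := by
    intro n v hv
    obtain ⟨h', h1, h2⟩ := hS n
    exact h2 v hv
  obtain ⟨s, hs1, hs2, hs3, hs4⟩ := (S 0).mark.2.2
  refine hUNI Ω W ZW (fun n => (S n).K) h (fun n => (S n).π) (fun n => (S n).mark.1) hc
    (fun w => ⟨s w, hs1 w⟩) ?_ (fun n v hv => ⟨n + 1, h n, hk n v hv⟩) ?_
  · intro n v v' hv
    obtain ⟨s', -, -, h3, -⟩ := (S n).mark.2.2
    exact h3 v v' hv
  · intro v v' hv
    refine ⟨1, h 0, ?_⟩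
    have h1 : ∀ v, vmap (Subfield.inclusion (h 0)) v =
        vmap (Subfield.inclusion (h 0)) (s ((S 0).π v)) := by
      intro v
      have h2 : (S 0).π (v - s ((S 0).π v)) = 0 := by
        rw [map_sub, hs1, sub_self]
      have h3 := hk 0 _ h2
      rw [map_sub, sub_eq_zero] at h3
      exact h3
    have h5 := hZMP _ _ (Subfield.inclusion (h 0)) (S 0).mark.1 _ _ (hs4 _ _ hv)
    have e1 := h1 v
    have e2 := h1 v'
    rw [← e1, ← e2] at h5
    exact h5

end Pool.Agent.ETG
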