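import Pool.Agent.ETG.Stmts

/-!
ETG / RGD: square root of a rigid element (field extension of degree 2).
-/

set_option autoImplicit false

namespace Pool.Agent.ETG

open Pool.Agent.EWG

namespace RGD_

variable {F K : Type} [Field F] [Field K] [Algebra F K]

/-- restriction is a ring homomorphism -/
lemma rs_hom (hMAP : EWG.Stmt_MAP) : ∃ g : W F →+* W K, (∀ a : Fˣ, g (br a) = br (iu F a)) ∧
    ∀ c, rs F K c = g c := by
  obtain ⟨g, hg, hg'⟩ := hMAP F K (algebraMap F K)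
  exact ⟨g, hg, hg'⟩

lemma nm_theta (E : QD F K) : (E.nm E.θ : F) = -E.x := by
  rw [E.nmt]
  have h1 : E.t (E.θ : K) = 0 := by
    have := E.tθ 1
    rwa [map_one, one_mul] at this
  have h2 : E.s (E.θ : K) = 1 := by
    have := E.sθ 1
    rwa [map_one, one_mul] at this
  rw [h1, h2]; ring

lemma s_theta (E : QD F K) : E.s (E.θ : K) = 1 := by
  have := E.sθ 1
  rwa [map_one, one_mul] at this

lemma nm_theta' (E : QD F K) : E.nm E.θ = -E.x := Units.ext (nm_theta E)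

lemma neg_sq (hF : Good F) (a : Fˣ) : IsSquare (-a * a) := by
  obtain ⟨i, hi⟩ := hF.neg
  have hi0 : i ≠ 0 := by
    rintro rfl
    rw [zero_pow two_ne_zero] at hi
    exact one_ne_zero (neg_eq_zero.1 hi.symm)
  refine ⟨Units.mk0 i hi0 * a, ?_⟩
  apply Units.ext
  push_cast
  rw [Units.val_mk0]
  linear_combination (-(a : F) ^ 2) * hi

/-- the trace computation -/
lemma tr_pf (hF : Good F) (hMAP : EWG.Stmt_MAP) (hREL : EWG.Stmt_REL) (hPRJ : EWG.Stmt_PRJ)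
    (hRTQ : EWG.Stmt_RTQ) (hSTR : EWG.Stmt_STR) (E : QD F K) (b : Fˣ) :
    E.tr (pf (iu F b) E.θ) = pf b E.x := by
  obtain ⟨g, hg, hg'⟩ := rs_hom (F := F) (K := K) hMAP
  have h1 : pf (iu F b) E.θ = rs F K (pf1 b) * pf1 E.θ := by
    rw [hg', pf1, map_add, map_one, hg]; rfl
  rw [h1, hPRJ F K hF E]
  have h2 : E.tr (pf1 E.θ) = pf1 E.x := by
    have h3 : E.tr (1 : W K) = 0 := by
      have := (hRTQ F K hF E).2.1 1
      rwa [hg', map_one] at this
    have h4 : E.tr (br E.θ) = br (1 : Fˣ) + br (1 * E.nm E.θ) :=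
      ((hSTR F K hF E) E.θ).1 1 (by rw [Units.val_one, s_theta])
    have h5 : br (E.nm E.θ) = br E.x := by
      rw [(hREL F hF).1, nm_theta']
      exact neg_sq hF E.x
    rw [pf1, map_add, h3, h4, one_mul, h5, br_one, zero_add]; rfl
  rw [h2]; rfl

lemma br_sq {K : Type} [Field K] (hK : Good K) (hREL : EWG.Stmt_REL) (a : Kˣ) (h : IsSquare a) :
    br a = 1 := by
  have : br a = br (1 : Kˣ) := ((hREL K hK).1 a 1).2 (by rwa [mul_one])
  rw [this, br_one]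

lemma pf1_sq {K : Type} [Field K] (hK : Good K) (hREL : EWG.Stmt_REL) (a : Kˣ) (h : IsSquare a) :
    pf1 a = 0 := by
  rw [pf1, br_sq hK hREL a h, add_self']

end RGD_

open RGD_ in
theorem rgd_proof (hZFL : Stmt_ZFL) (hKRS : Stmt_KRS) (hVKR : EWG.Stmt_VKR) (hFIN : EWG.Stmt_FIN)
    (hPRJ : EWG.Stmt_PRJ) (hRTQ : EWG.Stmt_RTQ) (hSTR : EWG.Stmt_STR) (hREL : EWG.Stmt_REL)
    (hMAP : EWG.Stmt_MAP) : Stmt_RGD := by
  intro F K _ _ _ hF hfin E hrig
  have hK : Good K := hF.map (algebraMap F K)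
  obtain ⟨lzF, zF, eqF⟩ := hZFL F hF
  obtain ⟨lzK, zK, eqK⟩ := hZFL K hK
  obtain ⟨v1, v2, v3⟩ := hVKR F K hF E
  obtain ⟨g, hg, hg'⟩ := rs_hom (F := F) (K := K) hMAP
  obtain ⟨hx0, hx1⟩ := hrig
  -- (4)
  have h4 : ∀ v : VV F, rv F K v = 0 ↔ v = 0 ∨ v = vm E.x := by
    intro v
    obtain ⟨f, rfl⟩ := vm_surj v
    rw [rv_vm, vm_eq_zero, v2, vm_eq_zero, vm_eq_iff]
  -- (3)
  have hnx : vm (-E.x) = vm E.x := (vm_eq_iff _ _).2 (neg_sq hF E.x)
  have h3 : ∀ w : VV K, ∃ v : VV F, w = rv F K v ∨ w = rv F K v + vm E.θ := by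
    intro w
    obtain ⟨u, rfl⟩ := vm_surj w
    have hu : Zf F (vm E.x) (vm (E.nm u)) := (zF _ _).2 ((v3 _).2 ⟨u, rfl⟩)
    rcases hx1 _ hu with h | h
    · obtain ⟨f, hf⟩ := (v1 u).1 ((vm_eq_zero _).1 h)
      exact ⟨vm f, Or.inl (by rw [rv_vm]; exact (vm_eq_iff _ _).2 hf)⟩
    · have h' : vm (E.nm (u * E.θ)) = 0 := by
        rw [map_mul, vm_mul, h, nm_theta', hnx, vm_add_self]
      obtain ⟨f, hf⟩ := (v1 (u * E.θ)).1 ((vm_eq_zero _).1 h')
      refine ⟨vm f, Or.inr ?_⟩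
      have h5 : vm (u * E.θ) = vm (iu F f : Kˣ) := (vm_eq_iff _ _).2 hf
      rw [vm_mul] at h5
      rw [rv_vm, ← h5, add_assoc, vm_add_self, add_zero]
  -- (5)
  have h5 : ∀ v : VV F, rv F K v ≠ vm E.θ := by
    intro v hv
    obtain ⟨f, rfl⟩ := vm_surj v
    rw [rv_vm] at hv
    have h6 : IsSquare (E.θ * iu F f : Kˣ) := (vm_eq_iff _ _).1 hv.symm
    have h7 := (v1 E.θ).2 ⟨f, h6⟩
    rw [nm_theta'] at h7
    apply hx0
    rw [← hnx]
    exact (vm_eq_zero _).2 h7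
  have hθ0 : vm E.θ ≠ 0 := by
    intro h
    exact h5 0 (by rw [map_zero, h])
  have htr := tr_pf (F := F) (K := K) hF hMAP hREL hPRJ hRTQ hSTR E
  -- `pf θ (res b) = 0` only if `res b = 0`
  have hkey : ∀ b : Fˣ, pf b E.x = 0 → rv F K (vm b) = 0 := by
    intro b hb
    rw [h4]
    exact hx1 _ ((zF _ _).2 (by rw [pf_comm]; exact hb))
  have h2 : Rig (Zf K) (vm E.θ) := by
    refine ⟨hθ0, ?_⟩
    have main : ∀ v : VV F, Zf K (vm E.θ) (rv F K v) → rv F K v = 0 := by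
      intro v hv
      obtain ⟨b, rfl⟩ := vm_surj v
      apply hkey
      rw [rv_vm] at hv
      have h6 := (zK _ _).1 hv
      rw [pf_comm] at h6
      rw [← htr b, h6, map_zero]
    intro w hw
    obtain ⟨v, rfl | rfl⟩ := h3 w
    · exact Or.inl (main v hw)
    · right
      have h6 : Zf K (vm E.θ) (rv F K v) := by
        have h7 := lzK.add _ _ _ hw (lzK.alt (vm E.θ))
        rwa [add_assoc, vm_add_self, add_zero] at h7
      rw [main v h6, zero_add]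
  have hrs : ∀ a b : Fˣ, rs F K (pf a b) = pf (iu F a) (iu F b) := by
    intro a b
    rw [hg', pf, map_mul, pf1, pf1, map_add, map_add, map_one, hg, hg]; rfl
  refine ⟨(hFIN F hF hfin).2 K E, h2, h3, h4, h5, ?_, ?_⟩
  · intro v w
    obtain ⟨a, rfl⟩ := vm_surj v
    obtain ⟨b, rfl⟩ := vm_surj w
    rw [rv_vm, rv_vm, zK]
    constructor
    · intro h
      obtain ⟨c, hc⟩ := hKRS F K hF E a b h
      exact ⟨vm c, (eqF _ _ _ _).2 hc⟩
    · rintro ⟨a', ha'⟩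
      obtain ⟨c, rfl⟩ := vm_surj a'
      have h6 := (eqF _ _ _ _).1 ha'
      rw [← hrs, h6, hrs, pf]
      have h7 : pf1 (iu F E.x : Kˣ) = 0 := by
        apply pf1_sq hK hREL
        refine ⟨E.θ, ?_⟩
        apply Units.ext
        rw [iu_coe, Units.val_mul, ← E.sq, pow_two]
      rw [h7, zero_mul]
  · intro v w
    obtain ⟨a, rfl⟩ := vm_surj v
    obtain ⟨b, rfl⟩ := vm_surj w
    rintro ⟨a', ha'⟩
    rw [rv_vm, rv_vm] at ha' ⊢
    have hred : ∃ f : Fˣ, EqQ (Zf K) (vm (iu F a : Kˣ)) (vm (iu F b)) (vm E.θ) a' →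
        pf (iu F a : Kˣ) (iu F b) = pf E.θ (iu F f) := by
      obtain ⟨v', hv' | hv'⟩ := h3 a'
      · obtain ⟨f, rfl⟩ := vm_surj v'
        rw [rv_vm] at hv'
        subst hv'
        exact ⟨f, fun h => (eqK _ _ _ _).1 h⟩
      · obtain ⟨f, rfl⟩ := vm_surj v'
        rw [rv_vm, ← vm_mul] at hv'
        subst hv'
        refine ⟨f, fun h => ?_⟩
        rw [(eqK _ _ _ _).1 h]
        have h6 : br E.θ * br E.θ = 1 := by
          rw [← br_mul]
          exact br_sq hK hREL _ ⟨E.θ, rfl⟩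
        have h7 : pf1 E.θ * br E.θ = pf1 E.θ := by
          rw [pf1, add_mul, one_mul, h6, add_comm]
        change pf1 E.θ * (1 + br (iu F f * E.θ)) = pf1 E.θ * (1 + br (iu F f : Kˣ))
        rw [br_mul, mul_add, mul_add, mul_comm (br (iu F f : Kˣ)) (br E.θ), ← mul_assoc, h7]
    obtain ⟨f, hf⟩ := hred
    have h6 := hf ha'
    have h7 : pf f E.x = 0 := by
      rw [← htr f, pf_comm, ← h6, ← hrs]
      exact (hRTQ F K hF E).2.1 _
    have h8 := hkey f h7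
    rw [rv_vm, vm_eq_zero] at h8
    rw [zK, h6, pf, pf1_sq hK hREL _ h8, mul_zero]

end Pool.Agent.ETG
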