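import Pool.Agent.ETG.Stmts

/-!
Squad ETG, module RGE: adjoining all 2-power roots of a rigid element.
-/

set_option autoImplicit false

namespace Pool.Agent.ETG

open Pool.Agent.EWG

namespace RGE_

/-! ### The relation InQ -/

section
variable {V : Type} [AddCommGroup V] {Z : V → V → Prop} (hZ : LZ Z)
  (h2 : ∀ v : V, v + v = 0)

include hZ in
theorem inQ_of {t v w : V} (h : Z v w) : InQ Z t v w :=
  ⟨0, 0, by rwa [add_zero], by rw [add_zero]; exact hZ.zero t, hZ.zero _⟩

include h2 in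
theorem inQ_add {t v w : V} (h : InQ Z t v w) : InQ Z t (v + t) w := by
  obtain ⟨a, x, h3, h4, h5⟩ := h
  refine ⟨a + w, w + x, ?_, ?_, ?_⟩
  · rw [← add_assoc, h2, zero_add]
    exact h5
  · have : a + w + (w + x) = a + x := by
      calc a + w + (w + x) = a + (w + w) + x := by abel
        _ = a + x := by rw [h2, add_zero]
    rw [this]
    exact h4
  · rw [add_assoc, h2, add_zero]
    exact h3

include hZ h2 in
theorem inQ_symm {t v w : V} (h : InQ Z t v w) : InQ Z t w v := by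
  obtain ⟨a, h⟩ := h
  refine ⟨a, hZ.trans w v v w t a ⟨v + w, ?_, ?_, ?_⟩ h⟩
  · rw [← add_assoc, h2, zero_add]
    exact hZ.alt w
  · rw [add_comm v w, ← add_assoc, h2, zero_add]
    exact hZ.alt v
  · rw [add_comm w v]
    exact hZ.alt _

include h2 in
theorem inQ_left {t v v' w : V} (h : v' = v ∨ v' = v + t) : InQ Z t v' w ↔ InQ Z t v w := by
  rcases h with rfl | rfl
  · exact Iff.rfl
  · refine ⟨fun h => ?_, inQ_add h2⟩
    have h3 := inQ_add h2 h
    rwa [add_assoc, h2, add_zero] at h3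

include hZ h2 in
/-- invariance under translations by `t` -/
theorem inQ_inv {t v v' w w' : V} (h : v' = v ∨ v' = v + t) (h' : w' = w ∨ w' = w + t) :
    InQ Z t v' w' ↔ InQ Z t v w := by
  rw [inQ_left h2 h]
  constructor
  · intro h3
    exact inQ_symm hZ h2 ((inQ_left h2 h').1 (inQ_symm hZ h2 h3))
  · intro h3
    exact inQ_symm hZ h2 ((inQ_left h2 h').2 (inQ_symm hZ h2 h3))

end

/-! ### The chain -/

section
variable (Ω : Type) [Field Ω] {W : Type} [AddCommGroup W] [Module (ZMod 2) W]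
  (ZW : W → W → Prop)

/-- a field of the chain -/
structure Ch where
  K : Subfield Ω
  t : VV K
  π : VV K →ₗ[ZMod 2] W
  good : Good K
  fin : Finite (VV K)
  rig : Rig (Zf K) t
  ker : ∀ v, π v = 0 ↔ v = 0 ∨ v = t
  inq : ∀ v w, InQ (Zf K) t v w ↔ ZW (π v) (π w)

variable {Ω} {ZW}

/-- the relation between a field of the chain and the next one -/
def Nx (c d : Ch Ω ZW) : Prop := ∃ h : c.K ≤ d.K,
  (∀ v, d.π (vmap (Subfield.inclusion h) v) = c.π v) ∧
  (∀ v, vmap (Subfield.inclusion h) v = 0 ↔ v = 0 ∨ v = c.t) ∧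
  ∀ v w, Zf d.K (vmap (Subfield.inclusion h) v) (vmap (Subfield.inclusion h) w) ↔
    InQ (Zf c.K) c.t v w

theorem exists_next [IsAlgClosed Ω] (hRGS : Stmt_RGS) (hZFL : Stmt_ZFL) (c : Ch Ω ZW) :
    ∃ d : Ch Ω ZW, Nx c d := by
  obtain ⟨K', h, t', g', f', r', ha, hb, hc, hd, he⟩ := hRGS Ω c.K c.good c.fin c.t c.rig
  have hLZ := (hZFL K' g').1
  have h2 : ∀ v : VV K', v + v = 0 := vm_add_self
  -- the linear map onto the square classes of `K'`
  let L : (VV c.K × ZMod 2) →ₗ[ZMod 2] VV K' :=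
    (vmap (Subfield.inclusion h)).coprod (LinearMap.toSpanSingleton (ZMod 2) (VV K') t')
  have hL : ∀ v e, L (v, e) = vmap (Subfield.inclusion h) v + e • t' := fun v e => by
    simp [L]
  have hz2 : ∀ e : ZMod 2, e = 0 ∨ e = 1 := by decide
  have hsurj : Function.Surjective L := by
    intro w
    obtain ⟨v, hv | hv⟩ := ha w
    · exact ⟨(v, 0), by rw [hL, zero_smul, add_zero, hv]⟩
    · exact ⟨(v, 1), by rw [hL, one_smul, hv]⟩
  have hker : ∀ x, L x = 0 → c.π x.1 = 0 := by
    rintro ⟨v, e⟩ hx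
    rw [hL] at hx
    rcases hz2 e with rfl | rfl
    · rw [zero_smul, add_zero] at hx
      exact (c.ker v).2 ((hb v).1 hx)
    · rw [one_smul] at hx
      exfalso
      apply hc v
      calc vmap (Subfield.inclusion h) v = vmap (Subfield.inclusion h) v + (t' + t') := by
            rw [h2, add_zero]
        _ = t' := by rw [← add_assoc, hx, zero_add]
  obtain ⟨s, hs⟩ := L.exists_rightInverse_of_surjective (LinearMap.range_eq_top.2 hsurj)
  let π' : VV K' →ₗ[ZMod 2] W := (c.π.comp (LinearMap.fst (ZMod 2) (VV c.K) (ZMod 2))).comp s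
  have hπ : ∀ x, π' (L x) = c.π x.1 := by
    intro x
    have h3 : L (s (L x) - x) = 0 := by
      rw [map_sub, sub_eq_zero]
      exact congrArg (fun f : VV K' →ₗ[ZMod 2] VV K' => f (L x)) hs
    have h4 := hker _ h3
    rw [Prod.fst_sub, map_sub, sub_eq_zero] at h4
    exact h4
  have hπv : ∀ v, π' (vmap (Subfield.inclusion h) v) = c.π v := by
    intro v
    have := hπ (v, 0)
    rwa [hL, zero_smul, add_zero] at this
  have hπt : ∀ v, π' (vmap (Subfield.inclusion h) v + t') = c.π v := by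
    intro v
    have := hπ (v, 1)
    rwa [hL, one_smul] at this
  have hπ' : ∀ (w : VV K') (v : VV c.K), (w = vmap (Subfield.inclusion h) v ∨
      w = vmap (Subfield.inclusion h) v + t') → π' w = c.π v := by
    rintro w v (rfl | rfl)
    · exact hπv v
    · exact hπt v
  refine ⟨⟨K', t', π', g', f', r', ?_, ?_⟩, h, hπv, hb, hd⟩
  · intro w
    constructor
    · intro hw
      obtain ⟨v, hv⟩ := ha w
      rw [hπ' w v hv, c.ker, ← hb] at hw
      rw [hw, zero_add] at hv
      exact hv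
    · rintro (rfl | rfl)
      · exact map_zero _
      · have := hπt 0
        rwa [map_zero, zero_add, map_zero] at this
  · intro w w'
    obtain ⟨v, hv⟩ := ha w
    obtain ⟨v', hv'⟩ := ha w'
    rw [hπ' w v hv, hπ' w' v' hv', inQ_inv hLZ h2 hv hv', ← c.inq, ← hd]
    exact ⟨he v v', inQ_of hLZ⟩

end

end RGE_

open RGE_ in
theorem rge_proof (hRGS : Stmt_RGS) (hUNI : Stmt_UNI) (hZFL : Stmt_ZFL) (_hZMP : Stmt_ZMP) :
    Stmt_RGE := by
  intro Ω _ _ K hK hfin t ht
  have hLZ := (hZFL K hK).1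
  have h2 : ∀ v : VV K, v + v = 0 := vm_add_self
  let U : Submodule (ZMod 2) (VV K) := Submodule.span (ZMod 2) {t}
  have hz2 : ∀ e : ZMod 2, e = 0 ∨ e = 1 := by decide
  have hU : ∀ v, v ∈ U ↔ v = 0 ∨ v = t := by
    intro v
    rw [Submodule.mem_span_singleton]
    constructor
    · rintro ⟨e, rfl⟩
      rcases hz2 e with rfl | rfl
      · left; rw [zero_smul]
      · right; rw [one_smul]
    · rintro (rfl | rfl)
      · exact ⟨0, zero_smul _ _⟩
      · exact ⟨1, one_smul _ _⟩
  let ZW : (VV K ⧸ U) → (VV K ⧸ U) → Prop := fun x y =>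
    ∃ v w, U.mkQ v = x ∧ U.mkQ w = y ∧ InQ (Zf K) t v w
  have hmk : ∀ v v' : VV K, U.mkQ v = U.mkQ v' → v = v' ∨ v = v' + t := by
    intro v v' h
    have h3 : v - v' ∈ U := (Submodule.Quotient.eq U).1 h
    rcases (hU _).1 h3 with h4 | h4
    · exact Or.inl (sub_eq_zero.1 h4)
    · right
      rw [← h4]
      abel
  let c0 : Ch Ω ZW :=
    { K := K
      t := t
      π := U.mkQ
      good := hK
      fin := hfin
      rig := ht
      ker := fun v => by
        rw [← hU v, Submodule.mkQ_apply, Submodule.Quotient.mk_eq_zero]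
      inq := fun v w => by
        constructor
        · intro h
          exact ⟨v, w, rfl, rfl, h⟩
        · rintro ⟨v', w', hv, hw, h⟩
          exact (inQ_inv hLZ h2 (hmk v' v hv) (hmk w' w hw)).1 h }
  choose nx hnx using fun c : Ch Ω ZW => exists_next hRGS hZFL c
  let q : ℕ → Ch Ω ZW := fun n => Nat.rec c0 (fun _ c => nx c) n
  have hq : ∀ n, Nx (q n) (q (n + 1)) := fun n => hnx (q n)
  have hle : ∀ n, (q n).K ≤ (q (n + 1)).K := fun n => (hq n).choose
  have hs1 : ∀ n v, (q (n + 1)).π (vmap (Subfield.inclusion (hle n)) v) = (q n).π v :=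
    fun n => (hq n).choose_spec.1
  have hs2 : ∀ n v, vmap (Subfield.inclusion (hle n)) v = 0 ↔ v = 0 ∨ v = (q n).t :=
    fun n => (hq n).choose_spec.2.1
  have hs3 : ∀ n v w, Zf (q (n + 1)).K (vmap (Subfield.inclusion (hle n)) v)
      (vmap (Subfield.inclusion (hle n)) w) ↔ InQ (Zf (q n).K) (q n).t v w :=
    fun n => (hq n).choose_spec.2.2
  obtain ⟨E, hE, e1, e2, e3, e4⟩ := hUNI Ω (VV K ⧸ U) ZW (fun n => (q n).K) hle
    (fun n => (q n).π) (fun n => (q n).good) hs1 (fun w => U.mkQ_surjective w)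
    (fun n v v' h => ((q n).inq v v').1 (inQ_of (hZFL _ (q n).good).1 h))
    (fun n v h => ⟨n + 1, hle n, (hs2 n v).2 (((q n).ker v).1 h)⟩)
    (fun v v' h => ⟨1, hle 0, (hs3 0 v v').2 (((q 0).inq v v').2 h)⟩)
  refine ⟨E, hE, e1, e2, fun v => ?_, fun v w => ?_⟩
  · exact (e3 v).trans (c0.ker v)
  · exact (e4 v w).trans (c0.inq v w).symm

end Pool.Agent.ETG
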