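import Pool.Agent.ETG.Stmts

set_option autoImplicit false

namespace Pool.Agent.ETG

open Pool.Agent.EWG

namespace RGS_

theorem good_map {F K : Type} [Field F] [Field K] (f : F →+* K) (h : Good F) : Good K := by
  refine ⟨fun h2 => h.two (f.injective ?_), ?_⟩
  · rw [map_zero, map_ofNat]
    exact h2
  · obtain ⟨i, hi⟩ := h.neg
    exact ⟨f i, by rw [← map_pow, hi, map_neg, map_one]⟩

end RGS_

theorem rgs_proof (hSQX : Stmt_SQX) (hRGD : Stmt_RGD) : Stmt_RGS := by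
  intro Ω _ _ K hG hfin t ht
  obtain ⟨y, rfl⟩ := vm_surj t
  have hy : ¬ IsSquare y := fun h => ht.1 ((vm_eq_zero y).2 h)
  have h2 : (2 : Ω) ≠ 0 := by
    intro h0
    apply hG.two
    apply Subtype.ext
    exact h0
  obtain ⟨K', h, E, hE⟩ := hSQX Ω K h2 y hy
  letI : Algebra K K' := (Subfield.inclusion h).toAlgebra
  have ht' : Rig (Zf K) (vm E.x) := by rw [hE]; exact ht
  obtain ⟨h1, h3, h4, h5, h6, h7, h8⟩ := hRGD K K' hG hfin E ht'
  rw [hE] at h5 h7
  exact ⟨K', h, vm E.θ, RGS_.good_map (Subfield.inclusion h) hG, h1, h3, h4, h5, h6, h7, h8⟩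

end Pool.Agent.ETG
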