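import Pool.Agent.ETG.Stmts
import Pool.Agent.ETT.QDX

/-!
Module SQX of the squad ETG: square roots inside an algebraically closed field.
-/

set_option autoImplicit false

namespace Pool.Agent.ETG

open Pool.Agent.EWG

namespace SQX_

variable {Ω : Type} [Field Ω]

/-- the subfield `K + K θ` -/
def adj (K : Subfield Ω) (y : Ω) (hy : y ∈ K) (θ : Ω) (hθ : θ ^ 2 = y) (hns : θ ∉ K) :
    Subfield Ω where
  carrier := {z | ∃ a ∈ K, ∃ b ∈ K, z = a + b * θ}
  mul_mem' := by
    rintro _ _ ⟨a, ha, b, hb, rfl⟩ ⟨c, hc, d, hd, rfl⟩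
    exact ⟨a * c + y * (b * d), add_mem (mul_mem ha hc) (mul_mem hy (mul_mem hb hd)),
      a * d + b * c, add_mem (mul_mem ha hd) (mul_mem hb hc), by
        linear_combination (b * d) * hθ⟩
  one_mem' := ⟨1, one_mem _, 0, zero_mem _, by ring⟩
  add_mem' := by
    rintro _ _ ⟨a, ha, b, hb, rfl⟩ ⟨c, hc, d, hd, rfl⟩
    exact ⟨a + c, add_mem ha hc, b + d, add_mem hb hd, by ring⟩
  zero_mem' := ⟨0, zero_mem _, 0, zero_mem _, by ring⟩
  neg_mem' := by
    rintro _ ⟨a, ha, b, hb, rfl⟩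
    exact ⟨-a, neg_mem ha, -b, neg_mem hb, by ring⟩
  inv_mem' := by
    rintro _ ⟨a, ha, b, hb, rfl⟩
    by_cases h0 : a + b * θ = 0
    · rw [h0, inv_zero]
      exact ⟨0, zero_mem _, 0, zero_mem _, by ring⟩
    · have hN : a ^ 2 - y * b ^ 2 ≠ 0 := by
        intro h
        have h1 : (a + b * θ) * (a - b * θ) = 0 := by
          linear_combination h - b ^ 2 * hθ
        have h2 : a - b * θ = 0 := (mul_eq_zero.1 h1).resolve_left h0
        by_cases hb0 : b = 0
        · rw [hb0, zero_mul, sub_zero] at h2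
          apply h0
          rw [hb0, h2]
          ring
        · apply hns
          have h3 : θ = a / b := by
            rw [eq_div_iff hb0]
            linear_combination -h2
          rw [h3]
          exact div_mem ha hb
      have hNK : a ^ 2 - y * b ^ 2 ∈ K := sub_mem (pow_mem ha 2) (mul_mem hy (pow_mem hb 2))
      refine ⟨a / (a ^ 2 - y * b ^ 2), div_mem ha hNK, -b / (a ^ 2 - y * b ^ 2),
        div_mem (neg_mem hb) hNK, ?_⟩
      symm
      apply eq_inv_of_mul_eq_one_left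
      field_simp
      linear_combination -b ^ 2 * hθ

end SQX_

theorem sqx_proof : Stmt_SQX := by
  intro Ω _ _ K h2 y hy
  obtain ⟨θ, hθ⟩ := IsAlgClosed.exists_pow_nat_eq ((y : K) : Ω) (n := 2) (by norm_num)
  have hy0 : ((y : K) : Ω) ≠ 0 := by
    intro h
    exact y.ne_zero (Subtype.ext h)
  have hθ0 : θ ≠ 0 := by
    intro h
    apply hy0
    rw [← hθ, h]
    ring
  have hns : θ ∉ K := by
    intro h
    apply hy
    have h0 : (⟨θ, h⟩ : K) ≠ 0 := fun h => hθ0 (congrArg Subtype.val h)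
    refine ⟨Units.mk0 ⟨θ, h⟩ h0, ?_⟩
    apply Units.ext
    apply Subtype.ext
    show ((y : K) : Ω) = θ * θ
    rw [← hθ]
    ring
  let K' := SQX_.adj K ((y : K) : Ω) (y : K).2 θ hθ hns
  have hle : K ≤ K' := by
    intro a ha
    exact ⟨a, ha, 0, zero_mem _, by ring⟩
  have hθK : θ ∈ K' := ⟨0, zero_mem _, 1, one_mem _, by ring⟩
  refine ⟨K', hle, ?_⟩
  letI : Algebra K K' := (Subfield.inclusion hle).toAlgebra
  have hmap : ∀ a : K, ((algebraMap K K' a : K') : Ω) = a := fun a => rfl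
  obtain ⟨E, hE⟩ := ETT.QDX_.qd_of (F := K) (K := K') ⟨θ, hθK⟩ (y : K)
    (by
      apply Subtype.ext
      rw [hmap]
      exact hθ)
    (by
      intro a ha
      apply hns
      have h1 := congrArg (fun z : K' => (z : Ω)) ha
      simp only at h1
      rw [hmap] at h1
      rw [← h1]
      exact a.2)
    (by
      rintro ⟨z, a, ha, b, hb, hz⟩
      refine ⟨⟨a, ha⟩, ⟨b, hb⟩, ?_⟩
      apply Subtype.ext
      exact hz)
  exact ⟨E, Units.ext hE⟩

end Pool.Agent.ETG
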