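import Pool.Agent.ETG.Stmts

set_option autoImplicit false

namespace Pool.Agent.ETG

open scoped BigOperators
open Pool.Agent.EWG

theorem sta_proof (hUNQ : Stmt_UNQ) : Stmt_STA := by
  intro V V' W _ _ _ _ _ _ Z Z' ZW π res x hZ _hZ' hW hfac hnd hind hne hx k C hOS k' C' hfree
  obtain ⟨j, u1, u2, u3, u4⟩ := hUNQ V W Z ZW π hZ hW hfac hnd hind hne k C hOS
  have hpx : C.p j x = 0 := by
    apply u2 _ (C.idem j x)
    rw [u1, hx]
  obtain ⟨j', f1, f2, f3, f4⟩ : ∃ j', ZFree Z Z' res (C.p j) (C'.p j') := by
    rcases hfree j with h | h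
    · exact absurd hpx h
    · exact h
  set p := C.p j with hp
  set p' := C'.p j' with hp'
  have pid : ∀ v, p (p v) = p v := C.idem j
  have pid' : ∀ v, p' (p' v) = p' v := C'.idem j'
  -- the map from range p to range p'
  let g : LinearMap.range p →ₗ[ZMod 2] LinearMap.range p' :=
    p'.rangeRestrict.comp (res.comp (LinearMap.range p).subtype)
  have hmem : ∀ v : LinearMap.range p, p (v : V) = v := by
    rintro ⟨v, w, rfl⟩
    exact pid w
  have gval : ∀ v : LinearMap.range p, ((g v : LinearMap.range p') : V') = p' (res v) := fun v => rfl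
  have gbij : Function.Bijective g := by
    constructor
    · rw [injective_iff_map_eq_zero]
      intro v hv
      have : p' (res (v : V)) = 0 := by rw [← gval, hv]; rfl
      exact Subtype.ext (f3 v (hmem v) this)
    · rintro ⟨w, w0, rfl⟩
      obtain ⟨v, hv, hv2⟩ := f2 w0
      refine ⟨⟨v, ⟨v, hv⟩⟩, ?_⟩
      apply Subtype.ext
      rw [gval]
      exact hv2
  let e := LinearEquiv.ofBijective g gbij
  have eval : ∀ v : LinearMap.range p, ((e v : LinearMap.range p') : V') = p' (res v) := fun v => rfl
  -- the map from range p to W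
  let h : LinearMap.range p →ₗ[ZMod 2] W := π.comp (LinearMap.range p).subtype
  have hbij : Function.Bijective h := by
    constructor
    · rw [injective_iff_map_eq_zero]
      intro v hv
      exact Subtype.ext (u2 v (hmem v) hv)
    · intro w
      obtain ⟨v, hv, hv2⟩ := u3 w
      exact ⟨⟨v, ⟨v, hv⟩⟩, hv2⟩
  let ε := LinearEquiv.ofBijective h hbij
  have εval : ∀ v : LinearMap.range p, ε v = π (v : V) := fun v => rfl
  let π' : V' →ₗ[ZMod 2] W := h.comp (e.symm.toLinearMap.comp p'.rangeRestrict)
  have π'val : ∀ u, π' u = π ((e.symm (p'.rangeRestrict u) : LinearMap.range p) : V) := fun u => rfl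
  have key : ∀ u, p' (res ((e.symm (p'.rangeRestrict u) : LinearMap.range p) : V)) = p' u := by
    intro u
    rw [← eval, LinearEquiv.apply_symm_apply]
    rfl
  have hπ' : ∀ (a : LinearMap.range p) (u : V'), p' (res (a : V)) = p' u → π' u = π (a : V) := by
    intro a u hau
    rw [π'val]
    have : e.symm (p'.rangeRestrict u) = a := by
      rw [LinearEquiv.symm_apply_eq]
      apply Subtype.ext
      rw [eval, hau]
      rfl
    rw [this]
  refine ⟨π', ⟨p'.comp (res.comp ((LinearMap.range p).subtype.comp ε.symm.toLinearMap)),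
    ?_, ?_, ?_, ?_⟩, ?_⟩
  · intro w
    have := hπ' (ε.symm w) (p' (res ((ε.symm w : LinearMap.range p) : V))) (by rw [pid'])
    show π' (p' (res ((ε.symm w : LinearMap.range p) : V))) = w
    rw [this, ← εval, LinearEquiv.apply_symm_apply]
  · intro w u hu
    show Z' (p' (res ((ε.symm w : LinearMap.range p) : V))) u
    have h0 : ((e.symm (p'.rangeRestrict u) : LinearMap.range p) : V) = 0 :=
      u2 _ (hmem _) (by rw [← π'val]; exact hu)
    have h1 : p' u = 0 := by
      rw [← key u, h0, map_zero, map_zero]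
    have h2 := C'.perp j' (res ((ε.symm w : LinearMap.range p) : V)) u
    rw [← hp', h1, add_zero] at h2
    exact h2
  · intro v v' hvv'
    have h1 := C'.ind v v' hvv' j'
    rw [← hp', ← key v, ← key v', f4 _ _ (hmem _) (hmem _), u4 _ _ (hmem _) (hmem _)] at h1
    exact h1
  · intro w w' hww'
    show Z' (p' (res ((ε.symm w : LinearMap.range p) : V)))
      (p' (res ((ε.symm w' : LinearMap.range p) : V)))
    rw [f4 _ _ (hmem _) (hmem _), u4 _ _ (hmem _) (hmem _), ← εval, ← εval,
      LinearEquiv.apply_symm_apply, LinearEquiv.apply_symm_apply]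
    exact hww'
  · intro v
    have h1 := hπ' ⟨p v, v, rfl⟩ (res v) (f1 v).symm
    rw [h1]
    exact u1 v

end Pool.Agent.ETG
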