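import Pool.Agent.ETG.Stmts

set_option autoImplicit false

/-!
# STF: one step, a square class with component `0` becomes trivial
-/

namespace Pool.Agent.ETG

open scoped BigOperators
open Pool.Agent.EWG

theorem stf_proof (hDSF : Stmt_DSF) (hTOW : Stmt_TOW) (hSQX : Stmt_SQX) (hSTA : Stmt_STA)
    (hZFL : Stmt_ZFL) (hFIN : Pool.Agent.EWG.Stmt_FIN) : Stmt_STF := by
  intro Ω W _ _ _ _ ZW hLW hND hInd hne K π hM y hy
  obtain ⟨hG, hfin, hFac⟩ := hM
  by_cases hy0 : y = 0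
  · refine ⟨K, le_rfl, π, ⟨hG, hfin, hFac⟩, ?_, ?_⟩
    · intro v
      congr 1
      obtain ⟨a, rfl⟩ := vm_surj v
      rw [vmap_vm]
      congr 1
    · rw [hy0, map_zero]
  · obtain ⟨a, rfl⟩ := vm_surj y
    have hns : ¬ IsSquare a := by
      intro hsq
      exact hy0 ((vm_eq_zero a).mpr hsq)
    have h2 : (2 : Ω) ≠ 0 := by
      intro h0
      apply hG.two
      apply Subtype.ext
      exact h0
    obtain ⟨K', h, hE⟩ := hSQX Ω K h2 a hns
    let _ : Algebra K K' := (Subfield.inclusion h).toAlgebra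
    obtain ⟨E, hEx⟩ := hE
    -- decompositions exist
    have hP := hTOW (fun L _ => ∃ (k : ℕ) (C : ZDec (Zf L) k), C.OS)
      (fun F L _ _ _ hGF hfF E' ⟨k', C', hC'⟩ => by
        obtain ⟨k, C, hC, -⟩ := hDSF F L hGF hfF E' k' C' hC'
        exact ⟨k, C, hC⟩)
      (fun L _ _ _ hL => hL)
    have hG' : Good K' := Good.map (Subfield.inclusion h) hG
    have hfin' : Finite (VV K') := (hFIN K hG hfin).2 K' E
    obtain ⟨k', C', hC'⟩ := hP K' hG' hfin'
    obtain ⟨k, C, hC, hCj⟩ := hDSF K K' hG hfin E k' C' hC'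
    rw [hEx] at hCj
    obtain ⟨π', hFac', hπ'⟩ := hSTA (VV K) (VV K') W (Zf K) (Zf K') ZW π (rv K K') (vm a)
      (hZFL K hG).1 (hZFL K' hG').1 hLW hFac hND hInd hne hy k C hC k' C' hCj
    refine ⟨K', h, π', ⟨hG', hfin', hFac'⟩, hπ', ?_⟩
    rw [vmap_vm, vm_eq_zero]
    refine ⟨E.θ, ?_⟩
    apply Units.ext
    rw [Units.val_mul, ← pow_two, E.sq, hEx]
    rfl

end Pool.Agent.ETG
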