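import Pool.Agent.ETG.Stmts

/-!
Squad ETG, module SUP: all square classes with component `0` become trivial.
-/

set_option autoImplicit false

namespace Pool.Agent.ETG

open Pool.Agent.EWG

namespace SUP_

theorem vmap_incl {Ω : Type} [Field Ω] {K K' K'' : Subfield Ω} (h : K ≤ K') (h' : K' ≤ K'')
    (v : VV K) : vmap (Subfield.inclusion h') (vmap (Subfield.inclusion h) v) =
      vmap (Subfield.inclusion (h.trans h')) v := by
  rw [vmap_comp]
  rfl

theorem list_step (hSTF : Stmt_STF) (Ω W : Type) [Field Ω] [IsAlgClosed Ω] [AddCommGroup W]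
    [Module (ZMod 2) W] (ZW : W → W → Prop) (h1 : LZ ZW) (h2 : ND ZW) (h3 : Indec ZW)
    (h4 : ∃ w : W, w ≠ 0) (K : Subfield Ω) (π : VV K →ₗ[ZMod 2] W) (hM : Mark K ZW π)
    (l : List (VV K)) : (∀ y ∈ l, π y = 0) →
    ∃ (K' : Subfield Ω) (h : K ≤ K') (π' : VV K' →ₗ[ZMod 2] W), Mark K' ZW π' ∧
    (∀ v, π' (vmap (Subfield.inclusion h) v) = π v) ∧
    ∀ y ∈ l, vmap (Subfield.inclusion h) y = 0 := by
  induction l with
  | nil =>
    intro _
    refine ⟨K, le_refl K, π, hM, ?_, ?_⟩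
    · intro v
      have h : Subfield.inclusion (le_refl K) = RingHom.id K := RingHom.ext fun x => rfl
      rw [h, vmap_id]
    · intro y hy
      cases hy
  | cons y l ih =>
    intro hl
    obtain ⟨K', h, π', hM', hπ', hl'⟩ := ih fun z hz => hl z (List.mem_cons_of_mem y hz)
    obtain ⟨K'', h', π'', hM'', hπ'', hy⟩ := hSTF Ω W ZW h1 h2 h3 h4 K' π' hM'
      (vmap (Subfield.inclusion h) y) (by rw [hπ']; exact hl y List.mem_cons_self)
    refine ⟨K'', h.trans h', π'', hM'', ?_, ?_⟩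
    · intro v
      rw [← vmap_incl h h', hπ'', hπ']
    · intro z hz
      rw [← vmap_incl h h']
      rcases List.mem_cons.1 hz with rfl | hz
      · exact hy
      · rw [hl' z hz, map_zero]

end SUP_

theorem sup_proof (hSTF : Stmt_STF) : Stmt_SUP := by
  intro Ω W _ _ _ _ ZW h1 h2 h3 h4 K π hM
  have hfin := hM.2.1
  have hs : {y : VV K | π y = 0}.Finite := Set.toFinite _
  obtain ⟨K', h, π', hM', hπ', hl⟩ := SUP_.list_step hSTF Ω W ZW h1 h2 h3 h4 K π hM
    hs.toFinset.toList (fun y hy => by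
      rw [Finset.mem_toList, Set.Finite.mem_toFinset] at hy
      exact hy)
  refine ⟨K', h, π', hM', hπ', fun y hy => hl y ?_⟩
  rw [Finset.mem_toList, Set.Finite.mem_toFinset]
  exact hy

end Pool.Agent.ETG
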