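import Pool.Agent.ETG.Stmts

/-!
ETG / UNI: union of a chain of marked fields.
-/

set_option autoImplicit false

namespace Pool.Agent.ETG

open Pool.Agent.EWG

namespace UNI_

lemma vmap_incl {Ω : Type} [Field Ω] {A B C : Subfield Ω} (h : A ≤ B) (h' : B ≤ C) (h'' : A ≤ C)
    (v : VV A) : vmap (Subfield.inclusion h') (vmap (Subfield.inclusion h) v) =
      vmap (Subfield.inclusion h'') v := by
  rw [vmap_comp]; rfl

lemma dbl {W : Type} [AddCommGroup W] [Module (ZMod 2) W] (y : W) : y + y = 0 := by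
  have h : (2 : ZMod 2) = 0 := rfl
  calc y + y = (2 : ZMod 2) • y := by rw [two_smul]
    _ = 0 := by rw [h, zero_smul]

/-- lifting of a unit to a subfield which contains it -/
lemma lift_unit {Ω : Type} [Field Ω] {A B : Subfield Ω} (h : A ≤ B) (u : (B)ˣ)
    (hu : ((u : B) : Ω) ∈ A) : ∃ u' : (A)ˣ,
      Units.map (Subfield.inclusion h).toMonoidHom u' = u := by
  have h0 : (⟨((u : B) : Ω), hu⟩ : A) ≠ 0 := by
    intro h0
    have h1 : ((u : B) : Ω) = 0 := congrArg (fun z : A => (z : Ω)) h0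
    exact u.ne_zero (Subtype.ext h1)
  refine ⟨Units.mk0 _ h0, ?_⟩
  apply Units.ext
  apply Subtype.ext
  rfl

end UNI_

open UNI_ in
theorem uni_proof (hPFZ : EWG.Stmt_PFZ) (hZMP : Stmt_ZMP) (hZFL : Stmt_ZFL) : Stmt_UNI := by
  intro Ω W _ _ _ ZW K h π hgood hcomp hsurj hZ hker hlift
  have hmono : Monotone K := monotone_nat_of_le_succ h
  have hcomp' : ∀ (n m : ℕ) (hnm : K n ≤ K m), n ≤ m → ∀ v,
      π m (vmap (Subfield.inclusion hnm) v) = π n v := by
    intro n m hnm hle
    induction m, hle using Nat.le_induction with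
    | base =>
      intro v
      have : (Subfield.inclusion hnm) = RingHom.id (K n) := rfl
      rw [this, vmap_id]
    | succ m hle ih =>
      intro v
      rw [← vmap_incl (hmono hle) (h m) hnm, hcomp, ih (hmono hle)]
  let E : Subfield Ω := ⨆ n, K n
  have hmem : ∀ x : Ω, x ∈ E ↔ ∃ n, x ∈ K n := fun x =>
    Subfield.mem_iSup_of_directed (hmono.directed_le)
  have hle : ∀ n, K n ≤ E := fun n => le_iSup K n
  have hE : K 0 ≤ E := hle 0
  have hGE : Good E := (hgood 0).map (Subfield.inclusion hE)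
  have hkerE : ∀ n (v : VV (K n)), π n v = 0 → vmap (Subfield.inclusion (hle n)) v = 0 := by
    intro n v hv
    obtain ⟨m, hm, hm'⟩ := hker n v hv
    rw [← vmap_incl hm (hle m) (hle n), hm', map_zero]
  refine ⟨E, hE, hGE, ?_, ?_, ?_⟩
  · intro w
    obtain ⟨u, rfl⟩ := vm_surj w
    obtain ⟨n, hn⟩ := (hmem _).1 (u : E).2
    obtain ⟨u', hu'⟩ := lift_unit (hle n) u hn
    obtain ⟨v, hv⟩ := hsurj (π n (vm u'))
    refine ⟨v, ?_⟩
    have h1 : π n (vm u' + vmap (Subfield.inclusion (hmono (Nat.zero_le n))) v) = 0 := by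
      rw [map_add, hcomp' 0 n _ (Nat.zero_le n), hv, dbl]
    have h2 := hkerE n _ h1
    rw [map_add, vmap_incl _ _ hE, vmap_vm, hu'] at h2
    calc vmap (Subfield.inclusion hE) v = (vm u + vm u) + vmap (Subfield.inclusion hE) v := by
          rw [vm_add_self, zero_add]
      _ = vm u := by rw [add_assoc, h2, add_zero]
  · intro v
    constructor
    · intro hv
      obtain ⟨a, rfl⟩ := vm_surj v
      rw [vmap_vm, vm_eq_zero] at hv
      obtain ⟨c, hc⟩ := hv
      obtain ⟨n, hn⟩ := (hmem _).1 (c : E).2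
      obtain ⟨c', hc'⟩ := lift_unit (hle n) c hn
      have h1 : vmap (Subfield.inclusion (hmono (Nat.zero_le n))) (vm a) = 0 := by
        rw [vmap_vm, vm_eq_zero]
        refine ⟨c', ?_⟩
        apply Units.ext
        apply Subtype.ext
        have h2 := congrArg (fun z : (E)ˣ => ((z : E) : Ω)) hc
        have h3 := congrArg (fun z : (E)ˣ => ((z : E) : Ω)) hc'
        change ((a : K 0) : Ω) = ((c : E) : Ω) * ((c : E) : Ω) at h2
        change ((c' : K n) : Ω) = ((c : E) : Ω) at h3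
        change ((a : K 0) : Ω) = ((c' : K n) : Ω) * ((c' : K n) : Ω)
        rw [h3, h2]
      rw [← hcomp' 0 n (hmono (Nat.zero_le n)) (Nat.zero_le n), h1, map_zero]
    · exact hkerE 0 v
  · intro v v'
    constructor
    · intro hv
      obtain ⟨a, rfl⟩ := vm_surj v
      obtain ⟨b, rfl⟩ := vm_surj v'
      rw [vmap_vm, vmap_vm, (hZFL E hGE).2.1, hPFZ E hGE] at hv
      obtain ⟨s, t, hst⟩ := hv
      obtain ⟨n, hn⟩ := (hmem _).1 s.2
      obtain ⟨m, hm⟩ := (hmem _).1 t.2
      have hsn : (s : Ω) ∈ K (max n m) := hmono (le_max_left n m) hn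
      have htn : (t : Ω) ∈ K (max n m) := hmono (le_max_right n m) hm
      have h1 : Zf (K (max n m)) (vmap (Subfield.inclusion (hmono (Nat.zero_le _))) (vm a))
          (vmap (Subfield.inclusion (hmono (Nat.zero_le _))) (vm b)) := by
        rw [vmap_vm, vmap_vm, (hZFL _ (hgood _)).2.1, hPFZ _ (hgood _)]
        refine ⟨⟨s, hsn⟩, ⟨t, htn⟩, ?_⟩
        apply Subtype.ext
        exact congrArg (fun z : E => (z : Ω)) hst
      have h2 := hZ _ _ _ h1
      rwa [hcomp' 0 _ _ (Nat.zero_le _), hcomp' 0 _ _ (Nat.zero_le _)] at h2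
    · intro hv
      obtain ⟨m, hm, hm'⟩ := hlift v v' hv
      have h1 := hZMP _ _ (Subfield.inclusion (hle m)) (hgood m) _ _ hm'
      rwa [vmap_incl hm (hle m) hE, vmap_incl hm (hle m) hE] at h1

end Pool.Agent.ETG
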