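import Pool.Agent.ETG.Stmts

/-!
# ETG, UNQ: uniqueness, an indecomposable nondegenerate factor is a component
-/

set_option autoImplicit false

namespace Pool.Agent.ETG

open scoped BigOperators

namespace UNQ_

section
variable {V : Type} [AddCommGroup V] [Module (ZMod 2) V] {Z : V → V → Prop}

theorem aa (v : V) : v + v = 0 := by
  have h : ((1 : ZMod 2) + 1) • v = v + v := by rw [add_smul, one_smul]
  rw [← h, show (1 : ZMod 2) + 1 = 0 from by decide, zero_smul]

theorem canc (v w : V) : v + (v + w) = w := by rw [← add_assoc, aa, zero_add]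

theorem addl (h : LZ Z) {a b c : V} (h1 : Z a c) (h2 : Z b c) : Z (a + b) c :=
  h.symm _ _ (h.add _ _ _ (h.symm _ _ h1) (h.symm _ _ h2))

theorem zerol (h : LZ Z) (a : V) : Z 0 a := h.symm _ _ (h.zero a)

/-- `q(a,b) = q(a,d)` -/
theorem eqR (h : LZ Z) {a b d : V} (h1 : Z a (b + d)) : EqQ Z a b a d := by
  refine ⟨b, ?_, ?_, ?_⟩
  · rw [aa]; exact h.zero a
  · rw [add_comm]; exact h1
  · rw [aa]; exact zerol h b

/-- `q(a,b) = q(c,b)` -/
theorem eqL (h : LZ Z) {a b c : V} (h1 : Z (a + c) b) : EqQ Z a b c b := by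
  refine ⟨b, ?_, ?_, h1⟩
  · rw [aa]; exact h.zero a
  · rw [aa]; exact h.zero c

theorem ofEqR (h : LZ Z) {a b d : V} (h1 : EqQ Z a b a d) : Z a (b + d) := by
  obtain ⟨x, h2, h3, -⟩ := h1
  have h4 := h.add _ _ _ h2 h3
  have h5 : b + x + (d + x) = b + d := by
    rw [add_add_add_comm, aa, add_zero]
  rwa [h5] at h4

theorem trs (h : LZ Z) {a b c d a' b' : V} (h1 : EqQ Z a b c d) (h2 : EqQ Z c d a' b') :
    EqQ Z a b a' b' := h.trans _ _ _ _ _ _ h1 h2

end

section
variable {V W : Type} [AddCommGroup V] [Module (ZMod 2) V] [AddCommGroup W] [Module (ZMod 2) W]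
  {Z : V → V → Prop} {ZW : W → W → Prop} {π : V →ₗ[ZMod 2] W} {s : W →ₗ[ZMod 2] V}

theorem main (hIDC : Stmt_IDC) (hZ : LZ Z) (s1 : ∀ w, π (s w) = w)
    (s2 : ∀ w u, π u = 0 → Z (s w) u) (s3 : ∀ v v', Z v v' → ZW (π v) (π v'))
    (s4 : ∀ w w', ZW w w' → Z (s w) (s w')) (hND : ND ZW) (hIn : Indec ZW)
    (hW : ∃ w : W, w ≠ 0) {k : ℕ} (C : ZDec Z k) (hC : C.OS) :
    ∃ j, (∀ v, π (C.p j v) = π v) ∧ (∀ v, C.p j v = v → π v = 0 → v = 0) ∧
      (∀ w, ∃ v, C.p j v = v ∧ π v = w) ∧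
      ∀ v v', C.p j v = v → C.p j v' = v' → (Z v v' ↔ ZW (π v) (π v')) := by
  -- (0)
  have p0 : ∀ w v, Z (s w) (v + s (π v)) := by
    intro w v
    apply s2
    rw [map_add, s1, aa]
  have prad : ∀ r, (∀ w, Z r w) → π r = 0 := by
    intro r hr
    apply hND
    intro w'
    have := s3 _ _ (hr (s w'))
    rwa [s1] at this
  have psum : ∀ v, ∑ l, π (C.p l v) = π v := by
    intro v
    have h1 := prad _ (C.rad v)
    rw [map_add, map_sum] at h1
    have h2 := canc (π v) (∑ l, π (C.p l v))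
    rw [h1, add_zero] at h2
    exact h2.symm
  -- (1)
  have key : ∀ l m, l ≠ m → ∀ v, C.p l (s (π (C.p m v))) = 0 := by
    intro l m hlm v
    apply C.nd l
    intro w
    set a' := C.p m v with ha'
    set u := s (π a') with hu
    set w' := C.p l w with hw'
    have e1 : EqQ Z (C.p l u) w' u w' := by
      apply eqL hZ
      rw [add_comm]
      exact hZ.symm _ _ (C.perp l w u)
    have e2 : EqQ Z u w' u (s (π w')) := eqR hZ (p0 _ _)
    have e3 : EqQ Z u (s (π w')) a' (s (π w')) := by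
      apply eqL hZ
      rw [add_comm]
      exact hZ.symm _ _ (p0 _ _)
    obtain ⟨x, h1, h2, h3⟩ := trs hZ e1 (trs hZ e2 e3)
    have h4 := C.ind _ _ h3 l
    rw [map_add, C.idem, ha', C.orth l m hlm, add_zero] at h4
    have h5 := hZ.add _ _ _ h4 (C.perp l u x)
    rw [add_comm (C.p l x), add_assoc, aa, add_zero] at h5
    have h6 := hZ.add _ _ _ h5 h1
    rwa [add_comm w' x, canc] at h6
  -- (2)
  have fz : ∀ l m, l ≠ m → ∀ w, π (C.p l (s (π (C.p m (s w))))) = 0 := by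
    intro l m hlm w
    rw [key l m hlm, map_zero]
  have fidem : ∀ l w, π (C.p l (s (π (C.p l (s w))))) = π (C.p l (s w)) := by
    intro l w
    have h1 := psum (s w)
    rw [s1] at h1
    conv_rhs => rw [← h1]
    rw [map_sum, map_sum, map_sum]
    rw [Finset.sum_eq_single_of_mem l (Finset.mem_univ l)]
    intro m _ hm
    exact fz l m (Ne.symm hm) w
  have hf : ∀ l, (∀ w, π (C.p l (s w)) = 0) ∨ ∀ w, π (C.p l (s w)) = w := by
    intro l
    refine hIn (π ∘ₗ C.p l ∘ₗ s) (fun w => fidem l w) (fun v w => ?_) (fun v w hvw => ?_)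
    · have h1 := s3 _ _ (C.perp l (s v) (s w))
      rwa [map_add, s1] at h1
    · exact s3 _ _ (C.ind _ _ (s4 _ _ hvw) l)
  obtain ⟨w0, hw0⟩ := hW
  have hj : ∃ j, ∀ w, π (C.p j (s w)) = w := by
    by_contra hc
    push Not at hc
    apply hw0
    have h1 := psum (s w0)
    rw [s1] at h1
    rw [← h1]
    apply Finset.sum_eq_zero
    intro l _
    rcases hf l with h | h
    · exact h w0
    · obtain ⟨w, hw⟩ := hc l
      exact absurd (h w) hw
  obtain ⟨j, hj⟩ := hj
  -- (3)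
  have h3 : ∀ l, l ≠ j → ∀ v, π (C.p l v) = 0 := by
    intro l hl v
    apply hND
    intro w
    have h1 := C.perp l v (C.p j (s w))
    rw [C.orth l j hl, add_zero] at h1
    have h2 := s3 _ _ h1
    rwa [hj] at h2
  have hπ : ∀ v, π (C.p j v) = π v := by
    intro v
    rw [← psum v, Finset.sum_eq_single_of_mem j (Finset.mem_univ j)]
    intro l _ hl
    exact h3 l hl v
  -- (4)
  let f : V →ₗ[ZMod 2] V := C.p j ∘ₗ s ∘ₗ π ∘ₗ C.p j
  have hfv : ∀ v, f v = C.p j (s (π (C.p j v))) := fun v => rfl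
  have hf4 := hIDC V Z hZ k C hC j f (fun v => by rw [hfv, hfv, C.idem])
    (fun v => by rw [hfv, C.idem]) (fun v => by
      rw [hfv, hfv, C.idem, hj])
    (fun v w => by
      rw [hfv, hfv]
      apply ofEqR hZ
      set a := s (π (C.p j v)) with ha
      have e1 : EqQ Z (C.p j a) w (C.p j a) (C.p j w) := eqR hZ (C.perp j a w)
      have e2 : EqQ Z (C.p j a) (C.p j w) a (C.p j w) := by
        apply eqL hZ
        rw [add_comm]
        exact hZ.symm _ _ (C.perp j w a)
      have e3 : EqQ Z a (C.p j w) a (s (π (C.p j w))) := eqR hZ (p0 _ _)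
      have e4 : EqQ Z a (s (π (C.p j w))) (C.p j a) (s (π (C.p j w))) := by
        apply eqL hZ
        apply hZ.symm
        apply s2
        rw [map_add, hπ, aa]
      have e5 : EqQ Z (C.p j a) (s (π (C.p j w))) (C.p j a) (C.p j (s (π (C.p j w)))) :=
        eqR hZ (C.perp j a _)
      exact trs hZ e1 (trs hZ e2 (trs hZ e3 (trs hZ e4 e5))))
    (fun v w hvw => by
      rw [hfv, hfv]
      exact C.ind _ _ (s4 _ _ (s3 _ _ (C.ind _ _ hvw j))) j)
  have hf5 : ∀ v, f v = C.p j v := by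
    rcases hf4 with h | h
    · exfalso
      apply hw0
      have h1 := h (s w0)
      rw [hfv, hj] at h1
      rw [← hj w0, h1, map_zero]
    · exact h
  have hf6 : ∀ v, C.p j v = v → C.p j (s (π v)) = v := by
    intro v hv
    have h1 := hf5 v
    rw [hfv, hv] at h1
    exact h1
  refine ⟨j, hπ, fun v hv hv0 => ?_, fun w => ⟨C.p j (s w), C.idem j _, hj w⟩,
    fun v v' hv hv' => ⟨s3 v v', fun h => ?_⟩⟩
  · have h1 := hf6 v hv
    rw [hv0, map_zero, map_zero] at h1
    exact h1.symm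
  · have h1 := C.ind _ _ (s4 _ _ h) j
    rwa [hf6 v hv, hf6 v' hv'] at h1

end

end UNQ_

open UNQ_ in
theorem unq_proof (hIDC : Stmt_IDC) : Stmt_UNQ := by
  intro V W _ _ _ _ Z ZW π hZ _ hFac hND hIn hW k C hC
  obtain ⟨s, s1, s2, s3, s4⟩ := hFac
  exact main hIDC hZ s1 s2 s3 s4 hND hIn hW C hC

end Pool.Agent.ETG
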