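import Pool.Agent.ETG.Stmts

/-!
Squad ETG, module ZFL: the relation `Z` of a field.
-/

set_option autoImplicit false

namespace Pool.Agent.ETG

open Pool.Agent.EWG

namespace ZFL_

variable {K : Type} [Field K]

theorem add_eq_zero' (c d : W K) : c + d = 0 ↔ c = d := by
  constructor
  · intro h
    calc c = c + (d + d) := by rw [add_self', add_zero]
      _ = d := by rw [← add_assoc, h, zero_add]
  · rintro rfl
    exact add_self' c

theorem br_congr (hREL : Pool.Agent.EWG.Stmt_REL) (hK : Good K) {a b : Kˣ} (h : vm a = vm b) :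
    br a = br b :=
  ((hREL K hK).1 a b).2 ((vm_eq_iff a b).1 h)

theorem pf_congr (hREL : Pool.Agent.EWG.Stmt_REL) (hK : Good K) {a b a' b' : Kˣ}
    (h : vm a = vm a') (h' : vm b = vm b') : pf a b = pf a' b' := by
  unfold pf pf1
  rw [br_congr hREL hK h, br_congr hREL hK h']

theorem Zf_iff (hREL : Pool.Agent.EWG.Stmt_REL) (hK : Good K) (a b : Kˣ) :
    Zf K (vm a) (vm b) ↔ pf a b = 0 := by
  constructor
  · intro h
    exact h a b rfl rfl
  · intro h a' b' ha hb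
    rw [pf_congr hREL hK ha hb, h]

theorem br_self (hREL : Pool.Agent.EWG.Stmt_REL) (hK : Good K) (a : Kˣ) : br a * br a = 1 := by
  have h := (hREL K hK).2.2.2 1 a
  rw [one_mul, br_one, pow_two, br_mul] at h
  exact h

/-- additivity in the second slot -/
theorem pf_mul (hREL : Pool.Agent.EWG.Stmt_REL) (hK : Good K) (a b x : Kˣ) :
    pf a (b * x) = 0 ↔ pf a b = pf a x := by
  have h1 : br b * pf a (b * x) = pf a b + pf a x := by
    have h2 := br_self hREL hK b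
    have h3 := add_self' (1 : W K)
    unfold pf pf1
    rw [br_mul]
    linear_combination (1 + br a) * br x * h2 - (1 + br a) * h3
  rw [← add_eq_zero' (pf a b), ← h1]
  constructor
  · intro h
    rw [h, mul_zero]
  · intro h
    have h2 := congrArg (fun c => br b * c) h
    simp only [mul_zero, ← mul_assoc, br_self hREL hK b, one_mul] at h2
    exact h2

theorem pf_mul' (hREL : Pool.Agent.EWG.Stmt_REL) (hK : Good K) (a c x : Kˣ) :
    pf (a * c) x = 0 ↔ pf a x = pf c x := by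
  rw [pf_comm, pf_mul hREL hK, pf_comm, pf_comm x c]

theorem pf_one (a : Kˣ) : pf a 1 = 0 := by
  unfold pf pf1
  rw [br_one, add_self', mul_zero]

theorem pf_self (hREL : Pool.Agent.EWG.Stmt_REL) (hK : Good K) (a : Kˣ) : pf a a = 0 := by
  have h2 := br_self hREL hK a
  have h3 := add_self' (1 : W K)
  have h4 := add_self' (br a)
  unfold pf pf1
  linear_combination h2 + h3 + h4

theorem EqQ_iff (hREL : Pool.Agent.EWG.Stmt_REL) (hLNK : Pool.Agent.EWG.Stmt_LNK) (hK : Good K)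
    (a b c d : Kˣ) : EqQ (Zf K) (vm a) (vm b) (vm c) (vm d) ↔ pf a b = pf c d := by
  constructor
  · rintro ⟨x, h1, h2, h3⟩
    obtain ⟨x, rfl⟩ := vm_surj x
    rw [← vm_mul, Zf_iff hREL hK, pf_mul hREL hK] at h1 h2
    rw [← vm_mul, Zf_iff hREL hK, pf_mul' hREL hK] at h3
    rw [h1, h2, h3]
  · intro h
    obtain ⟨x, h1, h2⟩ := hLNK K hK a b c d h
    refine ⟨vm x, ?_, ?_, ?_⟩
    · rw [← vm_mul, Zf_iff hREL hK, pf_mul hREL hK, h1]
    · rw [← vm_mul, Zf_iff hREL hK, pf_mul hREL hK, h2, h]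
    · rw [← vm_mul, Zf_iff hREL hK, pf_mul' hREL hK, h1, h2]

end ZFL_

open ZFL_

theorem zfl_proof (hREL : Pool.Agent.EWG.Stmt_REL) (_hPFZ : Pool.Agent.EWG.Stmt_PFZ)
    (hLNK : Pool.Agent.EWG.Stmt_LNK) : Stmt_ZFL := by
  intro K _ hK
  refine ⟨⟨?_, ?_, ?_, ?_, ?_⟩, Zf_iff hREL hK, EqQ_iff hREL hLNK hK⟩
  · intro a b
    obtain ⟨a, rfl⟩ := vm_surj a
    obtain ⟨b, rfl⟩ := vm_surj b
    rw [Zf_iff hREL hK, Zf_iff hREL hK, pf_comm]
    exact id
  · intro a
    obtain ⟨a, rfl⟩ := vm_surj a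
    rw [← vm_one, Zf_iff hREL hK, pf_one]
  · intro a b c
    obtain ⟨a, rfl⟩ := vm_surj a
    obtain ⟨b, rfl⟩ := vm_surj b
    obtain ⟨c, rfl⟩ := vm_surj c
    rw [← vm_mul, Zf_iff hREL hK, Zf_iff hREL hK, Zf_iff hREL hK, pf_mul hREL hK]
    intro h1 h2
    rw [h1, h2]
  · intro a
    obtain ⟨a, rfl⟩ := vm_surj a
    rw [Zf_iff hREL hK, pf_self hREL hK]
  · intro a b c d a' b'
    obtain ⟨a, rfl⟩ := vm_surj a
    obtain ⟨b, rfl⟩ := vm_surj b
    obtain ⟨c, rfl⟩ := vm_surj c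
    obtain ⟨d, rfl⟩ := vm_surj d
    obtain ⟨a', rfl⟩ := vm_surj a'
    obtain ⟨b', rfl⟩ := vm_surj b'
    rw [EqQ_iff hREL hLNK hK, EqQ_iff hREL hLNK hK, EqQ_iff hREL hLNK hK]
    intro h1 h2
    rw [h1, h2]

end Pool.Agent.ETG
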