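import Pool.Agent.ETG.Stmts

/-!
ETG: functoriality of the relation `Zf`.
-/

set_option autoImplicit false

namespace Pool.Agent.ETG

open Pool.Agent.EWG

theorem zmp_proof (hPFZ : EWG.Stmt_PFZ) : Stmt_ZMP := by
  intro K L _ _ f hK v w h a b ha hb
  obtain ⟨c, rfl⟩ := vm_surj v
  obtain ⟨d, rfl⟩ := vm_surj w
  rw [vmap_vm] at ha hb
  have hL : Good L := hK.map f
  have h1 : pf c d = 0 := h c d rfl rfl
  obtain ⟨s, t, hst⟩ := (hPFZ K hK c d).1 h1
  rw [vm_eq_iff] at ha hb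
  obtain ⟨x, hx⟩ := ha
  obtain ⟨y, hy⟩ := hb
  rw [hPFZ L hL]
  have hx' : (a : L) * f c = x * x := by
    have := congrArg Units.val hx
    simpa using this
  have hy' : (b : L) * f d = y * y := by
    have := congrArg Units.val hy
    simpa using this
  have hfc : f (c : K) ≠ 0 := (map_ne_zero f).2 c.ne_zero
  have hfd : f (d : K) ≠ 0 := (map_ne_zero f).2 d.ne_zero
  have hb' : (b : L) ≠ 0 := b.ne_zero
  have hx0 : (x : L) ≠ 0 := x.ne_zero
  have hy0 : (y : L) ≠ 0 := y.ne_zero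
  have hd : f (d : K) = f s ^ 2 + f c * f t ^ 2 := by
    rw [hst]; simp
  have hc : f (c : K) = (x : L) * x / a := by
    rw [eq_div_iff a.ne_zero, mul_comm]; exact hx'
  -- `b = y² / f d = (y / f d)² f d`
  refine ⟨y / f d * f s, y / f d * (x / a) * f t, ?_⟩
  have hbd : (b : L) = (y / f d) ^ 2 * f d := by
    field_simp
    rw [pow_two]
    exact hy'
  rw [hbd]
  conv_lhs => rw [show (y / f (d : K) : L) ^ 2 * f d = (y / f d) ^ 2 * (f s ^ 2 + f c * f t ^ 2) by rw [← hd]]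
  rw [mul_add, hc]
  have ha0 : (a : L) ≠ 0 := a.ne_zero
  field_simp

end Pool.Agent.ETG
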