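import Pool.Agent.EWG.All
import Pool.Agent.ETG.UNQ
import Pool.Agent.ETG.RIG
import Pool.Agent.ETG.KRS
import Pool.Agent.ETG.RGE
import Pool.Agent.ETG.UNI
import Pool.Agent.ETG.RGD
import Pool.Agent.ETG.QXT
import Pool.Agent.ETG.QDC
import Pool.Agent.ETG.STA
import Pool.Agent.ETG.STF
import Pool.Agent.ETG.SQX
import Pool.Agent.ETG.QLO
import Pool.Agent.ETG.ZFL
import Pool.Agent.ETG.QPR
import Pool.Agent.ETG.REA
import Pool.Agent.ETG.QEX
import Pool.Agent.ETG.LZR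
import Pool.Agent.ETG.IDC
import Pool.Agent.ETG.SUP
import Pool.Agent.ETG.RGS
import Pool.Agent.ETG.QFI
import Pool.Agent.ETG.QIS
import Pool.Agent.ETG.QRD
import Pool.Agent.ETG.ZMP
import Pool.Agent.ETG.FIN
import Pool.Agent.ETG.FINH

/-!
ETG: everything together.  From the descent and the tower to the general theorem.
-/

set_option autoImplicit false

namespace Pool.Agent.ETG

open Pool.Agent.EWG

theorem a_zfl : Stmt_ZFL := zfl_proof q_rel q_pfz q_lnk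
theorem a_zmp : Stmt_ZMP := zmp_proof q_pfz
theorem a_idc : Stmt_IDC := idc_proof
theorem a_unq : Stmt_UNQ := unq_proof a_idc
theorem a_sta : Stmt_STA := sta_proof a_unq
theorem a_lzr : Stmt_LZR := lzr_proof a_idc
theorem a_rig : Stmt_RIG := rig_proof
theorem a_qpr : Stmt_QPR := qpr_proof qex_proof qis_proof
theorem a_qrd : Stmt_QRD := qrd_proof a_qpr
theorem a_qdc : Stmt_QDC := qdc_proof a_qpr a_qrd a_lzr
theorem a_qxt : Stmt_QXT := qxt_proof a_rig qex_proof qis_proof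
theorem a_qlo : Stmt_QLO := qlo_proof a_qxt a_qrd
theorem a_krs : Stmt_KRS := krs_proof q_rkr q_pfz q_pf3 q_sp2 q_wz q_sdd q_rel
theorem a_uni : Stmt_UNI := uni_proof q_pfz a_zmp a_zfl
theorem a_rgd : Stmt_RGD := rgd_proof a_zfl a_krs q_vkr q_fin q_prj q_rtq q_str q_rel q_map
theorem a_rgs : Stmt_RGS := rgs_proof sqx_proof a_rgd
theorem a_rge : Stmt_RGE := rge_proof a_rgs a_uni a_zfl a_zmp
theorem a_stf (hDSF : Stmt_DSF) (hTOW : Stmt_TOW) : Stmt_STF :=
  stf_proof hDSF hTOW sqx_proof a_sta a_zfl q_fin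
theorem a_sup (hDSF : Stmt_DSF) (hTOW : Stmt_TOW) : Stmt_SUP := sup_proof (a_stf hDSF hTOW)
theorem a_rea (hDSF : Stmt_DSF) (hTOW : Stmt_TOW) : Stmt_REA :=
  rea_proof (a_sup hDSF hTOW) a_uni a_zmp
theorem a_qfi : Stmt_QFI := qfi_proof a_zfl

/-- elementary type of the fields in which `-1` is a square, from descent and tower -/
theorem a_etf (hDSF : Stmt_DSF) (hTOW : Stmt_TOW) : Stmt_ETF :=
  etf_of hDSF hTOW a_lzr a_qdc a_qlo a_qxt a_zfl a_zmp (a_rea hDSF hTOW) a_rge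

theorem a_htf (hDSF : Stmt_DSF) (hTOW : Stmt_TOW) : Stmt_HTF :=
  htf_of hDSF hTOW a_lzr a_zfl a_zmp (a_rea hDSF hTOW) a_rge

theorem a_gen (hDSF : Stmt_DSF) (hTOW : Stmt_TOW) : Stmt_GEN := gen_of (a_etf hDSF hTOW) a_qfi

end Pool.Agent.ETG
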