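import Pool.Agent.ETG.Stmts

/-!
ETG LZR: the components of a decomposition are linked, nondegenerate, indecomposable factors.
-/

set_option autoImplicit false

namespace Pool.Agent.ETG

theorem lzr_proof (hIDC : Stmt_IDC) : Stmt_LZR := by
  intro V _ _ Z hZ k C hOS j
  have hself : ∀ v : V, v + v = 0 := ZModModule.add_self
  have hfix : ∀ w : LinearMap.range (C.p j), C.p j (w : V) = w := by
    rintro ⟨_, v, rfl⟩
    exact C.idem j v
  have hperp : ∀ (w : LinearMap.range (C.p j)) (u : V), Z w (u + C.p j u) := by
    intro w u
    have := C.perp j w u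
    rwa [hfix] at this
  refine ⟨⟨?_, ?_, ?_, ?_, ?_⟩, ?_, ?_, ?_, ?_⟩
  · intro a b h
    exact hZ.symm _ _ h
  · intro a
    exact hZ.zero _
  · intro a b c h1 h2
    exact hZ.add _ _ _ h1 h2
  · intro a
    exact hZ.alt _
  · intro a b c d a' b' h1 h2
    obtain ⟨x, h3, h4, h5⟩ := h1
    obtain ⟨x', h6, h7, h8⟩ := h2
    obtain ⟨y, h9, h10, h11⟩ := hZ.trans (a : V) b c d a' b' ⟨x, h3, h4, h5⟩ ⟨x', h6, h7, h8⟩
    refine ⟨⟨C.p j y, y, rfl⟩, ?_, ?_, ?_⟩
    · have := C.ind _ _ h9 j
      rw [map_add, hfix, hfix] at this
      exact this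
    · have := C.ind _ _ h10 j
      rw [map_add, hfix, hfix] at this
      exact this
    · have := C.ind _ _ h11 j
      rw [map_add, hfix, hfix] at this
      exact this
  · intro w hw
    apply Subtype.ext
    have := C.nd j w (fun u => by
      rw [hfix]
      exact hw ⟨C.p j u, u, rfl⟩)
    rw [hfix] at this
    exact this
  · intro f hf1 hf2 hf3
    let g : V →ₗ[ZMod 2] V :=
      (LinearMap.range (C.p j)).subtype.comp (f.comp (C.p j).rangeRestrict)
    have hg : ∀ v, g v = f ((C.p j).rangeRestrict v) := fun v => rfl
    have hgw : ∀ w : LinearMap.range (C.p j), g w = f w := by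
      intro w
      rw [hg]
      congr 2
      exact Subtype.ext (hfix w)
    have h := hIDC V Z hZ k C hOS j g (by
        intro v
        rw [hg, hg]
        congr 2
        exact Subtype.ext (C.idem j v)) (by
        intro v
        rw [hg, hfix]) (by
        intro v
        rw [hg v, hgw, hf1]) (by
        intro v w
        have h1 := hf2 ((C.p j).rangeRestrict v) ((C.p j).rangeRestrict w)
        have h2 := hperp (f ((C.p j).rangeRestrict v)) w
        have h3 := hZ.add _ _ _ h2 h1
        have e : w + C.p j w + (((C.p j).rangeRestrict w + f ((C.p j).rangeRestrict w) :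
            LinearMap.range (C.p j)) : V) = w + g w := by
          rw [hg, Submodule.coe_add]
          show w + C.p j w + (C.p j w + _) = _
          rw [add_assoc, ← add_assoc (C.p j w), hself, zero_add]
        rw [e] at h3
        exact h3) (by
        intro v w h
        exact hf3 _ _ (C.ind v w h j))
    rcases h with h | h
    · left
      intro w
      apply Subtype.ext
      rw [← hgw, h]
      rfl
    · right
      intro w
      apply Subtype.ext
      rw [← hgw, h, hfix]
  · obtain ⟨v, hv⟩ := C.ne j
    exact ⟨⟨C.p j v, v, rfl⟩, fun h => hv (congrArg Subtype.val h)⟩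
  · refine ⟨(LinearMap.range (C.p j)).subtype, ?_, ?_, ?_, ?_⟩
    · intro w
      exact Subtype.ext (hfix w)
    · intro w u hu
      have h1 := hperp w u
      have h2 : C.p j u = 0 := congrArg Subtype.val hu
      rw [h2, add_zero] at h1
      exact h1
    · intro v v' h
      exact C.ind v v' h j
    · intro w w' h
      exact h

end Pool.Agent.ETG
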