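import Pool.Agent.ETG.Iface
import Pool.Agent.EWG.Stmts

/-!
Statements of the modules of the squad ETG: realisation of the indecomposable factors by
algebraic extensions, group extensions, induction.  From the descent `Stmt_DSF` and the tower
`Stmt_TOW` to the general theorem `Stmt_GEN`.  Recipes: /team-store/MP_d26ff6_ETG.md.
-/

set_option autoImplicit false

namespace Pool.Agent.ETG

open scoped BigOperators
open Pool.Agent.EWG

section
variable {V : Type} [AddCommGroup V] [Module (ZMod 2) V]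

/-- the component `p` of `(V, Z)` is indecomposable -/
def IndecP (Z : V → V → Prop) (p : V →ₗ[ZMod 2] V) : Prop := ∀ f : V →ₗ[ZMod 2] V,
  (∀ v, f (p v) = f v) → (∀ v, p (f v) = f v) → (∀ v, f (f v) = f v) →
  (∀ v w, Z (f v) (w + f w)) → (∀ v w, Z v w → Z (f v) (f w)) →
  (∀ v, f v = 0) ∨ ∀ v, f v = p v

/-- restriction of the relation to a subspace -/
def ZR (Z : V → V → Prop) (U : Submodule (ZMod 2) V) (a b : U) : Prop := Z a b

/-- `S` is the quaternionic structure with `-1 = 1` given by `(V, Z)` -/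
def QOf (Z : V → V → Prop) (S : QS.QStruct) : Prop :=
  S.neg = 1 ∧ ∃ φ : Multiplicative V ≃* S.G, ∀ a b : V,
    S.q (φ (Multiplicative.ofAdd a)) (φ (Multiplicative.ofAdd b)) = S.zero ↔ Z a b

/-- `(V, Z)` is of elementary type -/
def ETZ (Z : V → V → Prop) : Prop := ∀ S, QOf Z S → QS.ElemType S

/-- `t` is a rigid element -/
def Rig (Z : V → V → Prop) (t : V) : Prop := t ≠ 0 ∧ ∀ v, Z t v → v = 0 ∨ v = t

/-- `q(v, w)` is a value of `q(t, -)` -/
def InQ (Z : V → V → Prop) (t v w : V) : Prop := ∃ a, EqQ Z v w t a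

end

/-! ### A. Abstract decompositions -/

/-- local components and components with a rigid element are indecomposable -/
def Stmt_IDC : Prop := ∀ (V : Type) [AddCommGroup V] [Module (ZMod 2) V] (Z : V → V → Prop),
  LZ Z → ∀ (k : ℕ) (C : ZDec Z k), C.OS → ∀ j, IndecP Z (C.p j)

/-- uniqueness: an indecomposable nondegenerate factor is a component -/
def Stmt_UNQ : Prop := ∀ (V W : Type) [AddCommGroup V] [Module (ZMod 2) V] [AddCommGroup W]
  [Module (ZMod 2) W] (Z : V → V → Prop) (ZW : W → W → Prop) (π : V →ₗ[ZMod 2] W), LZ Z →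
  LZ ZW → Fac Z ZW π → ND ZW → Indec ZW → (∃ w : W, w ≠ 0) → ∀ (k : ℕ) (C : ZDec Z k), C.OS →
  ∃ j, (∀ v, π (C.p j v) = π v) ∧ (∀ v, C.p j v = v → π v = 0 → v = 0) ∧
    (∀ w, ∃ v, C.p j v = v ∧ π v = w) ∧
    ∀ v v', C.p j v = v → C.p j v' = v' → (Z v v' ↔ ZW (π v) (π v'))

/-- the factor `W` of `V` is a factor of `V'` if `x` has component `0` in `W` -/
def Stmt_STA : Prop := ∀ (V V' W : Type) [AddCommGroup V] [Module (ZMod 2) V] [AddCommGroup V']
  [Module (ZMod 2) V'] [AddCommGroup W] [Module (ZMod 2) W] (Z : V → V → Prop)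
  (Z' : V' → V' → Prop) (ZW : W → W → Prop) (π : V →ₗ[ZMod 2] W) (res : V →ₗ[ZMod 2] V') (x : V),
  LZ Z → LZ Z' → LZ ZW → Fac Z ZW π → ND ZW → Indec ZW → (∃ w : W, w ≠ 0) → π x = 0 →
  ∀ (k : ℕ) (C : ZDec Z k), C.OS → ∀ (k' : ℕ) (C' : ZDec Z' k'),
  (∀ j, C.p j x ≠ 0 ∨ ∃ j', ZFree Z Z' res (C.p j) (C'.p j')) →
  ∃ π' : V' →ₗ[ZMod 2] W, Fac Z' ZW π' ∧ ∀ v, π' (res v) = π v

/-- the components are linked, nondegenerate, indecomposable and nonzero -/
def Stmt_LZR : Prop := ∀ (V : Type) [AddCommGroup V] [Module (ZMod 2) V] (Z : V → V → Prop),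
  LZ Z → ∀ (k : ℕ) (C : ZDec Z k), C.OS → ∀ j,
  LZ (ZR Z (LinearMap.range (C.p j))) ∧ ND (ZR Z (LinearMap.range (C.p j))) ∧
  Indec (ZR Z (LinearMap.range (C.p j))) ∧ (∃ w : LinearMap.range (C.p j), w ≠ 0) ∧
  Fac Z (ZR Z (LinearMap.range (C.p j))) (C.p j).rangeRestrict

/-- a rigid element splits off as a group extension: complement of `t` -/
def Stmt_RIG : Prop := ∀ (V : Type) [AddCommGroup V] [Module (ZMod 2) V] (Z : V → V → Prop),
  LZ Z → ND Z → ∀ t, Rig Z t → ∃ τ : V →ₗ[ZMod 2] ZMod 2, τ t = 1 ∧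
  ∀ v w, τ v = 0 → τ w = 0 → InQ Z t v w → Z v w

/-! ### B. Quaternionic structures -/

/-- existence of the quaternionic structure of `(V, Z)` -/
def Stmt_QEX : Prop := ∀ (V : Type) [AddCommGroup V] [Module (ZMod 2) V] (Z : V → V → Prop),
  LZ Z → ∃ S, QOf Z S

/-- uniqueness up to isomorphism -/
def Stmt_QIS : Prop := ∀ (V V' : Type) [AddCommGroup V] [Module (ZMod 2) V] [AddCommGroup V']
  [Module (ZMod 2) V'] (Z : V → V → Prop) (Z' : V' → V' → Prop) (e : V ≃+ V'),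
  (∀ a b, Z a b ↔ Z' (e a) (e b)) → ∀ S T, QOf Z S → QOf Z' T → QS.Iso S T

/-- product of two structures -/
def Stmt_QPR : Prop := ∀ (V U U' : Type) [AddCommGroup V] [Module (ZMod 2) V] [AddCommGroup U]
  [Module (ZMod 2) U] [AddCommGroup U'] [Module (ZMod 2) U'] (Z : V → V → Prop)
  (ZU : U → U → Prop) (ZU' : U' → U' → Prop) (e : V ≃+ U × U'), LZ ZU → LZ ZU' →
  (∀ a b, Z a b ↔ ZU (e a).1 (e b).1 ∧ ZU' (e a).2 (e b).2) → ETZ ZU → ETZ ZU' → ETZ Z

/-- totally degenerate structures -/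
def Stmt_QRD : Prop := ∀ (V : Type) [AddCommGroup V] [Module (ZMod 2) V] [Finite V]
  (Z : V → V → Prop), (∀ a b, Z a b) → ETZ Z

/-- elementary type of a structure from its components -/
def Stmt_QDC : Prop := ∀ (V : Type) [AddCommGroup V] [Module (ZMod 2) V] [Finite V]
  (Z : V → V → Prop), LZ Z → ∀ (k : ℕ) (C : ZDec Z k), C.OS →
  (∀ j, ETZ (ZR Z (LinearMap.range (C.p j)))) → ETZ Z

/-- local components -/
def Stmt_QLO : Prop := ∀ (V : Type) [AddCommGroup V] [Module (ZMod 2) V] [Finite V]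
  (Z : V → V → Prop), LZ Z → ND Z → ZLoc Z LinearMap.id → ETZ Z

/-- group extensions -/
def Stmt_QXT : Prop := ∀ (V U : Type) [AddCommGroup V] [Module (ZMod 2) V] [Finite V]
  [AddCommGroup U] [Module (ZMod 2) U] (Z : V → V → Prop) (ZU : U → U → Prop) (t : V)
  (ρ : V →ₗ[ZMod 2] U), LZ Z → ND Z → Rig Z t → LZ ZU → Function.Surjective ρ →
  (∀ v, ρ v = 0 ↔ v = 0 ∨ v = t) → (∀ v w, ZU (ρ v) (ρ w) ↔ InQ Z t v w) → ETZ ZU → ETZ Z

/-! ### C. Fields -/

/-- the relation `Z` of a field -/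
def Stmt_ZFL : Prop := ∀ (K : Type) [Field K], Good K → LZ (Zf K) ∧
  (∀ a b : Kˣ, Zf K (vm a) (vm b) ↔ pf a b = 0) ∧
  (∀ a b c d : Kˣ, EqQ (Zf K) (vm a) (vm b) (vm c) (vm d) ↔ pf a b = pf c d)

/-- functoriality -/
def Stmt_ZMP : Prop := ∀ (K L : Type) [Field K] [Field L] (f : K →+* L), Good K →
  ∀ v w, Zf K v w → Zf L (vmap f v) (vmap f w)

/-- the structure of a field in the sense of the Witt ring is the one of `Z` -/
def Stmt_QFI : Prop := ∀ (F : Type) [Field F], Good F → ∀ S, IsS F S → QOf (Zf F) S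

/-- square roots inside an algebraically closed field -/
def Stmt_SQX : Prop := ∀ (Ω : Type) [Field Ω] [IsAlgClosed Ω] (K : Subfield Ω), (2 : Ω) ≠ 0 →
  ∀ y : (K)ˣ, ¬ IsSquare y → ∃ (K' : Subfield Ω) (h : K ≤ K'),
  letI : Algebra K K' := (Subfield.inclusion h).toAlgebra
  ∃ E : QD K K', E.x = y

/-- a finite field extension marked with a factor `W` -/
def Mark {Ω W : Type} [Field Ω] [AddCommGroup W] [Module (ZMod 2) W] (K : Subfield Ω)
    (ZW : W → W → Prop) (π : VV K →ₗ[ZMod 2] W) : Prop :=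
  Good K ∧ Finite (VV K) ∧ Fac (Zf K) ZW π

/-- one step: the square class `y` with component `0` becomes trivial -/
def Stmt_STF : Prop := ∀ (Ω W : Type) [Field Ω] [IsAlgClosed Ω] [AddCommGroup W]
  [Module (ZMod 2) W] (ZW : W → W → Prop), LZ ZW → ND ZW → Indec ZW → (∃ w : W, w ≠ 0) →
  ∀ (K : Subfield Ω) (π : VV K →ₗ[ZMod 2] W), Mark K ZW π → ∀ y : VV K, π y = 0 →
  ∃ (K' : Subfield Ω) (h : K ≤ K') (π' : VV K' →ₗ[ZMod 2] W), Mark K' ZW π' ∧
  (∀ v, π' (vmap (Subfield.inclusion h) v) = π v) ∧ vmap (Subfield.inclusion h) y = 0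

/-- all square classes with component `0` become trivial -/
def Stmt_SUP : Prop := ∀ (Ω W : Type) [Field Ω] [IsAlgClosed Ω] [AddCommGroup W]
  [Module (ZMod 2) W] (ZW : W → W → Prop), LZ ZW → ND ZW → Indec ZW → (∃ w : W, w ≠ 0) →
  ∀ (K : Subfield Ω) (π : VV K →ₗ[ZMod 2] W), Mark K ZW π →
  ∃ (K' : Subfield Ω) (h : K ≤ K') (π' : VV K' →ₗ[ZMod 2] W), Mark K' ZW π' ∧
  (∀ v, π' (vmap (Subfield.inclusion h) v) = π v) ∧
  ∀ y, π y = 0 → vmap (Subfield.inclusion h) y = 0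

/-- union of a chain -/
def Stmt_UNI : Prop := ∀ (Ω W : Type) [Field Ω] [AddCommGroup W] [Module (ZMod 2) W]
  (ZW : W → W → Prop) (K : ℕ → Subfield Ω) (h : ∀ n, K n ≤ K (n + 1))
  (π : ∀ n, VV (K n) →ₗ[ZMod 2] W), (∀ n, Good (K n)) →
  (∀ n v, π (n + 1) (vmap (Subfield.inclusion (h n)) v) = π n v) → (∀ w, ∃ v, π 0 v = w) →
  (∀ n v v', Zf (K n) v v' → ZW (π n v) (π n v')) →
  (∀ n v, π n v = 0 → ∃ (m : ℕ) (hm : K n ≤ K m), vmap (Subfield.inclusion hm) v = 0) →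
  (∀ v v' : VV (K 0), ZW (π 0 v) (π 0 v') → ∃ (m : ℕ) (hm : K 0 ≤ K m),
    Zf (K m) (vmap (Subfield.inclusion hm) v) (vmap (Subfield.inclusion hm) v')) →
  ∃ (E : Subfield Ω) (hE : K 0 ≤ E), Good E ∧
    (∀ w : VV E, ∃ v, vmap (Subfield.inclusion hE) v = w) ∧
    (∀ v, vmap (Subfield.inclusion hE) v = 0 ↔ π 0 v = 0) ∧
    ∀ v v', Zf E (vmap (Subfield.inclusion hE) v) (vmap (Subfield.inclusion hE) v') ↔
      ZW (π 0 v) (π 0 v')

/-- REALISATION of an indecomposable factor by an algebraic extension -/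
def Stmt_REA : Prop := ∀ (Ω W : Type) [Field Ω] [IsAlgClosed Ω] [AddCommGroup W]
  [Module (ZMod 2) W] (ZW : W → W → Prop), LZ ZW → ND ZW → Indec ZW → (∃ w : W, w ≠ 0) →
  ∀ (K : Subfield Ω) (π : VV K →ₗ[ZMod 2] W), Mark K ZW π →
  ∃ (E : Subfield Ω) (hE : K ≤ E), Good E ∧
    (∀ w : VV E, ∃ v, vmap (Subfield.inclusion hE) v = w) ∧
    (∀ v, vmap (Subfield.inclusion hE) v = 0 ↔ π v = 0) ∧
    ∀ v v', Zf E (vmap (Subfield.inclusion hE) v) (vmap (Subfield.inclusion hE) v') ↔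
      ZW (π v) (π v')

/-- a quaternion algebra split by `F(√x)` has the slot `x` -/
def Stmt_KRS : Prop := ∀ (F K : Type) [Field F] [Field K] [Algebra F K], Good F →
  ∀ (E : QD F K) (a b : Fˣ), pf (iu F a : Kˣ) (iu F b) = 0 → ∃ c : Fˣ, pf a b = pf E.x c

/-- square root of a rigid element (field extension of degree 2) -/
def Stmt_RGD : Prop := ∀ (F K : Type) [Field F] [Field K] [Algebra F K], Good F →
  Finite (VV F) → ∀ E : QD F K, Rig (Zf F) (vm E.x) → Finite (VV K) ∧ Rig (Zf K) (vm E.θ) ∧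
  (∀ w : VV K, ∃ v : VV F, w = rv F K v ∨ w = rv F K v + vm E.θ) ∧
  (∀ v, rv F K v = 0 ↔ v = 0 ∨ v = vm E.x) ∧ (∀ v, rv F K v ≠ vm E.θ) ∧
  (∀ v w, Zf K (rv F K v) (rv F K w) ↔ InQ (Zf F) (vm E.x) v w) ∧
  ∀ v w, InQ (Zf K) (vm E.θ) (rv F K v) (rv F K w) → Zf K (rv F K v) (rv F K w)

/-- square root of a rigid element inside an algebraically closed field -/
def Stmt_RGS : Prop := ∀ (Ω : Type) [Field Ω] [IsAlgClosed Ω] (K : Subfield Ω), Good K →
  Finite (VV K) → ∀ t : VV K, Rig (Zf K) t → ∃ (K' : Subfield Ω) (h : K ≤ K') (t' : VV K'),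
  Good K' ∧ Finite (VV K') ∧ Rig (Zf K') t' ∧
  (∀ w : VV K', ∃ v : VV K, w = vmap (Subfield.inclusion h) v ∨
    w = vmap (Subfield.inclusion h) v + t') ∧
  (∀ v, vmap (Subfield.inclusion h) v = 0 ↔ v = 0 ∨ v = t) ∧
  (∀ v, vmap (Subfield.inclusion h) v ≠ t') ∧
  (∀ v w, Zf K' (vmap (Subfield.inclusion h) v) (vmap (Subfield.inclusion h) w) ↔
    InQ (Zf K) t v w) ∧
  ∀ v w, InQ (Zf K') t' (vmap (Subfield.inclusion h) v) (vmap (Subfield.inclusion h) w) →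
    Zf K' (vmap (Subfield.inclusion h) v) (vmap (Subfield.inclusion h) w)

/-- all `2`-power roots of a rigid element -/
def Stmt_RGE : Prop := ∀ (Ω : Type) [Field Ω] [IsAlgClosed Ω] (K : Subfield Ω), Good K →
  Finite (VV K) → ∀ t : VV K, Rig (Zf K) t → ∃ (E : Subfield Ω) (hE : K ≤ E), Good E ∧
  (∀ w : VV E, ∃ v, vmap (Subfield.inclusion hE) v = w) ∧
  (∀ v, vmap (Subfield.inclusion hE) v = 0 ↔ v = 0 ∨ v = t) ∧
  ∀ v w, Zf E (vmap (Subfield.inclusion hE) v) (vmap (Subfield.inclusion hE) w) ↔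
    InQ (Zf K) t v w

/-- THE INDUCTION -/
def Stmt_ETF : Prop := ∀ (F : Type) [Field F], Good F → Finite (VV F) → ETZ (Zf F)

end Pool.Agent.ETG
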