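import Pool.Agent.ETB.Final
import Pool.Agent.EWG.All
import Pool.Agent.EWG.ISO
import Pool.Agent.ETG.All

/-!
ETG: the general theorem (fields in which `-1` is a square) for quaternionic structures of fields
described by isometries of norm forms.
-/

set_option autoImplicit false

namespace Pool.Agent.ETG

open Pool.Agent.EWG

/-- isometry of norm forms is equality in the Witt ring -/
theorem t_niso {F : Type} [Field F] (hF : Good F) (a b c d : Fˣ) :
    ETB.NIso (a : F) b c d ↔ pf a b = pf c d :=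
  ETB.niso_iff (iso_proof q_rel q_clq q_pfz q_lnk) hF a b c d

theorem t_iss {F : Type} [Field F] (hF : Good F) (S : QS.QStruct) :
    ETB.IsStructOf F S ↔ IsS F S := by
  constructor
  · rintro ⟨φ, h1, h2, h3, h4⟩
    exact ⟨φ, h1, h2, h3, fun a b c d => (h4 a b c d).trans (t_niso hF a b c d)⟩
  · rintro ⟨φ, h1, h2, h3, h4⟩
    exact ⟨φ, h1, h2, h3, fun a b c d => (h4 a b c d).trans (t_niso hF a b c d).symm⟩

/-- the general theorem from descent and tower -/
theorem top_of (hG : Stmt_GEN) (F : Type) [Field F] (h2 : (2 : F) ≠ 0)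
    (hi : ∃ i : F, i ^ 2 = -1)
    (hf : Finite (Fˣ ⧸ (powMonoidHom 2 : Fˣ →* Fˣ).range)) :
    (∃ S, ETB.IsStructOf F S) ∧ ∀ S, ETB.IsStructOf F S → QS.ElemType S := by
  have hF : Good F := ⟨h2, hi⟩
  have hfin : Finite (VV F) := hf
  refine ⟨?_, fun S hS => hG F hF hfin S ((t_iss hF S).1 hS)⟩
  obtain ⟨S, hS⟩ := q_qsf F hF
  exact ⟨S, (t_iss hF S).2 hS⟩

end Pool.Agent.ETG
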